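import Pool.Agent.Lib.PosetForcing.Card
import Pool.Agent.P.MP_2e9c36_lc.YUd

set_option autoImplicit false
set_option synthInstance.maxSize 4000
set_option linter.unusedSectionVars false

/-! A countable elementary submodel of a quotient model whose natural numbers are standard. -/

open Pool.Agent.Lib.PosetForcing Pool.Agent.P.MP_5f3b23_lc.Zf

namespace Pool.Agent.P.MP_0d6be8_lc.NKW

universe u v

section maps
variable {M : Type v} {N : Type} (mem : M → M → Prop)

theorem sat_map (e : N ≃ M) (φ : Fml) : ∀ w : ℕ → N,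
    Sat (fun a b => mem (e a) (e b)) φ w ↔ Sat mem φ fun i => e (w i) := by
  induction φ with
  | mem i j => exact fun _ => Iff.rfl
  | eq i j => exact fun _ => e.apply_eq_iff_eq.symm
  | neg φ ih => exact fun w => not_congr (ih w)
  | and φ ψ ih ih' => exact fun w => and_congr (ih w) (ih' w)
  | all i φ ih =>
    exact fun w => (forall_congr' fun x => (ih _).trans (iff_of_eq (congrArg _
      (Function.comp_update e w i x)))).trans (e.surjective.forall (p := fun x =>
        Sat mem φ (Function.update (fun i => e (w i)) i x))).symm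

theorem zfc_map (e : N ≃ M) (h : IsZFC mem) : IsZFC fun a b => mem (e a) (e b) := by
  obtain ⟨h1, h2, h3, h4, h5, h6, h7, h8, h9⟩ := h
  simp only [ExistsUnique, e.surjective.forall, e.surjective.exists, e.apply_eq_iff_eq]
    at h1 h2 h3 h4 h5 h6 h9
  refine ⟨h1, h2, h3, h4, h5, h6, fun φ w a => ?_, fun φ w a => ?_, h9⟩
  · have := h7 φ (fun i => e (w i)) (e a)
    simp only [e.surjective.forall, e.surjective.exists] at this
    simpa only [sat_map, Function.apply_update fun _ => e] using this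
  · have := h8 φ (fun i => e (w i)) (e a)
    simp only [ExistsUnique, e.surjective.forall, e.surjective.exists, e.apply_eq_iff_eq] at this
    simpa only [ExistsUnique, sat_map, Function.apply_update fun _ => e] using this

theorem zfc_elem {S : Type v} (m' : S → S → Prop) (c : S → M) (k : S) (h : IsZFC mem)
    (tr : ∀ (P : ∀ M : Type v, (M → M → Prop) → (ℕ → M) → Prop) [UD P] (v : ℕ → S),
      P M mem (fun i => c (v i)) → P S m' v) : IsZFC m' := by
  let v0 : ℕ → S := fun _ => k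
  refine ⟨?_, ?_, ?_, ?_, ?_, ?_, fun φ v a => ?_, fun φ v a => ?_, ?_⟩
  · exact tr (fun _ mem _ => ∀ a b, (∀ x, mem x a ↔ mem x b) → a = b) v0 h.ext
  · exact tr (fun _ mem _ => ∀ a, (∃ x, mem x a) → ∃ x, mem x a ∧ ∀ y, mem y x → ¬ mem y a) v0
      h.found
  · exact tr (fun _ mem _ => ∀ a b, ∃ c, ∀ x, mem x c ↔ x = a ∨ x = b) v0 h.pair
  · exact tr (fun _ mem _ => ∀ a, ∃ c, ∀ x, mem x c ↔ ∃ y, mem y a ∧ mem x y) v0 h.union
  · exact tr (fun _ mem _ => ∀ a, ∃ c, ∀ x, mem x c ↔ ∀ y, mem y x → mem y a) v0 h.power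
  · exact tr (fun _ mem _ => ∃ w, (∃ e, mem e w ∧ ∀ x, ¬ mem x e) ∧
      ∀ x, mem x w → ∃ y, mem y w ∧ ∀ z, mem z y ↔ mem z x ∨ z = x) v0 h.inf
  · have u : UD.{v} fun M mem w =>
        Sat mem φ (Function.update (fun n => w (n + 1 + 1 + 1)) 0 (w 0)) :=
      ((ud_sat φ).ren fun n => if n = 0 then 0 else n + 3).congr fun M mem v => by
        apply Iff.of_eq
        congr 1
        funext n
        by_cases e : n = 0 <;> simp [e]
    exact tr (fun _ mem w => ∃ b, ∀ x, mem x b ↔ mem x (w 0) ∧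
      Sat mem φ (Function.update (fun n => w (n + 1)) 0 x)) (cons a v) (h.sep φ _ _)
  · have u : ∀ i j k : ℕ, UD.{v} fun M mem w => Sat mem φ
        (Function.update (Function.update (fun n => w (n + k)) 0 (w i)) 1 (w j)) := fun i j k =>
      ((ud_sat φ).ren fun n => if n = 1 then j else if n = 0 then i else n + k).congr
        fun M mem v => by
          apply Iff.of_eq
          congr 1
          funext n
          by_cases e : n = 1
          · simp [e]
          · by_cases e' : n = 0 <;> simp [e, e']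
    have u1 : UD.{v} fun M mem w => Sat mem φ (Function.update (Function.update
      (fun n => w (n + 1 + 1 + 1)) 0 (w (0 + 1))) 1 (w 0)) := u 1 0 3
    have u2 : UD.{v} fun M mem w => Sat mem φ (Function.update (Function.update
      (fun n => w (n + 1 + 1 + 1 + 1)) 0 (w 0)) 1 (w (0 + 1))) := u 0 1 4
    exact tr (fun _ mem w => (∀ x, mem x (w 0) → ∃! y, Sat mem φ (Function.update
      (Function.update (fun n => w (n + 1)) 0 x) 1 y)) → ∃ b, ∀ y, mem y b ↔ ∃ x, mem x (w 0) ∧
        Sat mem φ (Function.update (Function.update (fun n => w (n + 1)) 0 x) 1 y)) (cons a v)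
      (h.repl φ _ _)
  · exact tr (fun _ mem _ => ∀ a, (∀ x, mem x a → ∃ z, mem z x) →
      (∀ x y z, mem x a → mem y a → mem z x → mem z y → x = y) →
      ∃ c, ∀ x, mem x a → ∃! z, mem z x ∧ mem z c) v0 h.choice

end maps

variable {P : Type u} [Preorder P]

theorem exists_gen_seq (p : ℕ → P) (h : Antitone p) :
    ∃ U : Gen P, ∀ n, Set.Iic (p n) ∈ U.1 := by
  let F : Filter P :=
    { sets := {S | ∃ D : Set P, IsLowerSet D ∧ (∀ q, ∃ r ≤ q, r ∈ D) ∧
        ∃ n, D ∩ Set.Iic (p n) ⊆ S}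
      univ_sets := ⟨Set.univ, isLowerSet_univ, fun q => ⟨q, le_rfl, trivial⟩, 0, Set.subset_univ _⟩
      sets_of_superset := fun ⟨D, h1, h2, n, h3⟩ h => ⟨D, h1, h2, n, h3.trans h⟩
      inter_sets := by
        rintro x y ⟨D, h1, h2, n, h3⟩ ⟨E, g1, g2, m, g3⟩
        refine ⟨D ∩ E, h1.inter g1, fun q => ?_, max n m, fun z hz =>
          ⟨h3 ⟨hz.1.1, le_trans hz.2 (h (le_max_left _ _))⟩,
            g3 ⟨hz.1.2, le_trans hz.2 (h (le_max_right _ _))⟩⟩⟩
        obtain ⟨r, hr, hrD⟩ := h2 q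
        obtain ⟨s, hs, hsE⟩ := g2 r
        exact ⟨s, hs.trans hr, h1 hs hrD, hsE⟩ }
  have : F.NeBot := by
    refine Filter.forall_mem_nonempty_iff_neBot.1 ?_
    rintro S ⟨D, -, h2, n, h3⟩
    obtain ⟨r, hr, hrD⟩ := h2 (p n)
    exact ⟨r, h3 ⟨hrD, hr⟩⟩
  exact ⟨⟨Ultrafilter.of F, fun D h1 h2 =>
    Ultrafilter.of_le F ⟨D, h1, h2, 0, Set.inter_subset_left⟩⟩, fun n =>
    Ultrafilter.of_le F ⟨Set.univ, isLowerSet_univ, fun q => ⟨q, le_rfl, trivial⟩, n,
      Set.inter_subset_right⟩⟩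

variable [OrderTop P]

theorem exists_closed (a0 : ℕ → Name P) : ∃ S : Set (Name P), S.Countable ∧ (∀ i, a0 i ∈ S) ∧
    ∀ (φ : Fml) (i : ℕ) (w : ℕ → Name P), (∀ n, w n ∈ S) → ∃ b ∈ S, ∀ U : Gen P,
      Sat Mod.mem φ (Function.update (fun n => (w n).val U) i (b.val U)) →
        ∀ x, Sat Mod.mem φ (Function.update (fun n => (w n).val U) i x) := by
  have key : ∀ a : Fml × ℕ × List (Name P), ∃ b : Name P, ∀ U : Gen P,
      (∃ x, ¬ Sat Mod.mem a.1 (Function.update (fun n => (a.2.2.getD n (a0 0)).val U) a.2.1 x)) →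
      ¬ Sat Mod.mem a.1 (Function.update (fun n => (a.2.2.getD n (a0 0)).val U) a.2.1
        (b.val U)) := fun a =>
    @max_principle _ _ (fun U x => ¬ Sat Mod.mem a.1
      (Function.update (fun n => (a.2.2.getD n (a0 0)).val U) a.2.1 x))
      fun b => @clopen_not _ _ _ (by simpa only [val_update] using clopen_sat _ _)
  choose wit hwit using key
  let T : ℕ → Set (Name P) := fun n =>
    Nat.rec (Set.range a0) (fun _ S => S ∪ wit '' {a | ∀ x ∈ a.2.2, x ∈ S}) n
  have hT : ∀ n, (T n).Countable := fun n => by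
    induction n with
    | zero => exact Set.countable_range a0
    | succ n ih =>
      refine ih.union (Set.Countable.image ?_ _)
      exact (Set.countable_univ.prod (Set.countable_univ.prod (countable_lists ih))).mono
        fun a ha => Set.mem_prod.2 ⟨Set.mem_univ _, Set.mem_prod.2 ⟨Set.mem_univ _, ha⟩⟩
  have hm : Monotone T := monotone_nat_of_le_succ fun n => Set.subset_union_left
  refine ⟨⋃ n, T n, Set.countable_iUnion hT, fun i => Set.mem_iUnion.2 ⟨0, i, rfl⟩,
    fun φ i w hw => ?_⟩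
  obtain ⟨n, h1, -⟩ := (ud_sat.{u + 1} φ).out
  obtain ⟨N, hN⟩ : ∃ N, ∀ j < n, w j ∈ T N := by
    choose g hg using fun j => Set.mem_iUnion.1 (hw j)
    exact ⟨(Finset.range n).sup g, fun j hj =>
      hm (Finset.le_sup (f := g) (Finset.mem_range.2 hj)) (hg j)⟩
  let l : List (Name P) := (List.range n).map w
  refine ⟨wit (φ, i, l), Set.mem_iUnion.2 ⟨N + 1, Or.inr ⟨_, fun x hx => ?_, rfl⟩⟩,
    fun U h x => ?_⟩
  · obtain ⟨j, hj, rfl⟩ := List.mem_map.1 hx
    exact hN j (List.mem_range.1 hj)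
  · have key : ∀ x, Sat Mod.mem φ (Function.update (fun n => (l.getD n (a0 0)).val U) i x) ↔
        Sat Mod.mem φ (Function.update (fun n => (w n).val U) i x) := fun x =>
      h1 _ Mod.mem _ _ fun j hj => by
        by_cases h : j = i
        · simp [h]
        · simp [h, l, hj]
    by_contra hx
    exact hwit (φ, i, l) U ⟨x, fun k => hx ((key x).1 k)⟩ ((key _).2 h)

/-- an elementary submodel with a condition from each of countably many dense sets -/
theorem exists_sub (a0 : ℕ → Name P) (D : Name P → P → Prop) (hD : ∀ a p, ∃ q ≤ p, D a q) :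
    ∃ (U : Gen P) (S : Set (Mod U)), S.Countable ∧ (∀ i, (a0 i).val U ∈ S) ∧
      (∀ x ∈ S, ∃ a p, a.val U = x ∧ D a p ∧ Set.Iic p ∈ U.1) ∧
      ∀ (φ : Fml) (v : ℕ → S), Sat (fun a b : S => Mod.mem a.1 b.1) φ v ↔
        Sat Mod.mem φ fun i => (v i).1 := by
  obtain ⟨S, h1, h2, h3⟩ := exists_closed a0
  obtain ⟨e, he⟩ := h1.exists_eq_range ⟨_, h2 0⟩
  choose g hg hg' using hD
  let p : ℕ → P := fun n => Nat.rec ⊤ (fun k q => g (e k) q) n
  obtain ⟨U, hU⟩ := exists_gen_seq p (antitone_nat_of_succ_le fun n => hg _ _)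
  refine ⟨U, (fun a => a.val U) '' S, h1.image _, fun i => ⟨_, h2 i, rfl⟩, ?_, fun φ => ?_⟩
  · rintro x ⟨a, ha, rfl⟩
    obtain ⟨k, rfl⟩ := he ▸ ha
    exact ⟨_, p (k + 1), rfl, hg' _ _, hU (k + 1)⟩
  induction φ with
  | mem i j => exact fun _ => Iff.rfl
  | eq i j => exact fun _ => Subtype.ext_iff
  | neg φ ih => exact fun v => not_congr (ih v)
  | and φ ψ ih ih' => exact fun v => and_congr (ih v) (ih' v)
  | all i φ ih =>
    intro v
    have e : ∀ x : ((fun a => a.val U) '' S : Set (Mod U)),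
        (fun n => (Function.update v i x n).1) = Function.update (fun n => (v n).1) i x.1 :=
      fun x => by
        funext n
        by_cases h : n = i <;> simp [h]
    refine ⟨fun h => ?_, fun h x => (ih _).2 (e x ▸ h x)⟩
    choose w hw hw' using fun n => (v n).2
    obtain ⟨b, hb, hb'⟩ := h3 φ i w hw
    have e2 : (fun n => (v n).1) = fun n => (w n).val U := funext fun n => (hw' n).symm
    have := (ih _).1 (h ⟨_, b, hb, rfl⟩)
    rw [e, e2] at this
    rw [Sat, e2]
    exact hb' U this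

/-- a countable elementary submodel with standard natural numbers -/
theorem exists_omega_model (a0 : ℕ → Name P) :
    ∃ (U : Gen P) (S : Type (u + 1)) (m : S → S → Prop) (v : ℕ → S) (N : Type) (_ : N ≃ S),
      IsZFC m ∧ (∀ (Q : ∀ M : Type (u + 1), (M → M → Prop) → (ℕ → M) → Prop) [UD Q],
        Q _ Mod.mem (fun i => (a0 i).val U) → Q S m v) ∧
      ∀ T : S → Prop, (∀ e, (∀ x, ¬ m x e) → T e) → (∀ x y, IsSucc m y x → T x → T y) →
        ∀ w, IsOmega m w → ∀ x, m x w → T x := by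
  obtain ⟨U, S, h1, h2, h3, h4⟩ := exists_sub a0 (fun a p =>
    (Forces p fun U => ¬ Mod.mem (a.val U) (omegaName.val U)) ∨
      ∃ n, Forces p fun U => a.val U = (natName n).val U) fun a p => by
    by_cases h : Forces p fun U => Mod.mem (a.val U) (omegaName.val U)
    · obtain ⟨q, hq, i, hi⟩ := h.exists_fam
      exact ⟨q, hq, Or.inr ⟨_, hi⟩⟩
    · obtain ⟨q, hq, hi⟩ := exists_forces_not h
      exact ⟨q, hq, Or.inl hi⟩
  have tr : ∀ (Q : ∀ M : Type (u + 1), (M → M → Prop) → (ℕ → M) → Prop) [UD Q] (v : ℕ → S),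
      Q _ Mod.mem (fun i => (v i).1) ↔ Q S (fun a b : S => Mod.mem a.1 b.1) v := fun Q _ v => by
    obtain ⟨φ, hφ⟩ := UD.fml Q
    exact (hφ _ _ _).symm.trans ((h4 φ v).symm.trans (hφ _ _ _))
  have := h1.to_subtype
  obtain ⟨f, hf⟩ := Countable.exists_injective_nat S
  have hz := zfc_elem Mod.mem _ Subtype.val ⟨_, h2 0⟩ (isZFC U) fun Q _ v => (tr Q v).1
  refine ⟨U, S, _, fun i => ⟨_, h2 i⟩, Set.range f, (Equiv.ofInjective f hf).symm, hz,
    fun Q _ h => (tr Q _).1 h, fun T t0 t1 w hw x hx => ?_⟩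
  have e : w.1 = omegaName.val U :=
    IsOmega.eq_omega ((tr (fun _ mem v => IsOmega mem (v 0)) fun _ => w).2 hw)
  obtain ⟨n, hn⟩ : ∃ n, x.1 = (natName n).val U := by
    obtain ⟨a, p, e1, h5 | ⟨n, h5⟩, h6⟩ := h3 x.1 x.2
    · exact (h5 U h6 (by rw [e1, ← e]; exact hx)).elim
    · exact ⟨n, e1 ▸ h5 U h6⟩
  clear hx
  induction n generalizing x with
  | zero => exact t0 x fun y hy => by simp [hn, mem_natName] at hy
  | succ n ih =>
    have h7 : ∃ y, IsSucc Mod.mem x.1 y := ⟨_, hn ▸ natName_succ n U⟩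
    obtain ⟨y, hy⟩ := (tr (fun _ mem v => ∃ y, IsSucc mem (v 0) y) fun _ => x).1 h7
    refine t1 y x hy (ih y ?_)
    have h8 : IsSucc Mod.mem x.1 y.1 :=
      (tr (fun _ mem v => IsSucc mem (v 0) (v 1)) (cons x fun _ => y)).2 hy
    have h9 := natName_succ n U
    rw [← hn] at h9
    rcases (h9 _).1 ((h8 _).2 (Or.inr rfl)) with k | k
    · rcases (h8 _).1 ((h9 _).2 (Or.inr rfl)) with k' | k'
      · obtain ⟨m, hm, e3⟩ := (mem_natName U _).1 k
        rw [e3, natName_mem_iff] at k'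
        omega
      · exact k'.symm
    · exact k

end Pool.Agent.P.MP_0d6be8_lc.NKW
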