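import Pool.Agent.P.MP_0d6be8_lc.Inn.TNat

set_option autoImplicit false
set_option linter.unusedSectionVars false
set_option synthInstance.maxSize 4000

/-! Natural numbers and lists over a model with standard natural numbers. -/

noncomputable section

open Pool.Agent.P.MP_5f3b23_lc.Zf (om op_inj) 
open Pool.Agent.P.MP_af1204_lc.Inn Filter

namespace Pool.Agent.P.MP_0d6be8_lc.NKW

variable [Md]

/-- the natural numbers of the model are standard -/
class Std : Prop where
  std : ∀ x : MM, x ∈ (om : MM) → ∃ n, num n = x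

variable [Std]

instance mtNat : MT ℕ where
  enc := num
  inj _ _ := num_inj
  ex := ⟨om, fun y => ⟨Std.std y, fun ⟨n, e⟩ => e ▸ num_mem_om n⟩⟩

theorem car_nat : car ℕ = om :=
  zext fun y => mem_car.trans ⟨fun ⟨n, e⟩ => e ▸ num_mem_om n, Std.std y⟩

theorem num_mem_num {m n : ℕ} : num m ∈ num n ↔ m < n :=
  mem_num.trans ⟨fun ⟨_, h, e⟩ => num_inj e ▸ h, fun h => ⟨m, h, rfl⟩⟩

instance : OD ℕ := ⟨(inferInstance : DP fun p : Cx fun _ : Cw ℕ => ℕ =>
  p.1.1 = p.2 ∨ enc p.1.1 ∈ enc p.2).congr fun _ => le_iff_eq_or_lt.trans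
    (or_congr Iff.rfl num_mem_num.symm)⟩

instance : WFL ℕ := WFL.of_wf

section nat
variable {Γ : Type} [MC Γ]

instance dd_succ (a : Γ → ℕ) [h : DD a] : DD fun g => (a g).succ := by
  obtain ⟨F, _, h1⟩ := h.out
  exact DD.of (fun x => MP_5f3b23_lc.Zf.suc (F x)) fun g => by rw [h1]; rfl

instance dd_natRec {X : Γ → Type} [∀ g, MT (X g)] [UF X] (z : ∀ g, X g) (s : ∀ g, ℕ → X g → X g)
    (n : Γ → ℕ) [DD z] [DD n]
    [hs : DD fun p : Cx fun q : (Cx fun _ : Γ => ℕ) => X q.1 => s p.1.1 p.1.2 p.2] :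
    DD fun g => Nat.rec (motive := fun _ => X g) (z g) (s g) (n g) := by
  have : DD fun p : Cx fun _ : (Cx fun q : Cx X => Fn ℕ (X q.1)) => ℕ =>
      s p.1.1.1 p.2 (p.1.2 p.2) := hs.comp fun p : Cx fun _ : (Cx fun q : Cx X => Fn ℕ (X q.1)) => ℕ
        => ⟨⟨p.1.1.1, p.2⟩, p.1.2 p.2⟩
  refine DD.of_spec (fun g t => ∃ f : Fn ℕ (X g), f 0 = z g ∧
    (∀ k, k < n g → f k.succ = s g k (f k)) ∧ t = f (n g)) fun g t => ⟨?_, ?_⟩
  · rintro ⟨f, h0, h1, rfl⟩
    generalize n g = m at h1
    induction m with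
    | zero => exact h0
    | succ m ih => rw [h1 m (by omega), ih fun k hk => h1 k (by omega)]
  · rintro rfl
    generalize n g = m
    induction m with
    | zero => exact ⟨Fn.const ℕ (z g), rfl, fun k hk => absurd hk (by omega), rfl⟩
    | succ m ih =>
      obtain ⟨f, h0, h1, h2⟩ := ih
      refine ⟨f.update (m + 1) (s g m (f m)), (Fn.update_of_ne (by omega) _ _).trans h0,
        fun k hk => ?_, by rw [Fn.update_self, ← h2]⟩
      rw [Fn.update_of_ne (x := k) (by omega)]
      rcases Nat.lt_succ_iff_lt_or_eq.1 hk with h | rfl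
      · rw [Fn.update_of_ne (by omega), h1 k h]
      · exact Fn.update_self ..

variable (a b : Γ → ℕ) [DD a] [DD b]

instance dd_add : DD fun g => a g + b g :=
  (inferInstance : DD fun g => Nat.rec (motive := fun _ => ℕ) (a g) (fun _ x => x.succ) (b g)).congr
    fun g => by induction b g with
      | zero => rfl
      | succ n ih => exact congrArg Nat.succ ih

instance dd_sub : DD fun g => a g - b g :=
  DD.of_spec (fun g t => (a g ≤ b g ∧ t = 0) ∨ t + b g = a g) fun _ _ => by omega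

instance dd_mul : DD fun g => a g * b g :=
  (inferInstance : DD fun g => Nat.rec (motive := fun _ => ℕ) 0 (fun _ x => x + a g) (b g)).congr
    fun g => by induction b g with
      | zero => rfl
      | succ n ih => exact congrArg (· + a g) ih

instance dd_pow : DD fun g => a g ^ b g :=
  (inferInstance : DD fun g => Nat.rec (motive := fun _ => ℕ) 1 (fun _ x => x * a g) (b g)).congr
    fun g => by induction b g with
      | zero => rfl
      | succ n ih => exact congrArg (· * a g) ih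

instance dd_pair' : DD fun g => Nat.pair (a g) (b g) := by
  unfold Nat.pair; infer_instance

instance dd_unpair : DD fun g => Nat.unpair (a g) :=
  DD.of_spec (fun g (t : ℕ × ℕ) => Nat.pair t.1 t.2 = a g) fun g t =>
    ⟨fun h => by rw [← h, Nat.unpair_pair], fun h => by rw [h, Nat.pair_unpair]⟩

instance dp_freq (P : Γ → ℕ → Prop) [DP fun p : Cx fun _ : Γ => ℕ => P p.1 p.2] :
    DP fun g => ∃ᶠ n in atTop, P g n :=
  (inferInstance : DP fun g => ∀ a, ∃ b, a ≤ b ∧ P g b).congr fun _ => frequently_atTop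

instance dp_ev (P : Γ → ℕ → Prop) [DP fun p : Cx fun _ : Γ => ℕ => P p.1 p.2] :
    DP fun g => ∀ᶠ n in atTop, P g n :=
  (inferInstance : DP fun g => ∃ a, ∀ b, a ≤ b → P g b).congr fun _ => eventually_atTop

end nat

/-! ### lists -/

section list
variable {X Y : Type} [MT X] [MT Y]

theorem dd_getq0 (l : List X) : DD fun i : ℕ => l[i]? := by
  induction l with
  | nil => exact (inferInstance : DD fun _ : ℕ => (none : Option X)).congr fun _ => by simp
  | cons a l ih =>
    exact (inferInstance : DD fun i : ℕ => if i = 0 then some a else (fun i : ℕ => l[i]?) (i - 1)).congr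
      fun i => by cases i <;> simp

/-- a list as a function -/
def lf (l : List X) : Fn ℕ (Option X) := ⟨fun i => l[i]?, dd_getq0 l⟩

theorem lf_range (f : Fn ℕ (Option X)) :
    (∃ l, lf l = f) ↔ ∃ n, ∀ i, f i = none ↔ n ≤ i := by
  refine ⟨fun ⟨l, e⟩ => ⟨l.length, fun i => e ▸ List.getElem?_eq_none_iff⟩, fun ⟨n, h⟩ => ?_⟩
  have : ∀ i : Fin n, ∃ a, f i = some a := fun i =>
    Option.ne_none_iff_exists'.1 fun k => absurd ((h i).1 k) (by omega)
  choose v hv using this
  refine ⟨List.ofFn v, Fn.ext fun i => ?_⟩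
  show (List.ofFn v)[i]? = f i
  rw [List.getElem?_ofFn]
  split_ifs with k
  · exact (hv ⟨i, k⟩).symm
  · exact ((h i).2 (by omega)).symm

instance mtList : MT (List X) :=
  MT.ofInj lf (fun _ _ h => List.ext_getElem? fun i => Fn.congr h i)
    (k := (inferInstance : DP fun f : Fn ℕ (Option X) => ∃ n, ∀ i, f i = none ↔ n ≤ i).congr
      lf_range)

variable {Γ : Type} [MC Γ]

instance dd_lf (l : Γ → List X) [h : DD l] : DD fun g => lf (l g) := h.of_enc fun _ => rfl

theorem dd_list (l : Γ → List X) (F : Γ → ℕ → Option X) [∀ g, DD (F g)]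
    [DD fun p : Cx fun _ : Γ => ℕ => F p.1 p.2] (e : ∀ g i, (l g)[i]? = F g i) : DD l :=
  (inferInstance : DD fun g => lm (F g)).of_enc fun g =>
    congrArg enc (Fn.ext fun i => (e g i).symm : lm (F g) = lf (l g))

instance dd_getq (l : Γ → List X) (i : Γ → ℕ) [DD l] [DD i] : DD fun g => (l g)[i g]? :=
  (inferInstance : DD fun g => lf (l g) (i g))

instance dd_length (l : Γ → List X) [DD l] : DD fun g => (l g).length :=
  DD.of_spec (fun g t => ∀ i, (l g)[i]? = none ↔ t ≤ i) fun g t => by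
    simp only [List.getElem?_eq_none_iff]
    exact ⟨fun h => le_antisymm ((h _).1 le_rfl) ((h _).2 le_rfl), fun h => by simp [h]⟩

instance dd_cons (a : Γ → X) (l : Γ → List X) [DD a] [DD l] : DD fun g => a g :: l g :=
  dd_list _ (fun g i => if i = 0 then some (a g) else (l g)[i - 1]?) fun g i => by
    cases i <;> simp

instance dd_append (l l' : Γ → List X) [DD l] [DD l'] : DD fun g => l g ++ l' g :=
  dd_list _ (fun g i => if i < (l g).length then (l g)[i]? else (l' g)[i - (l g).length]?)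
    fun _ _ => List.getElem?_append

instance dd_map (f : Γ → X → Y) (l : Γ → List X) [DD l] [∀ g, DD (f g)]
    [DD fun p : Cx fun _ : Γ => X => f p.1 p.2] : DD fun g => (l g).map (f g) :=
  dd_list _ (fun g i => ((l g)[i]?).map (f g)) fun _ _ => List.getElem?_map

instance dd_tail (l : Γ → List X) [DD l] : DD fun g => (l g).tail :=
  dd_list _ (fun g i => (l g)[i + 1]?) fun _ _ => List.getElem?_tail

instance dd_drop (l : Γ → List X) (n : Γ → ℕ) [DD l] [DD n] : DD fun g => (l g).drop (n g) :=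
  dd_list _ (fun g i => (l g)[n g + i]?) fun _ _ => List.getElem?_drop

instance dd_take (l : Γ → List X) (n : Γ → ℕ) [DD l] [DD n] : DD fun g => (l g).take (n g) :=
  dd_list _ (fun g i => if i < n g then (l g)[i]? else none) fun _ _ => List.getElem?_take

instance dd_range (n : Γ → ℕ) [DD n] : DD fun g => List.range (n g) :=
  dd_list _ (fun g i => if i < n g then some i else none) fun g i => by
    split_ifs with h
    · exact List.getElem?_range h
    · simpa using h

instance dd_lgetD (l : Γ → List X) (i : Γ → ℕ) (d : Γ → X) [DD l] [DD i] [DD d] :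
    DD fun g => (l g).getD (i g) (d g) :=
  (inferInstance : DD fun g => ((l g)[i g]?).getD (d g))

instance dp_lmem (a : Γ → X) (l : Γ → List X) [DD a] [DD l] : DP fun g => a g ∈ l g :=
  (inferInstance : DP fun g => ∃ i : ℕ, (l g)[i]? = some (a g)).congr fun _ =>
    List.mem_iff_getElem?

instance dp_lnmem (a : Γ → X) (l : Γ → List X) [DD a] [DD l] : DP fun g => a g ∉ l g := dp_not _

instance dp_nodup (l : Γ → List X) [DD l] : DP fun g => (l g).Nodup :=
  (inferInstance : DP fun g => ∀ i j : ℕ, i < j → j < (l g).length → (l g)[i]? ≠ (l g)[j]?).congr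
    fun _ => List.nodup_iff_getElem?_ne_getElem?

instance dd_listRec (z : Γ → Y) (s : Γ → X → List X → Y → Y) (l : Γ → List X) [DD z] [DD l]
    [hs : DD fun p : Cx fun _ : (Cx fun _ : (Cx fun _ : Γ => X) => List X) => Y =>
      s p.1.1.1 p.1.1.2 p.1.2 p.2] :
    DD fun g => List.rec (motive := fun _ => Y) (z g) (s g) (l g) := by
  have : DD fun p : Cx fun _ : (Cx fun _ : (Cx fun _ : Γ => ℕ) => Y) => X =>
      s p.1.1.1 p.2 ((l p.1.1.1).drop ((l p.1.1.1).length - p.1.1.2)) p.1.2 :=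
    hs.comp fun p : Cx fun _ : (Cx fun _ : (Cx fun _ : Γ => ℕ) => Y) => X =>
      ⟨⟨⟨p.1.1.1, p.2⟩, (l p.1.1.1).drop ((l p.1.1.1).length - p.1.1.2)⟩, p.1.2⟩
  refine (inferInstance : DD fun g => Nat.rec (motive := fun _ => Y) (z g) (fun k y =>
    ((l g)[(l g).length - (k + 1)]?).elim y fun a =>
      s g a ((l g).drop ((l g).length - k)) y) (l g).length).congr fun g => ?_
  have key : ∀ k ≤ (l g).length, List.rec (motive := fun _ => Y) (z g) (s g)
      ((l g).drop ((l g).length - k)) = Nat.rec (motive := fun _ => Y) (z g) (fun k y =>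
      ((l g)[(l g).length - (k + 1)]?).elim y fun a =>
        s g a ((l g).drop ((l g).length - k)) y) k := fun k hk => by
    induction k with
    | zero => simp
    | succ k ih =>
      have h1 : (l g).length - (k + 1) < (l g).length := by omega
      rw [List.drop_eq_getElem_cons h1, show (l g).length - (k + 1) + 1 = (l g).length - k by omega]
      simp only [List.getElem?_eq_getElem h1, Option.elim_some, ih (by omega)]
  simpa using key _ le_rfl

instance dd_foldr (f : Γ → X → Y → Y) (z : Γ → Y) (l : Γ → List X) [DD z] [DD l]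
    [hs : DD fun p : Cx fun _ : (Cx fun _ : Γ => X) => Y => f p.1.1 p.1.2 p.2] :
    DD fun g => (l g).foldr (f g) (z g) := by
  have : DD fun p : Cx fun _ : (Cx fun _ : (Cx fun _ : Γ => X) => List X) => Y =>
      f p.1.1.1 p.1.1.2 p.2 :=
    hs.comp fun p : Cx fun _ : (Cx fun _ : (Cx fun _ : Γ => X) => List X) => Y => ⟨p.1.1, p.2⟩
  refine (dd_listRec z (fun g a _ y => f g a y) l).congr fun g => ?_
  induction l g with
  | nil => rfl
  | cons a l ih => exact congrArg (f g a) ih

end list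

/-! ### countable sets, maximal sets, dependent choice -/

section cnt
variable {X Y : Type} [MT X] [MT Y]

/-- countable in the model -/
def Cnt (I : X → Prop) : Prop := ∃ f : Fn X ℕ, ∀ a b, I a → I b → f a = f b → a = b

instance dp_cnt {Γ : Type} [MC Γ] (I : Γ → X → Prop)
    [DP fun p : Cx fun _ : Γ => X => I p.1 p.2] : DP fun g => Cnt (I g) := by
  unfold Cnt; infer_instance

theorem Cnt.mono {I J : X → Prop} (h : Cnt J) (e : ∀ a, I a → J a) : Cnt I :=
  h.imp fun _ h a b ha hb => h a b (e a ha) (e b hb)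

theorem Cnt.enum [Nonempty X] {I : X → Prop} [DP I] (h : Cnt I) :
    ∃ e : Fn ℕ X, ∀ a, I a → ∃ n, e n = a := by
  obtain ⟨f, hf⟩ := h
  obtain ⟨e, he⟩ := chsH (P := fun n => ∃ a, I a ∧ f a = n) (R := fun n a => I a ∧ f a = n)
    fun _ h => h
  exact ⟨e, fun a ha => ⟨f a, hf _ _ (he _ ⟨a, ha, rfl⟩).1 ha (he _ ⟨a, ha, rfl⟩).2⟩⟩

theorem cnt_of_enum {I : X → Prop} [DP I] (e : ℕ → X) [DD e] (h : ∀ a, I a → ∃ n, e n = a) :
    Cnt I := by
  obtain ⟨f, hf⟩ := chsH (P := I) (R := fun a n => e n = a) h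
  exact ⟨f, fun a b ha hb k => by rw [← hf a ha, k, hf b hb]⟩

theorem cnt_of_surj {I : X → Prop} {J : Y → Prop} [DP I] [DP J] (h : Cnt J) (e : Y → X) [DD e]
    (k : ∀ a, I a → ∃ b, J b ∧ e b = a) : Cnt I := by
  obtain ⟨f, hf⟩ := h
  obtain ⟨g, hg⟩ := chsH (P := I) (R := fun a n => ∃ b, J b ∧ e b = a ∧ f b = n) fun a ha =>
    let ⟨b, h1, h2⟩ := k a ha; ⟨_, b, h1, h2, rfl⟩
  refine ⟨g, fun a b ha hb k => ?_⟩
  obtain ⟨x, h1, h2, h3⟩ := hg a ha
  obtain ⟨y, h4, h5, h6⟩ := hg b hb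
  rw [← h2, ← h5, hf x y h1 h4 (h3.trans (k.trans h6.symm))]

theorem Cnt.list {I : X → Prop} (h : Cnt I) : Cnt fun l : List X => ∀ a ∈ l, I a := by
  obtain ⟨f, hf⟩ := h
  refine ⟨lm fun l => l.foldr (fun a n => Nat.pair (f a) n + 1) 0, fun a => ?_⟩
  induction a with
  | nil => rintro (_ | ⟨b, l⟩) _ _ e <;> simp at e ⊢
  | cons a l ih =>
    rintro (_ | ⟨b, l'⟩) h1 h2 e
    · simp at e
    · simp only [lm_apply, List.foldr_cons, add_left_inj, Nat.pair_eq_pair] at e
      rw [hf a b (h1 a (by simp)) (h2 b (by simp)) e.1,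
        ih l' (fun x hx => h1 x (by simp [hx])) (fun x hx => h2 x (by simp [hx])) e.2]

theorem Cnt.prod {I : X → Prop} {J : Y → Prop} (h : Cnt I) (h' : Cnt J) :
    Cnt fun p : X × Y => I p.1 ∧ J p.2 := by
  obtain ⟨f, hf⟩ := h
  obtain ⟨g, hg⟩ := h'
  refine ⟨lm fun p => Nat.pair (f p.1) (g p.2), fun a b ha hb e => ?_⟩
  simp only [lm_apply, Nat.pair_eq_pair] at e
  exact Prod.ext (hf _ _ ha.1 hb.1 e.1) (hg _ _ ha.2 hb.2 e.2)

theorem cnt_nat : Cnt fun _ : ℕ => True := ⟨Fn.id, fun _ _ _ _ h => h⟩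

theorem cnt_bool : Cnt fun _ : Bool => True :=
  ⟨lm fun b => b.toNat, fun a b _ _ h => by cases a <;> cases b <;> simp_all⟩

/-- a maximal set for a property of finite character -/
theorem exists_max (Φ : List X → Prop) [DP Φ] (I0 : X → Prop) [DP I0]
    (h0 : ∀ l, (∀ a ∈ l, I0 a) → Φ l) : ∃ I : PS X, (∀ a, I0 a → a ∈ I) ∧
      (∀ l, (∀ a ∈ l, a ∈ I) → Φ l) ∧ ∀ c, (∀ l, (∀ a ∈ l, a = c ∨ a ∈ I) → Φ l) → c ∈ I := by
  classical
  obtain ⟨_, _⟩ := exists_wo X
  obtain ⟨f, hf⟩ := rec_fn (X := X) (Y := Prop)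
    (fun t f => ∀ l, (∀ a ∈ l, a = t ∨ I0 a ∨ (a < t ∧ f a)) → Φ l) fun t f g e =>
      propext (forall_congr' fun l => imp_congr_left (forall₂_congr fun a _ =>
        or_congr_right (or_congr_right (and_congr_right fun k => by rw [e a k]))))
  refine ⟨sb fun a => I0 a ∨ f a, fun a => Or.inl, fun l hl => ?_, fun c hc => Or.inr ?_⟩
  · by_cases k : ∀ a ∈ l, I0 a
    · exact h0 l k
    · obtain ⟨t, h1, h2⟩ := Set.exists_max_image {a | a ∈ l ∧ ¬ I0 a} id
        (l.finite_toSet.subset fun _ h => h.1) (by simpa [Set.Nonempty] using k)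
      have h3 : f t := (hl t h1.1).resolve_left h1.2
      rw [hf] at h3
      refine h3 l fun a ha => ?_
      by_cases k : I0 a
      · exact Or.inr (Or.inl k)
      · exact (h2 a ⟨ha, k⟩).eq_or_lt.imp_right fun e => Or.inr ⟨e, (hl a ha).resolve_left k⟩
  · rw [hf]
    exact fun l hl => hc l fun a ha => (hl a ha).imp_right fun k => k.imp_right And.right

/-- dependent choice -/
theorem exists_seq (R : ℕ → X → X → Prop) [DP3 R] (Q : ℕ → X → Prop) [DP2 Q] (x0 : X)
    (h0 : Q 0 x0) (h : ∀ n x, Q n x → ∃ y, Q (n + 1) y ∧ R n x y) :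
    ∃ f : Fn ℕ X, f 0 = x0 ∧ ∀ n, Q n (f n) ∧ R n (f n) (f (n + 1)) := by
  have : Nonempty X := ⟨x0⟩
  obtain ⟨g, hg⟩ := chsH (P := fun p : ℕ × X => Q p.1 p.2)
    (R := fun p y => Q (p.1 + 1) y ∧ R p.1 p.2 y) fun p hp => h p.1 p.2 hp
  let f : Fn ℕ X := lm fun n => Nat.rec (motive := fun _ => X) x0 (fun k x => g (k, x)) n
  have h1 : ∀ n, Q n (f n) := fun n => by
    induction n with
    | zero => exact h0
    | succ n ih => exact (hg (n, f n) ih).1
  exact ⟨f, rfl, fun n => ⟨h1 n, (hg (n, f n) (h1 n)).2⟩⟩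

end cnt

end Pool.Agent.P.MP_0d6be8_lc.NKW
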