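import Pool.Agent.P.MP_0d6be8_lc.NKW.TW

set_option autoImplicit false
set_option linter.unusedSectionVars false
set_option synthInstance.maxSize 4000

/-! Almost inclusion, ultrafilters on the numbers, reaping families, accumulation of pairs. -/

noncomputable section

open Pool.Agent.P.MP_af1204_lc.Inn Filter

namespace Pool.Agent.P.MP_0d6be8_lc.NKW

variable [Md] [Std]

/-- infinite set of numbers -/
def In (Y : PS ℕ) : Prop := ∃ᶠ i in atTop, i ∈ Y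

/-- almost inclusion -/
def Sb (Y Z : PS ℕ) : Prop := ∀ᶠ i in atTop, i ∈ Y → i ∈ Z

/-- almost inside or almost outside -/
def Dc (Y e : PS ℕ) : Prop := Sb Y e ∨ Sb Y eᶜ

section
variable {Γ : Type} [MC Γ] (Y Z : Γ → PS ℕ) [DD Y] [DD Z]

instance dp_In : DP fun g => In (Y g) := by unfold In; infer_instance

instance dp_Sb : DP fun g => Sb (Y g) (Z g) := by unfold Sb; infer_instance

instance dp_Dc : DP fun g => Dc (Y g) (Z g) := by unfold Dc; infer_instance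

end

section
variable {Y Z W : PS ℕ}

theorem Sb.of_sub (h : ∀ i, i ∈ Y → i ∈ Z) : Sb Y Z := Eventually.of_forall h

theorem Sb.rfl : Sb Y Y := Sb.of_sub fun _ h => h

theorem Sb.trans (h : Sb Y Z) (h' : Sb Z W) : Sb Y W := by
  filter_upwards [h, h'] with i h1 h2 h3 using h2 (h1 h3)

theorem Sb.inter (h : Sb Y Z) (h' : Sb Y W) : Sb Y (Z ∩ W) := by
  filter_upwards [h, h'] with i h1 h2 h3 using ⟨h1 h3, h2 h3⟩

theorem In.mono (h : In Y) (h' : Sb Y Z) : In Z :=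
  (h.and_eventually h').mono fun _ k => k.2 k.1

theorem In.not_both (h : In Y) (h1 : Sb Y Z) (h2 : Sb Y Zᶜ) : False := by
  obtain ⟨i, k⟩ := (h.mono (h1.inter h2)).exists
  exact k.2 k.1

theorem In.split (h : In Y) (e : PS ℕ) : In (Y ∩ e) ∨ In (Y ∩ eᶜ) :=
  frequently_or_distrib.1 (Frequently.mono h fun i k => by
    by_cases c : i ∈ e
    exacts [Or.inl ⟨k, c⟩, Or.inr ⟨k, c⟩])

theorem In.ex_dc (h : In Y) (e : PS ℕ) : ∃ Z, In Z ∧ Sb Z Y ∧ Dc Z e := by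
  rcases h.split e with k | k
  · exact ⟨_, k, Sb.of_sub fun _ h => h.1, Or.inl (Sb.of_sub fun _ h => h.2)⟩
  · exact ⟨_, k, Sb.of_sub fun _ h => h.1, Or.inr (Sb.of_sub fun _ h => h.2)⟩

theorem Dc.mono {e : PS ℕ} (h : Dc Z e) (h' : Sb Y Z) : Dc Y e := h.imp h'.trans h'.trans

theorem in_univ : In univ := Frequently.of_forall fun _ => trivial

theorem In.seq (h : In Y) : ∃ m : Fn ℕ ℕ, ∀ n, n ≤ m n ∧ m n ∈ Y :=
  chs (R := fun n m => n ≤ m ∧ m ∈ Y) (frequently_atTop.1 h)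

theorem In.seq2 (h : In Y) :
    ∃ m m' : Fn ℕ ℕ, ∀ n, n ≤ m n ∧ m n < m' n ∧ m n ∈ Y ∧ m' n ∈ Y := by
  obtain ⟨m, hm⟩ := h.seq
  exact ⟨m, lm fun n => m (m n + 1), fun n => ⟨(hm n).1, (hm _).1, (hm n).2, (hm _).2⟩⟩

theorem freq_of_seq {p : ℕ → Prop} {m : ℕ → ℕ} (hm : ∀ n, n ≤ m n)
    (h : ∃ᶠ n in atTop, p (m n)) : ∃ᶠ n in atTop, p n :=
  (tendsto_atTop_mono hm tendsto_id).frequently h

end

/-- an ultrafilter of infinite sets through a given infinite set -/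
theorem exists_ult {J : PS ℕ} (hJ : In J) : ∃ u : PS (PS ℕ), J ∈ u ∧ (∀ Y ∈ u, In Y) ∧
    (∀ Y Z, Y ∩ Z ∈ u ↔ Y ∈ u ∧ Z ∈ u) ∧ ∀ Y, Yᶜ ∈ u ↔ Y ∉ u := by
  obtain ⟨u, h1, h2, h3⟩ := exists_max (fun l : List (PS ℕ) => ∃ᶠ i in atTop, ∀ Y ∈ l, i ∈ Y)
    (fun Y => Y = J) fun l hl => Frequently.mono hJ fun i k Y hY => hl Y hY ▸ k
  have key : ∀ c, (∀ l : List (PS ℕ), (∀ a ∈ l, a ∈ u) →
      ∃ᶠ i in atTop, i ∈ c ∧ ∀ Y ∈ l, i ∈ Y) → c ∈ u := fun c hc => by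
    classical
    refine h3 c fun l hl => (hc (l.filter (· ∈ u)) (by simp)).mono fun i k Y hY => ?_
    by_cases e : Y ∈ u
    · exact k.2 Y (by simp [hY, e])
    · exact (hl Y hY).resolve_right e ▸ k.1
  have up : ∀ Y Z, Y ∈ u → (∀ i, i ∈ Y → i ∈ Z) → Z ∈ u := fun Y Z hY e =>
    key Z fun l hl => (h2 (Y :: l) (by simpa [hY] using hl)).mono fun i k =>
      ⟨e i (k Y (by simp)), fun W hW => k W (by simp [hW])⟩
  refine ⟨u, h1 J rfl, fun Y hY => (h2 [Y] (by simpa)).mono fun i k => k Y (by simp),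
    fun Y Z => ⟨fun h => ⟨up _ _ h fun _ k => k.1, up _ _ h fun _ k => k.2⟩, fun h => ?_⟩,
    fun Y => ⟨fun h h' => ?_, fun h => ?_⟩⟩
  · exact key _ fun l hl => (h2 (Y :: Z :: l) (by simpa [h.1, h.2] using hl)).mono fun i k =>
      ⟨⟨k Y (by simp), k Z (by simp)⟩, fun W hW => k W (by simp [hW])⟩
  · obtain ⟨i, k⟩ := (h2 [Y, Yᶜ] (by simp [h, h'])).exists
    exact k Yᶜ (by simp) (k Y (by simp))
  · refine key _ fun l hl => ?_
    by_contra hc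
    refine h (key _ fun l' hl' => ((h2 (l ++ l') fun a ha => (List.mem_append.1 ha).elim (hl a)
      (hl' a)).and_eventually (not_frequently.1 hc)).mono fun i k => ⟨?_, fun W hW =>
        k.1 W (List.mem_append_right _ hW)⟩)
    by_contra c
    exact k.2 ⟨c, fun W hW => k.1 W (List.mem_append_left _ hW)⟩

/-- an algebra with its points -/
structure Sp (A P : Type) [MT A] [MT P] where
  /-- meet -/
  inf : A → A → A
  /-- complement -/
  cpl : A → A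
  /-- membership of an element in a point -/
  el : P → A → Prop
  d_inf : DD2 (B := fun _ => A) inf
  d_cpl : DD cpl
  d_el : DP2 (B := fun _ => A) el
  el_inf : ∀ p a b, el p (inf a b) ↔ el p a ∧ el p b
  el_cpl : ∀ p a, el p (cpl a) ↔ ¬ el p a
  ext : ∀ p q, (∀ a, el p a ↔ el q a) → p = q
  full : ∀ q : PS A, (∀ a b, inf a b ∈ q ↔ a ∈ q ∧ b ∈ q) → (∀ a, cpl a ∈ q ↔ a ∉ q) →
    ∃ p, ∀ a, el p a ↔ a ∈ q

attribute [instance] Sp.d_inf Sp.d_cpl Sp.d_el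

variable {A P : Type} [MT A] [MT P] (S : Sp A P)

namespace Sp

/-- independent family -/
def Ind (I : PS A) : Prop :=
  ∀ l : List A, (∀ a ∈ l, a ∈ I) → ∀ σ : A → Prop, ∃ p, ∀ a ∈ l, (S.el p a ↔ σ a)

/-- two-point Nikodym property -/
def P2 : Prop := ∀ y z : Fn ℕ P, (∀ n, y n ≠ z n) →
  ∃ a, ∃ᶠ n in atTop, S.el (y n) a ∧ ¬ S.el (z n) a

/-- no uncountable independent family -/
def Tame : Prop := ∀ I : PS A, S.Ind I → Cnt (· ∈ I)

/-- the trace of an element on a sequence of points -/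
def tr (p : Fn ℕ P) (c : A) : PS ℕ := sb fun i => S.el (p i) c

instance dd_tr {Γ : Type} [MC Γ] (p : Γ → Fn ℕ P) (c : Γ → A) [DD p] [DD c] :
    DD fun g => S.tr (p g) (c g) := by unfold tr; infer_instance

variable {S}

theorem tr_cpl (p : Fn ℕ P) (c : A) : S.tr p (S.cpl c) = (S.tr p c)ᶜ := PS.ext fun _ => S.el_cpl _ _

theorem tr_inf (p : Fn ℕ P) (c d : A) : S.tr p (S.inf c d) = S.tr p c ∩ S.tr p d :=
  PS.ext fun _ => S.el_inf _ _ _

theorem reap (hT : S.Tame) (p : Fn ℕ P) {L : PS ℕ} (hL : In L) :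
    ∃ Z : Fn ℕ (PS ℕ), (∀ k, In (Z k) ∧ Sb (Z k) L) ∧ ∀ c, ∃ k, Dc (Z k) (S.tr p c) := by
  classical
  obtain ⟨I, -, h2, h3⟩ := exists_max (fun l : List A => ∀ l' : List A,
      ∃ᶠ i in atTop, i ∈ L ∧ ∀ a ∈ l, (S.el (p i) a ↔ a ∈ l')) (fun _ => False)
    fun l hl l' => Frequently.mono hL fun i k => ⟨k, fun a ha => (hl a ha).elim⟩
  have h4 : Cnt (· ∈ I) := hT I fun l hl σ => by
    obtain ⟨i, k⟩ := (h2 l hl (l.filter σ)).exists
    exact ⟨p i, fun a ha => (k.2 a ha).trans (by simp [ha])⟩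
  obtain ⟨e, he⟩ := (h4.list.prod h4.list).enum
  let Z : Fn ℕ (PS ℕ) := lm fun k => sb fun i => i ∈ L ∧
    ((∀ a ∈ (e k).1, a ∈ I) → ∀ a ∈ (e k).1, (S.el (p i) a ↔ a ∈ (e k).2))
  refine ⟨Z, fun k => ⟨?_, Sb.of_sub fun _ h => h.1⟩, fun c => ?_⟩
  · by_cases h : ∀ a ∈ (e k).1, a ∈ I
    · exact (h2 _ h (e k).2).mono fun i k => ⟨k.1, fun _ => k.2⟩
    · exact Frequently.mono hL fun i k => ⟨k, fun k' => (h k').elim⟩
  · by_cases hc : c ∈ I
    · obtain ⟨k, hk⟩ := he ([c], [c]) (by simpa)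
      refine ⟨k, Or.inl (Sb.of_sub fun i h => ?_)⟩
      have := h.2
      rw [hk] at this
      simpa [hc, tr] using this
    · obtain ⟨l, h5, h6⟩ : ∃ l : List A, (∀ a ∈ l, a = c ∨ a ∈ I) ∧ ∃ l' : List A,
          ∀ᶠ i in atTop, ¬ (i ∈ L ∧ ∀ a ∈ l, (S.el (p i) a ↔ a ∈ l')) := by
        by_contra k
        refine hc (h3 c fun l hl l' => ?_)
        by_contra k'
        exact k ⟨l, hl, l', not_frequently.1 k'⟩
      obtain ⟨l', h6⟩ := h6
      obtain ⟨k, hk⟩ := he (l.filter (· ∈ I), l'.filter (· ∈ I)) (by simp)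
      have h7 : ∀ᶠ i in atTop, i ∈ Z k → ¬ (S.el (p i) c ↔ c ∈ l') := h6.mono fun i h8 h9 h10 => by
        have := h9.2
        rw [hk] at this
        refine h8 ⟨h9.1, fun a ha => ?_⟩
        by_cases k : a ∈ I
        · simpa [k] using this (by simp) a (by simp [ha, k])
        · exact (h5 a ha).resolve_right k ▸ h10
      refine ⟨k, ?_⟩
      by_cases k : c ∈ l'
      · exact Or.inr (h7.mono fun i h h' h'' => h h' (iff_of_true h'' k))
      · exact Or.inl (h7.mono fun i h h' => not_not.1 fun h'' => h h' (iff_of_false h'' k))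

theorem P2.on (h : S.P2) (y z : Fn ℕ P) (hne : ∀ n, y n ≠ z n) {J : PS ℕ} (hJ : In J) :
    ∃ a, ∃ᶠ n in atTop, n ∈ J ∧ S.el (y n) a ∧ ¬ S.el (z n) a := by
  obtain ⟨m, hm⟩ := hJ.seq
  obtain ⟨a, ha⟩ := h (y.comp m) (z.comp m) fun n => hne _
  exact ⟨a, freq_of_seq (fun n => (hm n).1) (ha.mono fun n k => ⟨(hm n).2, k⟩)⟩

theorem exists_lim (u : PS (PS ℕ)) (h1 : ∀ Y Z, Y ∩ Z ∈ u ↔ Y ∈ u ∧ Z ∈ u)
    (h2 : ∀ Y, Yᶜ ∈ u ↔ Y ∉ u) (y : Fn ℕ P) : ∃ p, ∀ a, S.el p a ↔ S.tr y a ∈ u :=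
  S.full (sb fun a => S.tr y a ∈ u) (fun a b => by simp [tr_inf, h1]) fun a => by simp [tr_cpl, h2]

theorem P2.acc (h : S.P2) (y z : Fn ℕ P) (hne : ∀ n, y n ≠ z n) {J : PS ℕ} (hJ : In J) :
    ∃ p q, p ≠ q ∧ ∀ a, S.el p a → ¬ S.el q a →
      ∃ᶠ n in atTop, n ∈ J ∧ S.el (y n) a ∧ ¬ S.el (z n) a := by
  obtain ⟨c, hc⟩ := h.on y z hne hJ
  obtain ⟨u, h0, h1, h2, h3⟩ := exists_ult (J := J ∩ (S.tr y c ∩ (S.tr z c)ᶜ)) hc
  obtain ⟨p, hp⟩ := exists_lim (S := S) u h2 h3 y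
  obtain ⟨q, hq⟩ := exists_lim (S := S) u h2 h3 z
  rw [h2, h2, h3, ← hp, ← hq] at h0
  refine ⟨p, q, fun e => h0.2.2 (e ▸ h0.2.1), fun a k1 k2 =>
    h1 (J ∩ (S.tr y a ∩ (S.tr z a)ᶜ)) ?_⟩
  rw [h2, h2, h3, ← hp, ← hq]
  exact ⟨h0.1, k1, k2⟩

theorem sep {p q : P} (h : p ≠ q) : ∃ a, S.el p a ∧ ¬ S.el q a := by
  by_contra k
  push Not at k
  refine h (S.ext p q fun a => ⟨k a, fun k' => not_not.1 fun k'' => ?_⟩)
  exact (S.el_cpl _ _).1 (k _ ((S.el_cpl _ _).2 k'')) k'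

/-- a tree of disjoint elements with points -/
theorem P2.tree (h : S.P2) (y : Fn ℕ P) (hy : Function.Injective y) :
    ∃ (O : List ℕ → A) (z : Fn (List ℕ) P), (∀ s, S.el (z s) (O s)) ∧
      (∀ s i p, S.el p (O (i :: s)) → S.el p (O s)) ∧
      ∀ s i j p, S.el p (O (i :: s)) → S.el p (O (j :: s)) → i = j := by
  have h1 : ∀ a, In (S.tr y a) → ∃ c, In (S.tr y (S.inf a c)) ∧
      In (S.tr y (S.inf a (S.cpl c))) := fun a ha => by
    obtain ⟨m, m', hm⟩ := ha.seq2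
    obtain ⟨c, hc⟩ := h (y.comp m) (y.comp m') fun n e => (hm n).2.1.ne (hy e)
    exact ⟨c, freq_of_seq (fun n => (hm n).1) (hc.mono fun n k => (S.el_inf _ _ _).2
      ⟨(hm n).2.2.1, k.1⟩), freq_of_seq (m := m') (fun n => (hm n).1.trans (hm n).2.1.le)
      (hc.mono fun n k => (S.el_inf _ _ _).2 ⟨(hm n).2.2.2, (S.el_cpl _ _).2 k.2⟩)⟩
  obtain ⟨a0, h0⟩ : ∃ a, In (S.tr y a) := by
    obtain ⟨a, ha⟩ := h y (lm fun n => y (n + 1)) fun n e => by have := hy e; omega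
    exact ⟨a, ha.mono fun n k => k.1⟩
  have : Nonempty A := ⟨a0⟩
  obtain ⟨sp, hsp⟩ := chsH h1
  let rest : A → ℕ → A := fun a i =>
    Nat.rec (motive := fun _ => A) a (fun _ r => S.inf r (S.cpl (sp r))) i
  have r1 : ∀ a i, In (S.tr y a) → In (S.tr y (rest a i)) := fun a i ha => by
    induction i with
    | zero => exact ha
    | succ i ih => exact (hsp _ ih).2
  have r2 : ∀ a p i j, i ≤ j → S.el p (rest a j) → S.el p (rest a i) := fun a p i j hij => by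
    induction j, hij using Nat.le_induction with
    | base => exact id
    | succ j _ ih => exact fun k => ih ((S.el_inf _ _ _).1 k).1
  let O : Fn (List ℕ) A := lm fun s => s.foldr (fun i a => S.inf
    (Nat.rec (motive := fun _ => A) a (fun _ r => S.inf r (S.cpl (sp r))) i)
    (sp (Nat.rec (motive := fun _ => A) a (fun _ r => S.inf r (S.cpl (sp r))) i))) a0
  have e : ∀ i s, O (i :: s) = S.inf (rest (O s) i) (sp (rest (O s) i)) := fun _ _ => rfl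
  have o1 : ∀ s, In (S.tr y (O s)) := fun s => by
    induction s with
    | nil => exact h0
    | cons i s ih => exact (hsp _ (r1 _ i ih)).1
  obtain ⟨z, hz⟩ := chs (R := fun s p => S.el p (O s)) fun s => ⟨_, (o1 s).exists.choose_spec⟩
  have o2 : ∀ s i j p, i < j → S.el p (O (i :: s)) → ¬ S.el p (O (j :: s)) := fun s i j p k h1 h2 =>
    (S.el_cpl _ _).1 ((S.el_inf _ _ _).1 (r2 _ p (i + 1) j k ((S.el_inf _ _ _).1 h2).1)).2
      ((S.el_inf _ _ _).1 h1).2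
  refine ⟨O, z, hz, fun s i p k => r2 _ p 0 i (by omega) ((S.el_inf _ _ _).1 k).1,
    fun s i j p h1 h2 => ?_⟩
  rcases lt_trichotomy i j with k | k | k
  exacts [(o2 s i j p k h1 h2).elim, k, (o2 s j i p k h2 h1).elim]

end Sp

end Pool.Agent.P.MP_0d6be8_lc.NKW
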