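import Pool.Agent.P.MP_0d6be8_lc.NKW.Core1

set_option autoImplicit false
set_option linter.unusedSectionVars false
set_option synthInstance.maxSize 4000

/-! The principles in typed form and their first consequences. -/

noncomputable section

open Pool.Agent.P.MP_af1204_lc.Inn Filter

namespace Pool.Agent.P.MP_0d6be8_lc.NKW

variable [Md] [Std] {K : Type} [MT K] [LinearOrder K] [WFL K]

/-- sequences below `g` are bounded below `g` -/
def BdB (g : K) : Prop := ∀ s : Fn ℕ K, (∀ n, s n < g) → ∃ b, b < g ∧ ∀ n, s n < b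

/-- the infinite sets listed before `g` -/
def W (X : Fn K (PS ℕ)) (g : K) (Y : PS ℕ) : Prop := In Y ∧ ∃ ξ, ξ < g ∧ X ξ = Y

/-- no infinite set listed before `g` is almost inside `V` and `e` -/
def No (X : Fn K (PS ℕ)) (g : K) (V e : PS ℕ) : Prop := ∀ Y, W X g Y → Sb Y V → ¬ Sb Y e

section
variable {Γ : Type} [MC Γ] (X : Fn K (PS ℕ)) (g : Γ → K) (Y : Γ → PS ℕ) [DD g] [DD Y]

instance dp_BdB : DP fun x => BdB (g x) := by unfold BdB; infer_instance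

instance dp_W : DP fun x => W X (g x) (Y x) := by unfold W; infer_instance

end

/-- the principles forced by the iteration -/
structure Pr (X : Fn K (PS ℕ)) : Prop where
  onto : ∀ Y, ∃ ξ, X ξ = Y
  bd : ∀ s : Fn ℕ K, ∃ b, ∀ n, s n < b
  reg : ∀ (g : K) (s : Fn K K), ∃ b, ∀ a, a < g → s a < b
  ps : ∀ (g : K) (B : Fn (K × ℕ) (PS ℕ)), (∀ b n, b < g → In (B (b, n))) →
    (∀ b n b' n', b < g → b' < g →
      ∃ c k, c < g ∧ Sb (B (c, k)) (B (b, n)) ∧ Sb (B (c, k)) (B (b', n'))) →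
    ∃ Y, In Y ∧ ∀ b n, b < g → Sb Y (B (b, n))
  pl : ∀ (U : Fn (K × K) (PS ℕ)) (Z : Fn ((K × K) × ℕ) (PS ℕ)) (F : Fn K K),
    (∀ j x y, y < x → Sb (U (j, x)) (U (j, y))) → (∀ j e, ∃ x, Dc (U (j, x)) e) →
    (∀ j x k, In (Z ((j, x), k)) ∧ Sb (Z ((j, x), k)) (U (j, x))) →
    ∃ g, (∃ a, a < g) ∧ (∀ a, a < g → F a < g) ∧ BdB g ∧
      ∀ j, j < g → ∀ e, (∀ x, ∃ k, Dc (Z ((j, x), k)) e) →
        ∃ d, d < g ∧ (No X g (U (j, d)) e ∨ No X g (U (j, d)) eᶜ)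

variable {X : Fn K (PS ℕ)}

theorem W.mono {g g' : K} {Y : PS ℕ} (h : W X g Y) (e : g ≤ g') : W X g' Y :=
  let ⟨h1, ξ, h2, h3⟩ := h; ⟨h1, ξ, h2.trans_le e, h3⟩

theorem BdB.exists_gt {g : K} (h : BdB g) {a b : K} (ha : a < g) (hb : b < g) :
    ∃ c, c < g ∧ a < c ∧ b < c := by
  obtain ⟨c, h1, h2⟩ := h (Fn.const ℕ (max a b)) fun _ => max_lt ha hb
  exact ⟨c, h1, max_lt_iff.1 (h2 0)⟩

theorem BdB.rel {g : K} (h : BdB g) {ι : Type} [MT ι] [Nonempty ι] (hι : Cnt fun _ : ι => True)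
    (R : ι → K → Prop) [DP2 (B := fun _ => K) R] (hR : ∀ i, ∃ d, d < g ∧ R i d) :
    ∃ b, b < g ∧ ∀ i, ∃ d, d < b ∧ R i d := by
  obtain ⟨e, he⟩ := hι.enum
  obtain ⟨d, hd⟩ := chs hR
  obtain ⟨b, h1, h2⟩ := h (d.comp e) fun n => (hd _).1
  refine ⟨b, h1, fun i => ?_⟩
  obtain ⟨n, rfl⟩ := he i trivial
  exact ⟨_, h2 n, (hd _).2⟩

namespace Pr

theorem ne (h : Pr X) : Nonempty K := ⟨(h.onto univ).choose⟩

theorem bd' (h : Pr X) {ι : Type} [MT ι] [Nonempty ι] (hι : Cnt fun _ : ι => True) (f : ι → K)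
    [DD f] : ∃ b, ∀ i, f i < b := by
  obtain ⟨e, he⟩ := hι.enum
  obtain ⟨b, hb⟩ := h.bd (lm fun n => f (e n))
  refine ⟨b, fun i => ?_⟩
  obtain ⟨n, rfl⟩ := he i trivial
  exact hb n

theorem cnt (h : Pr X) {I : K → Prop} [DP I] (hI : Cnt I) : ∃ b, ∀ a, I a → a < b := by
  have := h.ne
  obtain ⟨s, hs⟩ := hI.enum
  obtain ⟨b, hb⟩ := h.bd s
  refine ⟨b, fun a ha => ?_⟩
  obtain ⟨n, rfl⟩ := hs a ha
  exact hb n

theorem exists_gt (h : Pr X) (a : K) : ∃ b, a < b := (h.bd (Fn.const ℕ a)).imp fun _ k => k 0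

theorem reg2 (h : Pr X) {ι : Type} [MT ι] [Nonempty ι] (hι : Cnt fun _ : ι => True) (g : K)
    (f : K × ι → K) [DD f] : ∃ b, ∀ a i, a ≤ g → f (a, i) < b := by
  obtain ⟨u, hu⟩ := chs (R := fun a b => ∀ i, f (a, i) < b) fun a => h.bd' hι fun i => f (a, i)
  obtain ⟨c, hc⟩ := h.exists_gt g
  obtain ⟨b, hb⟩ := h.reg c u
  exact ⟨b, fun a i k => (hu a i).trans (hb a (k.trans_lt hc))⟩

theorem code (h : Pr X) : ∃ c : Fn (K × ℕ) K, Function.Injective c := by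
  have := h.ne
  obtain ⟨c, hc⟩ := exists_rec (T := Lex (K × ℕ)) (S := K) (fun t f s => ∀ q, q < t → f q < s)
    (fun t f g s e k q hq => e q hq ▸ k q hq) fun t f _ => by
      obtain ⟨b, hb⟩ := h.reg2 cnt_nat (ofLex t).1 fun p => f (toLex p)
      exact ⟨b, fun q hq => hb (ofLex q).1 (ofLex q).2 (Prod.Lex.monotone_fst _ _ hq.le)⟩
  exact ⟨lm fun p => c (toLex p), fun p q e =>
    toLex.injective (StrictMono.injective (fun a b k => hc b a k) e)⟩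

theorem pl' (h : Pr X) {T : Type} [MT T] [Nonempty T] (hT : Cnt fun _ : T => True)
    (U : Fn (T × K) (PS ℕ)) (Z : Fn ((T × K) × K × ℕ) (PS ℕ)) (F : Fn (K × K) K)
    (h1 : ∀ t x y, y < x → Sb (U (t, x)) (U (t, y))) (h2 : ∀ t e, ∃ x, Dc (U (t, x)) e)
    (h3 : ∀ t b x k, In (Z ((t, b), x, k)) ∧ Sb (Z ((t, b), x, k)) (U (t, x))) :
    ∃ g, (∃ a, a < g) ∧ (∀ a b, a < g → b < g → F (a, b) < g) ∧ BdB g ∧
      ∀ t b, b < g → ∀ e, (∀ x, ∃ k, Dc (Z ((t, b), x, k)) e) →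
        ∃ d, d < g ∧ (No X g (U (t, d)) e ∨ No X g (U (t, d)) eᶜ) := by
  have := h.ne
  obtain ⟨c, hc⟩ := h.code
  obtain ⟨i, hi⟩ := id hT
  obtain ⟨dec, hdec⟩ := exists_inv (f := fun p : T × K => c (p.2, i p.1)) fun p q e => by
    have := hc e
    exact Prod.ext (hi _ _ trivial trivial (congrArg Prod.snd this)) (congrArg Prod.fst this)
  have hF : ∀ a, ∃ d, (∀ n, c (a, n) < d) ∧ ∀ x y, x ≤ a → y ≤ a → F (x, y) < d := fun a => by
    obtain ⟨a', ha⟩ := h.exists_gt a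
    obtain ⟨u, hu⟩ := chs (R := fun x b => ∀ y, y < a' → F (x, y) < b)
      fun x => h.reg a' (lm fun y => F (x, y))
    obtain ⟨d1, hd1⟩ := h.reg a' u
    obtain ⟨d2, hd2⟩ := h.bd (lm fun n => c (a, n))
    exact ⟨max d1 d2, fun n => lt_max_of_lt_right (hd2 n), fun x y hx hy =>
      lt_max_of_lt_left ((hu x y (hy.trans_lt ha)).trans (hd1 x (hx.trans_lt ha)))⟩
  obtain ⟨F', hF'⟩ := chs hF
  obtain ⟨g, g1, g2, g3, g4⟩ := h.pl (lm fun p => U ((dec p.1).1, p.2))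
    (lm fun p => Z (dec p.1.1, p.1.2, p.2)) F' (fun j x y e => h1 _ x y e)
    (fun j e => h2 (dec j).1 e)
    fun j x k => h3 _ _ x k
  refine ⟨g, g1, fun a b ha hb => ((hF' (max a b)).2 a b (le_max_left _ _)
    (le_max_right _ _)).trans (g2 _ (max_lt ha hb)), g3, fun t b hb e he => ?_⟩
  have := g4 (c (b, i t)) (((hF' b).1 _).trans (g2 b hb)) e
  simp only [lm_apply, hdec (t, b)] at this
  exact this he

theorem tower (h : Pr X) (g : K) (B : K → PS ℕ) [DD B] (hB : ∀ b, b < g → In (B b))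
    (hc : ∀ b c, b < c → c < g → Sb (B c) (B b)) : ∃ Y, In Y ∧ ∀ b, b < g → Sb Y (B b) := by
  have key : ∀ b c, b ≤ c → c < g → Sb (B c) (B b) := fun b c e k =>
    e.eq_or_lt.elim (fun e => e ▸ Sb.rfl) fun e => hc b c e k
  obtain ⟨Y, h1, h2⟩ := h.ps g (lm fun p => B p.1) (fun b _ => hB b) fun b _ b' _ hb hb' =>
    ⟨max b b', 0, max_lt hb hb', key _ _ (le_max_left _ _) (max_lt hb hb'),
      key _ _ (le_max_right _ _) (max_lt hb hb')⟩
  exact ⟨Y, h1, fun b => h2 b 0⟩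

theorem ev_pair {p : ℕ → Prop} (h : ∀ᶠ m in atTop, p m) :
    ∀ᶠ k in atTop, (Nat.unpair k).2 ≤ (Nat.unpair k).1 → p (Nat.unpair k).1 := by
  obtain ⟨n, hn⟩ := eventually_atTop.1 h
  refine eventually_atTop.2 ⟨n ^ 2, fun k hk e => hn _ ?_⟩
  have := Nat.pair_lt_max_add_one_sq (Nat.unpair k).1 (Nat.unpair k).2
  rw [Nat.pair_unpair, max_eq_left e] at this
  have := lt_of_pow_lt_pow_left₀ 2 (Nat.zero_le _) (hk.trans_lt this)
  omega

theorem heights (h : Pr X) (g : K) (M : K → PS ℕ) [DD M] (η : K → Fn ℕ ℕ) [DD η]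
    (h1 : ∀ b, b < g → In (M b))
    (h2 : ∀ b c, b < c → c < g → ∀ᶠ m in atTop, m ∈ M c → m ∈ M b ∧ η b m < η c m)
    (h4 : ∀ b, b < g → ∀ n, ∀ᶠ m in atTop, m ∈ M b → η b m + n ≤ m) :
    ∃ (N : PS ℕ) (e : Fn ℕ ℕ), In N ∧ (∀ m, e m ≤ m) ∧
      (∀ b, b < g → ∀ᶠ m in atTop, m ∈ N → m ∈ M b ∧ η b m < e m) ∧
      ∀ n, ∀ᶠ m in atTop, m ∈ N → e m + n ≤ m := by
  by_cases hg : ∃ b, b < g
  swap
  · exact ⟨univ, Fn.const ℕ 0, in_univ, fun _ => Nat.zero_le _, fun b hb => (hg ⟨b, hb⟩).elim,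
      fun n => (eventually_ge_atTop n).mono fun m k _ => by simpa using k⟩
  obtain ⟨b0, hb0⟩ := hg
  let B : Fn (K × ℕ) (PS ℕ) := lm fun p => sb fun k => (Nat.unpair k).1 ∈ M p.1 ∧
    η p.1 (Nat.unpair k).1 < (Nat.unpair k).2 ∧ (Nat.unpair k).2 + p.2 ≤ (Nat.unpair k).1
  have key : ∀ b c n k, b ≤ c → c < g → n ≤ k → Sb (B (c, k)) (B (b, n)) := fun b c n k e hc e' => by
    rcases e.eq_or_lt with rfl | e
    · exact Sb.of_sub fun i x => ⟨x.1, x.2.1, le_trans (by simpa using e') x.2.2⟩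
    · exact (ev_pair (h2 b c e hc)).mono fun i x y => ⟨(x (le_trans (by simp) y.2.2) y.1).1,
        (x (le_trans (by simp) y.2.2) y.1).2.trans y.2.1, le_trans (by simpa using e') y.2.2⟩
  obtain ⟨Y, y1, y2⟩ := h.ps g B (fun b n hb => frequently_atTop.2 fun a => by
      obtain ⟨m, k1, k2, k3⟩ := frequently_atTop.1 ((h1 b hb).and_eventually (h4 b hb (n + 1))) a
      refine ⟨Nat.pair m (η b m + 1), k1.trans (Nat.left_le_pair _ _), ?_⟩
      have := k3 k2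
      simp only [B, lm_apply, mem_sb, Nat.unpair_pair]
      exact ⟨k2, by omega, by omega⟩)
    fun b n b' n' hb hb' => ⟨max b b', max n n', max_lt hb hb',
      key _ _ _ _ (le_max_left _ _) (max_lt hb hb') (le_max_left _ _),
      key _ _ _ _ (le_max_right _ _) (max_lt hb hb') (le_max_right _ _)⟩
  obtain ⟨e, he⟩ := chs (R := fun m x => x ≤ m ∧ ((∃ x ≤ m, Nat.pair m x ∈ Y) → Nat.pair m x ∈ Y))
    fun m => by
      by_cases k : ∃ x ≤ m, Nat.pair m x ∈ Y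
      · exact k.imp fun x k => ⟨k.1, fun _ => k.2⟩
      · exact ⟨0, Nat.zero_le _, fun k' => (k k').elim⟩
  have k2 : ∀ b n, b < g → ∀ᶠ m in atTop, (∃ x ≤ m, Nat.pair m x ∈ Y) →
      m ∈ M b ∧ η b m < e m ∧ e m + n ≤ m := fun b n hb => by
    obtain ⟨a, ha⟩ := eventually_atTop.1 (y2 b n hb)
    refine eventually_atTop.2 ⟨a, fun m hm k => ?_⟩
    simpa only [B, lm_apply, mem_sb, Nat.unpair_pair] using
      ha _ (hm.trans (Nat.left_le_pair _ _)) ((he m).2 k)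
  refine ⟨sb fun m => ∃ x ≤ m, Nat.pair m x ∈ Y, e, frequently_atTop.2 fun a => ?_,
    fun m => (he m).1, fun b hb => (k2 b 0 hb).mono fun m k x => ⟨(k x).1, (k x).2.1⟩,
    fun n => (k2 b0 n hb0).mono fun m k x => (k x).2.2⟩
  obtain ⟨k, k1, k3, k4⟩ := ((y1.and_eventually (y2 b0 0 hb0)).and_eventually
    (ev_pair (eventually_ge_atTop a))).exists.imp fun k x => And.intro x.1.1 (And.intro x.1.2 x.2)
  have : (Nat.unpair k).2 ≤ (Nat.unpair k).1 := (k3 k1).2.2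
  exact ⟨_, k4 this, _, this, by rwa [Nat.pair_unpair]⟩

end Pr

end Pool.Agent.P.MP_0d6be8_lc.NKW
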