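import Pool.Agent.P.MP_0d6be8_lc.NKW.Core2

set_option autoImplicit false
set_option linter.unusedSectionVars false
set_option synthInstance.maxSize 4000

/-! Tops, trials and the recursion. -/

noncomputable section

open Pool.Agent.P.MP_af1204_lc.Inn Filter

namespace Pool.Agent.P.MP_0d6be8_lc.NKW

variable [Md] [Std]

/-- nodes `(m, h, s)` -/
abbrev T : Type := ℕ × ℕ × List ℕ

theorem cnt_T : Cnt fun _ : T => True :=
  (cnt_nat.prod (cnt_nat.prod cnt_nat.list)).mono fun _ _ => ⟨trivial, trivial, fun _ _ => trivial⟩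

variable {A P : Type} [MT A] [MT P] (S : Sp A P) (z : Fn (List ℕ) P)

/-- the sons of a node -/
def sons (r : Fn (List ℕ) P) (s : List ℕ) : Fn ℕ P := lm fun i => r (i :: s)

instance dd_sons {Γ : Type} [MC Γ] (r : Γ → Fn (List ℕ) P) (s : Γ → List ℕ) [DD r] [DD s] :
    DD fun g => sons (r g) (s g) := by unfold sons; infer_instance

/-- the points of the tree number `m` -/
def top (D : PS (T × PS ℕ)) (m h : ℕ) : Fn (List ℕ) P :=
  Nat.rec (motive := fun _ => Fn (List ℕ) P) z (fun k r => lm fun s =>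
    eps (fun p => ∀ c, S.el p c ↔ ((m, k, s), S.tr (sons r s) c) ∈ D) (r (0 :: s))) h

instance dd_top {Γ : Type} [MC Γ] (D : Γ → PS (T × PS ℕ)) (m h : Γ → ℕ) [DD D] [DD m] [DD h] :
    DD fun g => top S z (D g) (m g) (h g) := by unfold top; infer_instance

theorem top_succ (D : PS (T × PS ℕ)) (m h : ℕ) (s : List ℕ) : top S z D m (h + 1) s =
    eps (fun p => ∀ c, S.el p c ↔ ((m, h, s), S.tr (sons (top S z D m h) s) c) ∈ D)
      (top S z D m h (0 :: s)) := rfl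

/-- the trace of `c` at a node -/
def trc (D : PS (T × PS ℕ)) (t : T) (c : A) : PS ℕ := S.tr (sons (top S z D t.1 t.2.1) t.2.2) c

instance dd_trc {Γ : Type} [MC Γ] (D : Γ → PS (T × PS ℕ)) (t : Γ → T) (c : Γ → A) [DD D] [DD t]
    [DD c] : DD fun g => trc S z (D g) (t g) (c g) := by unfold trc; infer_instance

/-- both sides of `a` are infinite at a node -/
def Split (U : Fn T (PS ℕ)) (D : PS (T × PS ℕ)) (a : A) (t : T) : Prop :=
  In (U t ∩ trc S z D t a) ∧ In (U t ∩ (trc S z D t a)ᶜ)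

instance dp_Split {Γ : Type} [MC Γ] (U : Γ → Fn T (PS ℕ)) (D : Γ → PS (T × PS ℕ)) (a : Γ → A)
    (t : Γ → T) [DD U] [DD D] [DD a] [DD t] : DP fun g => Split S z (U g) (D g) (a g) (t g) := by
  unfold Split; infer_instance

/-- from a node of height `h + j` one can go down to nodes of height `h` where `a` splits -/
def G (U : Fn T (PS ℕ)) (D : PS (T × PS ℕ)) (a : A) (m h j : ℕ) : PS (List ℕ) :=
  Nat.rec (motive := fun _ => PS (List ℕ)) (sb fun s => Split S z U D a (m, h, s))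
    (fun k r => sb fun s => ∃ᶠ i in atTop, i ∈ U (m, h + k + 1, s) ∧ i :: s ∈ r) j

instance dd_G {Γ : Type} [MC Γ] (U : Γ → Fn T (PS ℕ)) (D : Γ → PS (T × PS ℕ)) (a : Γ → A)
    (m h j : Γ → ℕ) [DD U] [DD D] [DD a] [DD m] [DD h] [DD j] :
    DD fun g => G S z (U g) (D g) (a g) (m g) (h g) (j g) := by
  unfold G; infer_instance

variable {S z}

theorem top_O {O : List ℕ → A} (h1 : ∀ s, S.el (z s) (O s))
    (h2 : ∀ s i p, S.el p (O (i :: s)) → S.el p (O s)) {D : PS (T × PS ℕ)}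
    (hD : ∀ t e, (t, e) ∈ D → (t, univ) ∈ D) (m h : ℕ) : ∀ s, S.el (top S z D m h s) (O s) := by
  induction h with
  | zero => exact h1
  | succ h ih =>
    intro s
    rw [top_succ]
    by_cases hex : ∃ p, ∀ c, S.el p c ↔ ((m, h, s), S.tr (sons (top S z D m h) s) c) ∈ D
    · have hp := eps_spec (top S z D m h (0 :: s)) hex
      refine by_contra fun hn => hn ((hp _).2 ?_)
      have e : S.tr (sons (top S z D m h) s) (O s) = univ :=
        eq_univ_of_forall fun i => h2 s i _ (ih (i :: s))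
      exact e ▸ hD _ _ ((hp _).1 ((S.el_cpl _ _).2 hn))
    · rw [eps_neg _ hex]
      exact h2 s 0 _ (ih (0 :: s))

section trial
variable (h2 : S.P2) {U : Fn T (PS ℕ)} (hU : ∀ t, In (U t)) {D : PS (T × PS ℕ)}
  (hd : ∀ m h s i j, top S z D m h (i :: s) = top S z D m h (j :: s) → i = j)
include h2 hU hd

theorem trial (m h j : ℕ) :
    ∀ s, ∃ p q, p ≠ q ∧ ∀ a, S.el p a → ¬ S.el q a → s ∈ G S z U D a m h j := by
  induction j with
  | zero =>
    intro s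
    obtain ⟨f, f', hf⟩ := (hU (m, h, s)).seq2
    obtain ⟨p, q, h0, k⟩ := h2.acc ((sons (top S z D m h) s).comp f)
      ((sons (top S z D m h) s).comp f') (fun n e => (hf n).2.1.ne (hd _ _ _ _ _ e)) in_univ
    exact ⟨p, q, h0, fun a ha hb => ⟨freq_of_seq (fun n => (hf n).1) ((k a ha hb).mono fun n x =>
      ⟨(hf n).2.2.1, x.2.1⟩), freq_of_seq (m := f') (fun n => (hf n).1.trans (hf n).2.1.le)
        ((k a ha hb).mono fun n x => ⟨(hf n).2.2.2, x.2.2⟩)⟩⟩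
  | succ j ih =>
    intro s
    obtain ⟨y, w, hyw⟩ := chsP fun i : ℕ => ih (i :: s)
    obtain ⟨p, q, h0, k⟩ := h2.acc y w (fun n => (hyw n).1) (hU (m, h + j + 1, s))
    exact ⟨p, q, h0, fun a ha hb => (k a ha hb).mono fun i x => ⟨x.1, (hyw i).2 a x.2.1 x.2.2⟩⟩

theorem trial_all {M : PS ℕ} (hM : In M) (η : Fn ℕ ℕ) :
    ∃ a, ∃ᶠ m in atTop, m ∈ M ∧ [] ∈ G S z U D a m (η m) (m - η m) := by
  obtain ⟨y, w, hyw⟩ := chsP fun m : ℕ => trial h2 hU hd m (η m) (m - η m) []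
  obtain ⟨a, ha⟩ := h2.on y w (fun n => (hyw n).1) hM
  exact ⟨a, ha.mono fun n x => ⟨x.1, (hyw n).2 a x.2.1 x.2.2⟩⟩

end trial

/-- the data of one stage -/
abbrev St (A : Type) [MT A] : Type := Fn T (PS ℕ) × Fn T (PS ℕ) × PS ℕ × Fn ℕ ℕ × A

variable {K : Type} [MT K] [LinearOrder K] [WFL K] (X : Fn K (PS ℕ))

/-- below `V` the members of `W X g` that are almost inside `e` are dense -/
def Dw (g : K) (V e : PS ℕ) : Prop :=
  ∀ Y, W X g Y → Sb Y V → ∃ Y', W X g Y' ∧ Sb Y' Y ∧ Sb Y' e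

instance dp_Dw {Γ : Type} [MC Γ] (g : Γ → K) (V e : Γ → PS ℕ) [DD g] [DD V] [DD e] :
    DP fun x => Dw X (g x) (V x) (e x) := by unfold Dw; infer_instance

/-- density at the time `g` -/
def DO (f : Fn K (St A)) (g : K) : PS (T × PS ℕ) :=
  sb fun p => ∃ b, b < g ∧ Dw X g ((f b).1 p.1) p.2

instance dd_DO {Γ : Type} [MC Γ] (f : Γ → Fn K (St A)) (g : Γ → K) [DD f] [DD g] :
    DD fun x => DO X (f x) (g x) := by unfold DO; infer_instance

variable (S z) in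
/-- what the stage `g` does -/
def Stage (g : K) (f : Fn K (St A)) (s : St A) : Prop :=
  (∀ t, In (s.1 t) ∧ ∀ b, b < g → Sb (s.1 t) ((f b).2.1 t)) ∧
  (∀ t, In (s.2.1 t) ∧ Sb (s.2.1 t) (s.1 t) ∧ Dc (s.2.1 t) (X g)) ∧
  In s.2.2.1 ∧ (∀ m, s.2.2.2.1 m ≤ m) ∧
  (∀ b, b < g → ∀ᶠ m in atTop, m ∈ s.2.2.1 → m ∈ (f b).2.2.1 ∧ (f b).2.2.2.1 m < s.2.2.2.1 m) ∧
  (∀ n, ∀ᶠ m in atTop, m ∈ s.2.2.1 → s.2.2.2.1 m + n ≤ m) ∧
  (∀ m, m ∈ s.2.2.1 → [] ∈ G S z s.1 (DO X f g) s.2.2.2.2 m (s.2.2.2.1 m) (m - s.2.2.2.1 m)) ∧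
  ∀ m j l, l ∈ G S z s.1 (DO X f g) s.2.2.2.2 m (s.2.2.2.1 m) (j + 1) →
    ∀ᶠ i in atTop, i ∈ s.2.1 (m, s.2.2.2.1 m + j + 1, l) →
      i :: l ∈ G S z s.1 (DO X f g) s.2.2.2.2 m (s.2.2.2.1 m) j

instance : DP3 (Stage S z X) := by unfold Stage; infer_instance

variable {X}

theorem Dw.mono {g : K} {V V' e e' : PS ℕ} (h : Dw X g V e) (h1 : Sb V' V) (h2 : Sb e e') :
    Dw X g V' e' := fun Y y1 y2 =>
  let ⟨Z, z1, z2, z3⟩ := h Y y1 (y2.trans h1); ⟨Z, z1, z2, z3.trans h2⟩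

theorem Stage.congr {g : K} {f f' : Fn K (St A)} {s : St A} (h : ∀ b, b < g → f b = f' b)
    (hs : Stage S z X g f s) : Stage S z X g f' s := by
  have e : DO X f g = DO X f' g := PS.ext fun p => exists_congr fun b =>
    and_congr_right fun k => by rw [h b k]
  obtain ⟨h1, h2, h3, h4, h5, h6, h7, h8⟩ := hs
  exact ⟨fun t => ⟨(h1 t).1, fun b k => h b k ▸ (h1 t).2 b k⟩, h2, h3, h4,
    fun b k => h b k ▸ h5 b k, h6, e ▸ h7, e ▸ h8⟩

theorem exists_run (hX : Pr X) (h2 : S.P2) {O : List ℕ → A} (o1 : ∀ s, S.el (z s) (O s))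
    (o2 : ∀ s i p, S.el p (O (i :: s)) → S.el p (O s))
    (o3 : ∀ s i j p, S.el p (O (i :: s)) → S.el p (O (j :: s)) → i = j) :
    ∃ f : Fn K (St A), ∀ g, Stage S z X g f (f g) := by
  have : Nonempty A := ⟨O []⟩
  refine exists_rec (Stage S z X) (fun _ _ _ _ h hs => hs.congr h) fun g f hf => ?_
  obtain ⟨U, hU⟩ := chs fun t : T => hX.tower g (fun b => (f b).2.1 t)
    (fun b hb => ((hf b hb).2.1 t).1) fun b c hb hc =>
      ((hf c hc).2.1 t).2.1.trans (((hf c hc).1 t).2 b hb)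
  obtain ⟨M, e, m1, m2, m3, m4⟩ := hX.heights g (fun b => (f b).2.2.1) (fun b => (f b).2.2.2.1)
    (fun b hb => (hf b hb).2.2.1) (fun b c hb hc => (hf c hc).2.2.2.2.1 b hb)
    fun b hb => (hf b hb).2.2.2.2.2.1
  have hO := top_O o1 o2 (D := DO X f g) fun t e k => k.imp fun b k =>
    ⟨k.1, k.2.mono Sb.rfl (Sb.of_sub fun _ _ => trivial)⟩
  obtain ⟨a, ha⟩ := trial_all h2 (fun t => (hU t).1) (D := DO X f g)
    (fun m h s i j q => o3 s i j _ (hO m h (i :: s)) (q ▸ hO m h (j :: s))) m1 e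
  obtain ⟨V, hV⟩ := chs (R := fun (t : T) V => (In V ∧ Sb V (U t) ∧ Dc V (X g)) ∧
      ∀ j, t.2.1 = e t.1 + j + 1 → t.2.2 ∈ G S z U (DO X f g) a t.1 (e t.1) (j + 1) →
        ∀ᶠ i in atTop, i ∈ V → i :: t.2.2 ∈ G S z U (DO X f g) a t.1 (e t.1) j) fun t => by
    by_cases h : ∃ j, t.2.1 = e t.1 + j + 1 ∧ t.2.2 ∈ G S z U (DO X f g) a t.1 (e t.1) (j + 1)
    · obtain ⟨m, H, l⟩ := t
      obtain ⟨j, h4, h3⟩ := h
      obtain rfl : H = e m + j + 1 := h4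
      obtain ⟨V, v1, v2, v3⟩ := In.ex_dc (Y := U (m, e m + j + 1, l) ∩
        sb fun i => i :: l ∈ G S z U (DO X f g) a m (e m) j) h3 (X g)
      refine ⟨V, ⟨v1, v2.trans (Sb.of_sub fun _ k => k.1), v3⟩, fun j' k _ => ?_⟩
      obtain rfl : j = j' := by simpa using k
      exact Eventually.mono v2 fun i k k' => (k k').2
    · obtain ⟨V, v⟩ := (hU t).1.ex_dc (X g)
      exact ⟨V, v, fun j k k' => (h ⟨j, k, k'⟩).elim⟩
  exact ⟨(U, V, M ∩ sb fun m => [] ∈ G S z U (DO X f g) a m (e m) (m - e m), e, a), hU,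
    fun t => (hV t).1, ha, m2, fun b hb => (m3 b hb).mono fun m k k' => k k'.1,
    fun n => (m4 n).mono fun m k k' => k k'.1, fun m k => k.2,
    fun m j l => (hV (m, _, l)).2 j rfl⟩

end Pool.Agent.P.MP_0d6be8_lc.NKW
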