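import Pool.Agent.P.MP_0d6be8_lc.NKW.Core3

set_option autoImplicit false
set_option linter.unusedSectionVars false
set_option synthInstance.maxSize 4000

/-! Good times, the pressing-down argument, the walk and the combinatorial theorem. -/

noncomputable section

open Pool.Agent.P.MP_af1204_lc.Inn Filter

namespace Pool.Agent.P.MP_0d6be8_lc.NKW

variable [Md] [Std] {A P K : Type} [MT A] [MT P] [MT K] [LinearOrder K] [WFL K]
  (S : Sp A P) (z : Fn (List ℕ) P) (X : Fn K (PS ℕ)) (f : Fn K (St A))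

/-- the trace of `c` at the node `t` at the time `g` -/
abbrev tq (g : K) (t : T) (c : A) : PS ℕ := trc S z (DO X f g) t c

/-- closure points at which the earlier traces are decided -/
def Base (g : K) : Prop :=
  (∃ a, a < g) ∧ BdB g ∧ ∀ b, b < g → ∀ t, W X g ((f b).1 t) ∧ W X g ((f b).2.1 t) ∧
    (∀ Y, Y = tq S z X f b t (f b).2.2.2.2 ∨ Y = (tq S z X f b t (f b).2.2.2.2)ᶜ →
      In ((f b).1 t ∩ Y) → W X g ((f b).1 t ∩ Y)) ∧
    ∀ c, (t, tq S z X f b t c) ∈ DO X f g ∨ (t, (tq S z X f b t c)ᶜ) ∈ DO X f g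

/-- the traces of the time `g` itself are decided below the height `h` -/
def Good (h : ℕ) (g : K) : Prop :=
  Base S z X f g ∧ ∀ t : T, t.2.1 < h → ∀ c,
    (t, tq S z X f g t c) ∈ DO X f g ∨ (t, (tq S z X f g t c)ᶜ) ∈ DO X f g

/-- the good times whose witnesses are bounded by `x0` -/
def Fod (x0 b : K) : Prop :=
  (∀ h, Good S z X f h b) ∧ x0 < b ∧ ∀ t Y,
    Y = tq S z X f b t (f b).2.2.2.2 ∨ Y = (tq S z X f b t (f b).2.2.2.2)ᶜ →
      (t, Y) ∈ DO X f b → Dw X b ((f x0).1 t) Y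

section
variable {Γ : Type} [MC Γ] (h : Γ → ℕ) (g b : Γ → K) [DD h] [DD g] [DD b]

instance dp_Base : DP fun x => Base S z X f (g x) := by unfold Base; infer_instance

instance dp_Good : DP fun x => Good S z X f (h x) (g x) := by unfold Good; infer_instance

instance dp_Fod : DP fun x => Fod S z X f (g x) (b x) := by unfold Fod; infer_instance

end

variable {S z X f}

theorem ps_compl_compl {Y : Type} [MT Y] (e : PS Y) : eᶜᶜ = e := PS.ext fun _ => not_not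

theorem Good.mono {h h' : ℕ} {g : K} (hg : Good S z X f h g) (e : h' ≤ h) : Good S z X f h' g :=
  ⟨hg.1, fun t ht => hg.2 t (ht.trans_le e)⟩

variable (hf : ∀ g, Stage S z X g f (f g))
include hf

theorem U_mono (t : T) {x y : K} (h : y ≤ x) : Sb ((f x).1 t) ((f y).1 t) := by
  rcases h.eq_or_lt with rfl | e
  · exact Sb.rfl
  · exact (((hf x).1 t).2 y e).trans ((hf y).2.1 t).2.1

theorem exists_base (ht : S.Tame) (hX : Pr X) (F : K → K) [DD F] :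
    ∃ g, Base S z X f g ∧ ∀ a, a < g → F a < g := by
  obtain ⟨ix, hix⟩ := chs hX.onto
  obtain ⟨Z, hZ⟩ := chsH (P := fun p : (T × K) × PS ℕ => In p.2)
    (R := fun p (Z : Fn ℕ (PS ℕ)) => (∀ k, In (Z k) ∧ Sb (Z k) p.2) ∧
      ∀ c, ∃ k, Dc (Z k) (tq S z X f p.1.2 p.1.1 c)) fun p hp => Sp.reap ht _ hp
  obtain ⟨F', hF⟩ := chs (R := fun (p : K × K) d => F p.1 < d ∧ ∀ t, ix ((f p.1).1 t) < d ∧
      ix ((f p.1).2.1 t) < d ∧ ix ((f p.1).1 t ∩ tq S z X f p.1 t (f p.1).2.2.2.2) < d ∧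
      ix ((f p.1).1 t ∩ (tq S z X f p.1 t (f p.1).2.2.2.2)ᶜ) < d ∧
      ∀ k, ix (Z ((t, p.1), X p.2) k) < d) fun p => by
    obtain ⟨d, hd⟩ := hX.bd' (cnt_T.prod cnt_nat |>.mono fun _ _ => ⟨trivial, trivial⟩)
      fun q : T × ℕ => max (F p.1) (max (ix ((f p.1).1 q.1)) (max (ix ((f p.1).2.1 q.1))
        (max (ix ((f p.1).1 q.1 ∩ tq S z X f p.1 q.1 (f p.1).2.2.2.2))
        (max (ix ((f p.1).1 q.1 ∩ (tq S z X f p.1 q.1 (f p.1).2.2.2.2)ᶜ))
          (ix (Z ((q.1, p.1), X p.2) q.2))))))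
    simp only [max_lt_iff] at hd
    exact ⟨d, (hd default).1, fun t => ⟨(hd (t, 0)).2.1, (hd (t, 0)).2.2.1, (hd (t, 0)).2.2.2.1,
      (hd (t, 0)).2.2.2.2.1, fun k => (hd (t, k)).2.2.2.2.2⟩⟩
  obtain ⟨g, g1, g2, g3, g4⟩ := hX.pl' cnt_T (lm fun p => (f p.2).1 p.1)
    (lm fun p => Z (p.1, (f p.2.1).1 p.1.1) p.2.2) F' (fun t _ _ h => U_mono hf t h.le)
    (fun t e => by
      obtain ⟨x, hx⟩ := hX.exists_gt (ix e)
      exact ⟨x, (hix e ▸ ((hf (ix e)).2.1 t).2.2).mono (((hf x).1 t).2 _ hx)⟩)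
    fun t b x k => (hZ ((t, b), _) ((hf x).1 t).1).1 k
  refine ⟨g, ⟨g1, g3, fun b hb t => ?_⟩, fun a ha => (hF (a, a)).1.trans (g2 a a ha ha)⟩
  obtain ⟨k1, k2, k3, k4, -⟩ := (hF (b, b)).2 t
  have k0 := g2 b b hb hb
  refine ⟨⟨((hf b).1 t).1, _, k1.trans k0, hix _⟩, ⟨((hf b).2.1 t).1, _, k2.trans k0, hix _⟩,
    ?_, fun c => ?_⟩
  · rintro _ (rfl | rfl) k
    exacts [⟨k, _, k3.trans k0, hix _⟩, ⟨k, _, k4.trans k0, hix _⟩]
  · obtain ⟨d, hd, hno⟩ := g4 t b hb (tq S z X f b t c) fun x =>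
      (hZ ((t, b), _) ((hf x).1 t).1).2 c
    have key : ∀ Y, W X g Y → ∃ Y', W X g Y' ∧ Sb Y' Y ∧ Dc Y' (tq S z X f b t c) := by
      rintro _ ⟨y1, ξ, y2, rfl⟩
      obtain ⟨k, hk⟩ := (hZ ((t, b), _) y1).2 c
      exact ⟨_, ⟨((hZ ((t, b), _) y1).1 k).1, _,
        (((hF (b, ξ)).2 t).2.2.2.2 k).trans (g2 b ξ hb y2), hix _⟩, ((hZ ((t, b), _) y1).1 k).2, hk⟩
    refine hno.symm.imp (fun k => ⟨d, hd, fun Y y1 y2 => ?_⟩) fun k => ⟨d, hd, fun Y y1 y2 => ?_⟩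
    · obtain ⟨Y', w1, w2, w3⟩ := key Y y1
      exact ⟨Y', w1, w2, w3.resolve_right (k Y' w1 (w2.trans y2))⟩
    · obtain ⟨Y', w1, w2, w3⟩ := key Y y1
      exact ⟨Y', w1, w2, w3.resolve_left (k Y' w1 (w2.trans y2))⟩

theorem Dw.excl {b g x y : K} (hb : Base S z X f b) (hbg : b ≤ g) (hx : x < b) (hy : y < b)
    {t : T} {e : PS ℕ} (h1 : Dw X g ((f x).1 t) e) (h2 : Dw X b ((f y).1 t) eᶜ) : False := by
  obtain ⟨Y, y1, y2, y3⟩ := h2 _ (hb.2.2 _ (max_lt hx hy) t).1 (U_mono hf t (le_max_right _ _))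
  obtain ⟨Z, z1, z2, z3⟩ := h1 Y (y1.mono hbg) (y2.trans (U_mono hf t (le_max_left _ _)))
  exact z1.1.not_both z3 (z2.trans y3)

theorem Good.top {h : ℕ} {g : K} (hg : Good S z X f (h + 1) g) (m : ℕ) (s : List ℕ) (c : A) :
    S.el (top S z (DO X f g) m (h + 1) s) c ↔ ((m, h, s), tq S z X f g (m, h, s) c) ∈ DO X f g := by
  refine eps_spec (P := fun p => ∀ c, S.el p c ↔
    ((m, h, s), tq S z X f g (m, h, s) c) ∈ DO X f g) _
    (S.full (sb fun c => ((m, h, s), tq S z X f g (m, h, s) c) ∈ DO X f g) (fun a b => ?_)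
      fun a => ?_) c
  · simp only [mem_sb, trc, Sp.tr_inf]
    refine ⟨fun ⟨x, x1, x2⟩ => ⟨⟨x, x1, x2.mono Sb.rfl (Sb.of_sub fun _ k => k.1)⟩,
      x, x1, x2.mono Sb.rfl (Sb.of_sub fun _ k => k.2)⟩,
      fun ⟨⟨x, x1, x2⟩, y, y1, y2⟩ => ⟨max x y, max_lt x1 y1, fun Y u1 u2 => ?_⟩⟩
    obtain ⟨Z, z1, z2, z3⟩ := x2 Y u1 (u2.trans (U_mono hf _ (le_max_left _ _)))
    obtain ⟨Z', v1, v2, v3⟩ := y2 Z z1 (z2.trans (u2.trans (U_mono hf _ (le_max_right _ _))))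
    exact ⟨Z', v1, v2.trans z2, (v2.trans z3).inter v3⟩
  · simp only [mem_sb, trc, Sp.tr_cpl]
    exact ⟨fun ⟨x, x1, x2⟩ ⟨y, y1, y2⟩ => Dw.excl hf hg.1 le_rfl y1 x1 y2 x2,
      (hg.2 (m, h, s) (Nat.lt_succ_self h) a).resolve_left⟩

theorem same {g : K} (hg : Base S z X f g) (t : T) (c : A) {h : ℕ}
    (k : ∀ s, ∃ d, d < g ∧ ∀ b, d < b → b < g → Good S z X f h b →
      (S.el (top S z (DO X f b) t.1 t.2.1 s) c ↔ S.el (top S z (DO X f g) t.1 t.2.1 s) c)) :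
    ∃ d, d < g ∧ ∀ b, d < b → b < g → Good S z X f h b → tq S z X f b t c = tq S z X f g t c := by
  obtain ⟨d, h0, h1⟩ := hg.2.1.rel cnt_nat _ fun i => k (i :: t.2.2)
  exact ⟨d, h0, fun b b1 b2 b3 => PS.ext fun i =>
    let ⟨_, k1, k2⟩ := h1 i; k2 b (k1.trans b1) b2 b3⟩

theorem honest {g : K} (m : ℕ) (c : A) (h : ℕ) (hg : Good S z X f h g) :
    ∀ s, ∃ d, d < g ∧ ∀ b, d < b → b < g → Good S z X f h b →
      (S.el (top S z (DO X f b) m h s) c ↔ S.el (top S z (DO X f g) m h s) c) := by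
  induction h with
  | zero => exact fun s => hg.1.1.imp fun a ha => ⟨ha, fun _ _ _ _ => Iff.rfl⟩
  | succ h ih =>
    intro s
    obtain ⟨d, h0, h1⟩ := same hf hg.1 (m, h, s) c (ih (hg.mono h.le_succ))
    rcases hg.2 (m, h, s) h.lt_succ_self c with ⟨x, x1, x2⟩ | ⟨x, x1, x2⟩
    · refine ⟨max d x, max_lt h0 x1, fun b b1 b2 b3 => ?_⟩
      have e := h1 b (max_lt_iff.1 b1).1 b2 (b3.mono h.le_succ)
      have k' := b3.2 (m, h, s) h.lt_succ_self c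
      rw [b3.top hf, hg.top hf, e]
      rw [e] at k'
      exact iff_of_true (k'.resolve_right fun ⟨y, y1, y2⟩ =>
        Dw.excl hf b3.1 b2.le (max_lt_iff.1 b1).2 y1 x2 y2) ⟨x, x1, x2⟩
    · refine ⟨max d x, max_lt h0 x1, fun b b1 b2 b3 => ?_⟩
      rw [b3.top hf, hg.top hf, h1 b (max_lt_iff.1 b1).1 b2 (b3.mono h.le_succ)]
      exact iff_of_false (fun ⟨y, y1, y2⟩ => Dw.excl hf b3.1 b2.le (max_lt_iff.1 b1).2 y1 x2
        (by rw [ps_compl_compl]; exact y2)) fun ⟨y, y1, y2⟩ => Dw.excl hf hg.1 le_rfl y1 x1 y2 x2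

theorem Good.step {h : ℕ} {g : K} (hg : Good S z X f h g)
    (hu : ∀ d, d < g → ∃ b, d < b ∧ b < g ∧ Good S z X f h b) : Good S z X f (h + 1) g := by
  refine ⟨hg.1, fun t ht c => ?_⟩
  rcases Nat.lt_succ_iff_lt_or_eq.1 ht with e | rfl
  · exact hg.2 t e c
  · obtain ⟨d, h0, h1⟩ := same hf hg.1 t c (honest hf t.1 c _ hg)
    obtain ⟨b, b1, b2, b3⟩ := hu d h0
    exact h1 b b1 b2 b3 ▸ (hg.1.2.2 b b2 t).2.2.2 c

theorem exists_good (ht : S.Tame) (hX : Pr X) (F : K → K) [DD F] :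
    ∃ g, (∀ h, Good S z X f h g) ∧ ∀ a, a < g → F a < g := by
  have key : ∀ (n : Fn (K × ℕ) K) (F : Fn K K), ∃ g, (∀ a, a < g → F a < g) ∧ ∀ h,
      (∀ k < h, ∀ d, d < n (d, k) ∧ Good S z X f k (n (d, k))) → Good S z X f h g := fun n F => by
    obtain ⟨u, hu⟩ := chs (R := fun a b => ∀ k, n (a, k) < b) fun a => hX.bd (lm fun k => n (a, k))
    obtain ⟨g, g1, g2⟩ := exists_base hf ht hX fun a => max (F a) (u a)
    refine ⟨g, fun a ha => (max_lt_iff.1 (g2 a ha)).1, fun h hh => ?_⟩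
    induction h with
    | zero => exact ⟨g1, fun _ k => absurd k (Nat.not_lt_zero _)⟩
    | succ h ih =>
      exact (ih fun k hk => hh k (by omega)).step hf fun d hd => ⟨_, (hh h (by omega) d).1,
        (hu d h).trans (max_lt_iff.1 (g2 d hd)).2, (hh h (by omega) d).2⟩
  have := hX.ne
  have h1 : ∀ h d, ∃ b, d < b ∧ Good S z X f h b := fun h => by
    induction h using Nat.strong_induction_on with
    | _ h ih =>
      intro d
      obtain ⟨n, hn⟩ := chsH (P := fun p : K × ℕ => p.2 < h)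
        (R := fun p b => p.1 < b ∧ Good S z X f p.2 b) fun p hp => ih p.2 hp p.1
      obtain ⟨g, g1, g2⟩ := key n (Fn.const K d)
      have := g2 h fun k hk d => hn (d, k) hk
      exact ⟨g, g1 _ this.1.1.choose_spec, this⟩
  obtain ⟨n, hn⟩ := chs fun p : K × ℕ => h1 p.2 p.1
  obtain ⟨g, g1, g2⟩ := key n (lm F)
  exact ⟨g, fun h => g2 h fun k _ d => hn (d, k), g1⟩

theorem exists_fod (ht : S.Tame) (hX : Pr X) : ∃ x0, ¬ Cnt (Fod S z X f x0) := by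
  by_contra hc
  obtain ⟨F, hF⟩ := chs (R := fun x0 b => ∀ a, Fod S z X f x0 a → a < b)
    fun x0 => hX.cnt (by_contra fun h => hc ⟨x0, h⟩)
  obtain ⟨g, g1, g2⟩ := exists_good hf ht hX F
  have hb := (g1 0).1
  have hw : ∀ (E : T → PS ℕ) [DD E], ∃ x, x < g ∧ ∀ t, (t, E t) ∈ DO X f g →
      Dw X g ((f x).1 t) (E t) := fun E _ => by
    obtain ⟨x, x1, x2⟩ := hb.2.1.rel cnt_T
      (fun t w => (t, E t) ∈ DO X f g → Dw X g ((f w).1 t) (E t)) fun t => by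
        by_cases h : (t, E t) ∈ DO X f g
        · exact h.imp fun w k => ⟨k.1, fun _ => k.2⟩
        · exact hb.1.imp fun a ha => ⟨ha, fun e => (h e).elim⟩
    exact ⟨x, x1, fun t h => let ⟨_, k1, k2⟩ := x2 t; (k2 h).mono (U_mono hf t k1.le) Sb.rfl⟩
  obtain ⟨x1, a1, a2⟩ := hw fun t => tq S z X f g t (f g).2.2.2.2
  obtain ⟨x2, b1, b2⟩ := hw fun t => (tq S z X f g t (f g).2.2.2.2)ᶜ
  refine lt_irrefl g ((hF (max x1 x2) g ⟨g1, max_lt a1 b1, ?_⟩).trans (g2 _ (max_lt a1 b1)))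
  rintro t _ (rfl | rfl) h
  · exact (a2 t h).mono (U_mono hf t (le_max_left _ _)) Sb.rfl
  · exact (b2 t h).mono (U_mono hf t (le_max_right _ _)) Sb.rfl

omit hf in
theorem shrink {V : PS ℕ} (E : K → PS ℕ) (B : Finset K) (hE : ∀ b ∈ B, Dw X b V (E b)) :
    ∀ Y0, In Y0 → Sb Y0 V → (∀ b ∈ B, W X b Y0) → ∃ Y, In Y ∧ Sb Y Y0 ∧ ∀ b ∈ B, Sb Y (E b) := by
  classical
  induction B using Finset.induction_on_min with
  | empty => exact fun Y0 h _ _ => ⟨Y0, h, Sb.rfl, by simp⟩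
  | insert a B ha ih =>
    intro Y0 _ h2 h3
    obtain ⟨Y1, y1, y2, y3⟩ := hE a (by simp) Y0 (h3 a (by simp)) h2
    obtain ⟨Y, w1, w2, w3⟩ := ih (fun b hb => hE b (by simp [hb])) Y1 y1.1 (y2.trans h2)
      fun b hb => y1.mono (ha b hb).le
    refine ⟨Y, w1, w2.trans y2, fun b hb => ?_⟩
    rcases Finset.mem_insert.1 hb with rfl | hb
    exacts [w2.trans y3, w3 b hb]

variable (S z X f) in
/-- the time `b` is decided or pending at the point `(m, H, s)` -/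
def OK (σ : K → Prop) (m : ℕ) (b : K) (H : ℕ) (s : List ℕ) : Prop :=
  (H ≤ (f b).2.2.2.1 m ∧ (S.el (top S z (DO X f b) m H s) (f b).2.2.2.2 ↔ σ b)) ∨
    ∃ j, H = (f b).2.2.2.1 m + j + 1 ∧
      s ∈ G S z (f b).1 (DO X f b) (f b).2.2.2.2 m ((f b).2.2.2.1 m) j

theorem walk_step {x0 : K} {B : Finset K} (hB : ∀ b ∈ B, Fod S z X f x0 b) {σ : K → Prop} {m : ℕ}
    (hm : ∀ b ∈ B, ∀ c ∈ B, b < c → (f b).2.2.2.1 m < (f c).2.2.2.1 m) {k : ℕ} {s : List ℕ}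
    (h : ∀ b ∈ B, OK S z X f σ m b (k + 1) s) : ∃ i, ∀ b ∈ B, OK S z X f σ m b k (i :: s) := by
  classical
  let E : K → PS ℕ := fun b => if σ b then tq S z X f b (m, k, s) (f b).2.2.2.2
    else (tq S z X f b (m, k, s) (f b).2.2.2.2)ᶜ
  have hE : ∀ b i, i ∈ E b → (S.el (top S z (DO X f b) m k (i :: s)) (f b).2.2.2.2 ↔ σ b) :=
    fun b i hi => by
      by_cases e : σ b
      · simp only [E, if_pos e] at hi; exact iff_of_true hi e
      · simp only [E, if_neg e] at hi; exact iff_of_false hi e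
  have hE' : ∀ b, E b = tq S z X f b (m, k, s) (f b).2.2.2.2 ∨
      E b = (tq S z X f b (m, k, s) (f b).2.2.2.2)ᶜ := fun b => by
    by_cases e : σ b
    exacts [Or.inl (if_pos e), Or.inr (if_neg e)]
  have hp : ∀ b ∈ B, ∀ j, k = (f b).2.2.2.1 m + j →
      s ∈ G S z (f b).1 (DO X f b) (f b).2.2.2.2 m ((f b).2.2.2.1 m) j := fun b hb j e => by
    rcases h b hb with g | ⟨j', g1, g2⟩
    · omega
    · rwa [show j = j' by omega]
  have hV : ∀ b ∈ B, (f b).2.2.2.1 m < k → ∀ᶠ i in atTop, i ∈ (f b).2.1 (m, k, s) →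
      OK S z X f σ m b k (i :: s) := fun b hb e => by
    obtain ⟨j, rfl⟩ := Nat.exists_eq_add_of_lt e
    exact ((hf b).2.2.2.2.2.2.2 m j s (hp b hb (j + 1) rfl)).mono fun i x y => Or.inr ⟨j, rfl, x y⟩
  have hd : ∀ b ∈ B, k < (f b).2.2.2.1 m → Dw X b ((f x0).1 (m, k, s)) (E b) := fun b hb e => by
    refine (hB b hb).2.2 _ _ (hE' b) ?_
    have h1 := ((hB b hb).1 (k + 1)).top hf m s (f b).2.2.2.2
    rcases h b hb with g | ⟨j, g, -⟩
    · by_cases c : σ b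
      · simp only [E, if_pos c]; exact h1.1 (g.2.2 c)
      · simp only [E, if_neg c]
        exact (((hB b hb).1 (k + 1)).2 (m, k, s) k.lt_succ_self _).resolve_left
          fun x => c (g.2.1 (h1.2 x))
    · omega
  obtain ⟨Y0, y1, y2, y3, y4⟩ : ∃ Y0, In Y0 ∧ Sb Y0 ((f x0).1 (m, k, s)) ∧
      (∀ b ∈ B, k < (f b).2.2.2.1 m → W X b Y0) ∧ ∀ b ∈ B, (f b).2.2.2.1 m ≤ k →
        ∀ᶠ i in atTop, i ∈ Y0 → OK S z X f σ m b k (i :: s) := by
    by_cases hb : (B.filter fun b => (f b).2.2.2.1 m ≤ k).Nonempty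
    · obtain ⟨c, c1, c3⟩ := Finset.exists_max_image _ id hb
      obtain ⟨c1, c2⟩ := Finset.mem_filter.1 c1
      obtain ⟨Y, u1, u2, u3, u4⟩ : ∃ Y, In Y ∧ Sb Y ((f c).1 (m, k, s)) ∧
          (∀ᶠ i in atTop, i ∈ Y → OK S z X f σ m c k (i :: s)) ∧
          ∀ g, Base S z X f g → c < g → W X g Y := by
        rcases c2.eq_or_lt with e | e
        · have h1 : Split S z (f c).1 (DO X f c) (f c).2.2.2.2 (m, k, s) := e ▸ hp c c1 0 e.symm
          have h2 : In ((f c).1 (m, k, s) ∩ E c) := by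
            rcases hE' c with x | x <;> rw [x]
            exacts [h1.1, h1.2]
          exact ⟨_, h2, Sb.of_sub fun _ x => x.1, Eventually.of_forall fun i x =>
            Or.inl ⟨e.ge, hE c i x.2⟩, fun g hg k => (hg.2.2 c k _).2.2.1 _ (hE' c) h2⟩
        · exact ⟨_, ((hf c).2.1 _).1, ((hf c).2.1 _).2.1, hV c c1 e,
            fun g hg k => (hg.2.2 c k _).2.1⟩
      refine ⟨Y, u1, u2.trans (U_mono hf _ (hB c c1).2.1.le), fun b b1 b2 =>
        u4 b ((hB b b1).1 0).1 (lt_of_not_ge fun e => ?_), fun b b1 b2 => ?_⟩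
      · rcases e.eq_or_lt with rfl | e
        · omega
        · have := hm b b1 c c1 e; omega
      · rcases (c3 b (Finset.mem_filter.2 ⟨b1, b2⟩)).eq_or_lt with rfl | e
        · exact u3
        · filter_upwards [u2.trans (((hf c).1 _).2 b e),
            hV b b1 ((hm b b1 c c1 e).trans_le c2)] with i k1 k2 k3 using k2 (k1 k3)
    · exact ⟨_, ((hf x0).1 _).1, Sb.rfl, fun b b1 _ => (((hB b b1).1 0).1.2.2 x0 (hB b b1).2.1 _).1,
        fun b b1 b2 => (hb ⟨b, Finset.mem_filter.2 ⟨b1, b2⟩⟩).elim⟩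
  obtain ⟨Y, w1, w2, w3⟩ := shrink E (B.filter fun b => k < (f b).2.2.2.1 m)
    (fun b hb => hd b (Finset.mem_filter.1 hb).1 (Finset.mem_filter.1 hb).2) Y0 y1 y2
    fun b hb => y3 b (Finset.mem_filter.1 hb).1 (Finset.mem_filter.1 hb).2
  refine (w1.and_eventually ((eventually_all_finset B).2 fun b hb =>
    (?_ : ∀ᶠ i in atTop, i ∈ Y → OK S z X f σ m b k (i :: s)))).exists.imp
      fun i x b hb => x.2 b hb x.1
  rcases le_or_gt ((f b).2.2.2.1 m) k with e | e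
  · filter_upwards [w2, y4 b hb e] with i k1 k2 k3 using k2 (k1 k3)
  · exact Eventually.mono (w3 b (Finset.mem_filter.2 ⟨hb, e⟩)) fun i k1 k2 =>
      Or.inl ⟨e.le, hE b i (k1 k2)⟩

theorem fod_ind {x0 : K} (B : Finset K) (hB : ∀ b ∈ B, Fod S z X f x0 b) (σ : K → Prop) :
    ∃ p, ∀ b ∈ B, (S.el p (f b).2.2.2.2 ↔ σ b) := by
  rcases B.eq_empty_or_nonempty with rfl | hne
  · exact ⟨z [], by simp⟩
  obtain ⟨c, -, c3⟩ := Finset.exists_max_image B id hne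
  have h1 : ∀ b ∈ B, ∀ᶠ m in atTop, m ∈ (f c).2.2.1 → m ∈ (f b).2.2.1 := fun b hb => by
    rcases (c3 b hb).eq_or_lt with rfl | e
    · exact Sb.rfl
    · exact ((hf c).2.2.2.2.1 b e).mono fun m k k' => (k k').1
  have h2 : ∀ b ∈ B, ∀ᶠ m in atTop, ∀ d ∈ B, b < d → m ∈ (f d).2.2.1 →
      (f b).2.2.2.1 m < (f d).2.2.2.1 m := fun b _ => (eventually_all_finset B).2 fun d _ => by
    by_cases e : b < d
    · exact ((hf d).2.2.2.2.1 b e).mono fun m k _ k' => (k k').2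
    · exact Eventually.of_forall fun _ k => (e k).elim
  obtain ⟨m, m0, m1, m2⟩ := ((hf c).2.2.1.and_eventually
    (((eventually_all_finset B).2 h1).and ((eventually_all_finset B).2 h2))).exists
  have key : ∀ H s, (∀ b ∈ B, OK S z X f σ m b H s) → ∃ s', ∀ b ∈ B, OK S z X f σ m b 0 s' :=
    fun H => by
      induction H with
      | zero => exact fun s x => ⟨s, x⟩
      | succ H ih =>
        intro s x
        obtain ⟨i, hi⟩ := walk_step hf hB (fun b b1 d d1 e => m2 b b1 d d1 e (m1 d d1 m0)) x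
        exact ih _ hi
  obtain ⟨s, hs⟩ := key (m + 1) [] fun b hb => Or.inr ⟨_, by
    have := (hf b).2.2.2.1 m; omega, (hf b).2.2.2.2.2.2.1 m (m1 b hb m0)⟩
  refine ⟨z s, fun b hb => ?_⟩
  rcases hs b hb with g | ⟨j, g, -⟩
  · exact g.2
  · omega

omit hf in
/-- the combinatorial theorem -/
theorem not_tame (hX : Pr X) (h2 : S.P2) (y : Fn ℕ P) (hy : Function.Injective y) : ¬ S.Tame := by
  classical
  intro ht
  obtain ⟨O, z, o1, o2, o3⟩ := h2.tree y hy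
  obtain ⟨f, hf⟩ := exists_run hX h2 o1 o2 o3
  obtain ⟨x0, hx⟩ := exists_fod hf ht hX
  obtain ⟨i, hi⟩ := ht (sb fun a => ∃ b, Fod S z X f x0 b ∧ (f b).2.2.2.2 = a) fun l hl σ => by
    have := hX.ne
    choose! r r1 r2 using hl
    obtain ⟨p, hp⟩ := fod_ind hf (x0 := x0) (l.toFinset.image r) (by simpa using r1)
      fun b => σ (f b).2.2.2.2
    exact ⟨p, fun a ha => r2 a ha ▸ hp (r a) (Finset.mem_image_of_mem r (List.mem_toFinset.2 ha))⟩
  refine hx ⟨lm fun b => i (f b).2.2.2.2, fun b c hb hc e => ?_⟩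
  have e' := hi _ _ ⟨b, hb, rfl⟩ ⟨c, hc, rfl⟩ e
  obtain ⟨p, hp⟩ := fod_ind hf (x0 := x0) {b, c} (by simp [hb, hc]) fun d => d = b
  exact ((hp c (by simp)).1 (e' ▸ (hp b (by simp)).2 rfl)).symm

end Pool.Agent.P.MP_0d6be8_lc.NKW
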