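import Pool.Agent.P.MP_0d6be8_lc.NKW.GM1

set_option autoImplicit false
set_option linter.unusedSectionVars false
set_option synthInstance.maxSize 4000

/-! A Radon measure that keeps the members of an independent family apart. -/

noncomputable section

open Pool.Agent.P.MP_af1204_lc.Inn Filter

namespace Pool.Agent.P.MP_0d6be8_lc.NKW

variable [Md] [Std] {A P : Type} [MT A] [MT P]
  {Q : Type} [MT Q] [Field Q] [LinearOrder Q] [IsStrictOrderedRing Q] [RF Q]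

/-- the average of `g` over all patterns on the list -/
def avg (h : Q) : List A → ((A → Prop) → Q) → Q
  | [], g => g fun _ => False
  | i :: l, g => h * (avg h l (fun s => g fun a => a = i ∨ s a) +
      avg h l fun s => g fun a => a ≠ i ∧ s a)

theorem dd_avg {Γ : Type} [MC Γ] (h : Q) (l : List A) : ∀ G : (A → Prop) → Γ → Q,
    (∀ s, DD (G s)) → DD fun x => avg h l fun s => G s x := by
  induction l with
  | nil => exact fun G k => k _
  | cons i t ih =>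
    intro G k
    have h1 := ih (fun s => G fun a => a = i ∨ s a) fun _ => k _
    have h2 := ih (fun s => G fun a => a ≠ i ∧ s a) fun _ => k _
    have h3 := dd_radd (fun x => avg h t fun s => G (fun a => a = i ∨ s a) x)
      fun x => avg h t fun s => G (fun a => a ≠ i ∧ s a) x
    exact dd_rmul (fun _ => h) _

theorem avg_add (h : Q) (l : List A) : ∀ f g k : (A → Prop) → Q, (∀ s, k s = f s + g s) →
    avg h l k = avg h l f + avg h l g := by
  induction l with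
  | nil => exact fun f g k e => e _
  | cons i t ih =>
    intro f g k e
    rw [avg, avg, avg,
      ih (fun s => f fun a => a = i ∨ s a) (fun s => g fun a => a = i ∨ s a) _ fun _ => e _,
      ih (fun s => f fun a => a ≠ i ∧ s a) (fun s => g fun a => a ≠ i ∧ s a) _ fun _ => e _]
    ring

theorem avg_const {h : Q} (hh : h + h = 1) (c : Q) (l : List A) :
    ∀ g : (A → Prop) → Q, (∀ s, g s = c) → avg h l g = c := by
  induction l with
  | nil => exact fun g e => e _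
  | cons i t ih =>
    intro g e
    rw [avg, ih _ fun _ => e _, ih _ fun _ => e _]
    exact NL.half_same hh

theorem avg_nonneg {h : Q} (hh : h + h = 1) (l : List A) :
    ∀ g : (A → Prop) → Q, (∀ s, 0 ≤ g s) → 0 ≤ avg h l g := by
  induction l with
  | nil => exact fun g e => e _
  | cons i t ih => exact fun g e => NL.half_nonneg hh (ih _ fun _ => e _) (ih _ fun _ => e _)

theorem avg_half {h : Q} (hh : h + h = 1) {i j : A} (hij : i ≠ j) (l : List A) :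
    ∀ g : (A → Prop) → Q, i ∈ l → (∀ s : A → Prop, (s i ↔ s j) → g s = 0) →
      (∀ s : A → Prop, ¬ (s i ↔ s j) → g s = 1) → avg h l g = h := by
  induction l with
  | nil => exact fun _ e => (List.not_mem_nil e).elim
  | cons k t ih =>
    intro g hi g0 g1
    rw [avg]
    by_cases e : k = i ∨ k = j
    · refine NL.half_one ((avg_add h t _ _ (fun _ => 1) fun s => ?_).symm.trans
        (avg_const hh 1 t _ fun _ => rfl))
      rcases e with rfl | rfl
      · by_cases r : s j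
        · rw [g0 _ (iff_of_true (Or.inl rfl) (Or.inr r)),
            g1 _ fun w => (w.2 ⟨hij.symm, r⟩).1 rfl, zero_add]
        · rw [g1 _ fun w => (w.1 (Or.inl rfl)).elim hij.symm r,
            g0 _ (iff_of_false (fun w => w.1 rfl) fun w => r w.2), add_zero]
      · by_cases r : s i
        · rw [g0 _ (iff_of_true (Or.inr r) (Or.inl rfl)),
            g1 _ fun w => (w.1 ⟨hij, r⟩).1 rfl, zero_add]
        · rw [g1 _ fun w => (w.2 (Or.inl rfl)).elim hij r,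
            g0 _ (iff_of_false (fun w => r w.2) fun w => w.1 rfl), add_zero]
    · have ki : i ≠ k := fun w => e (Or.inl w.symm)
      have kj : j ≠ k := fun w => e (Or.inr w.symm)
      have hi' : i ∈ t := (List.mem_cons.1 hi).resolve_left ki
      rw [ih _ hi' (fun s w => g0 _ (by simpa [ki, kj] using w))
          fun s w => g1 _ (by simpa [ki, kj] using w),
        ih _ hi' (fun s w => g0 _ (by simpa [ki, kj] using w))
          fun s w => g1 _ (by simpa [ki, kj] using w)]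
      exact NL.half_one hh

variable {S : Sp A P}

/-- averages of point masses -/
theorem exists_avg {h : Q} (hh : h + h = 1) {I : PS A} (hi : S.Ind I) :
    ∃ v : Fn (List A) (Fn A Q), ∀ l, (∀ a, 0 ≤ v l a) ∧
      (∀ a b c, (∀ p, S.el p c ↔ S.el p a ∨ S.el p b) → (∀ p, S.el p a → ¬ S.el p b) →
        v l c = v l a + v l b) ∧ (∀ a, (∀ p, S.el p a) → v l a = 1) ∧
      ∀ i j c, (∀ a ∈ l, a ∈ I) → i ∈ l → j ∈ l → i ≠ j →
        (∀ p, S.el p c ↔ ¬ (S.el p i ↔ S.el p j)) → v l c = h := by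
  refine chs (R := fun (l : List A) (w : Fn A Q) => (∀ a, 0 ≤ w a) ∧
      (∀ a b c, (∀ p, S.el p c ↔ S.el p a ∨ S.el p b) → (∀ p, S.el p a → ¬ S.el p b) →
        w c = w a + w b) ∧ (∀ a, (∀ p, S.el p a) → w a = 1) ∧
      ∀ i j c, (∀ a ∈ l, a ∈ I) → i ∈ l → j ∈ l → i ≠ j →
        (∀ p, S.el p c ↔ ¬ (S.el p i ↔ S.el p j)) → w c = h) fun l => ?_
  obtain ⟨z, hz⟩ : ∃ z : (A → Prop) → P, ∀ s, (∀ a ∈ l, a ∈ I) →
      ∀ a ∈ l, (S.el (z s) a ↔ s a) := by
    by_cases e : ∀ a ∈ l, a ∈ I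
    · choose z hz using hi l e
      exact ⟨z, fun s _ => hz s⟩
    · obtain ⟨p, -⟩ := hi [] (by simp) fun _ => False
      exact ⟨fun _ => p, fun _ k => (e k).elim⟩
  refine ⟨⟨fun a => avg h l fun s => ind Q (S.el (z s) a),
    dd_avg h l (fun s a => ind Q (S.el (z s) a)) fun _ => inferInstance⟩,
    fun a => avg_nonneg hh l _ fun s => ind_nonneg _, fun a b c e d => avg_add h l _ _ _ fun s => ?_,
    fun a e => avg_const hh 1 l _ fun s => ind_pos (e _),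
    fun i j c hl h1 h2 hij e => avg_half hh hij l _ h1 (fun s w => ind_neg fun r => ?_)
      fun s w => ind_pos ((e _).2 fun r => w ?_)⟩
  · have h1 := e (z s)
    have h2 := d (z s)
    by_cases S.el (z s) a <;> by_cases S.el (z s) b <;> simp_all [ind]
  · exact (e _).1 r ((hz s hl i h1).trans (w.trans (hz s hl j h2).symm))
  · exact (hz s hl i h1).symm.trans (r.trans (hz s hl j h2))

/-- the limit of the averages along an ultrafilter -/
theorem exists_charge' (ne : Nonempty A) {h : Q} (hh : h + h = 1) {I : PS A} (hi : S.Ind I) :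
    ∃ ν : Fn A Q, NL.FA S.el ν ∧ ∀ i j c, i ∈ I → j ∈ I → i ≠ j →
      (∀ p, S.el p c ↔ ¬ (S.el p i ↔ S.el p j)) → ν c = h := by
  obtain ⟨v, hv⟩ := exists_avg hh hi
  have fa : ∀ l, NL.FA S.el (v l) := fun l => ⟨(hv l).1, (hv l).2.1, (hv l).2.2.1⟩
  obtain ⟨u, hF, u1, u2, u3, u4⟩ := ultra_ext (pb_set (List A)) (fun X : PS (List A) =>
      ∃ m : List A, (∀ a ∈ m, a ∈ I) ∧ ∀ l : List A, (∀ a ∈ l, a ∈ I) → (∀ a ∈ m, a ∈ l) → l ∈ X)
    fun L hL => by
      obtain ⟨m, h1, h2⟩ : ∃ m : List A, (∀ a ∈ m, a ∈ I) ∧ ∀ l : List A, (∀ a ∈ l, a ∈ I) →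
          (∀ a ∈ m, a ∈ l) → ∀ X ∈ L, l ∈ X := by
        induction L with
        | nil => exact ⟨[], by simp, by simp⟩
        | cons X L ih =>
          obtain ⟨m, h1, h2⟩ := ih fun Y hY => hL Y (by simp [hY])
          obtain ⟨n, h3, h4⟩ := hL X (by simp)
          refine ⟨m ++ n, fun a e => (List.mem_append.1 e).elim (h1 a) (h3 a), fun l e r Y hY => ?_⟩
          rcases List.mem_cons.1 hY with rfl | hY
          · exact h4 l e fun a w => r a (List.mem_append_right _ w)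
          · exact h2 l e (fun a w => r a (List.mem_append_left _ w)) Y hY
      exact ⟨{m}, fun k => k m rfl, fun X hX j (e : j = m) => e ▸ h2 m h1 (fun _ e => e) X hX⟩
  have all : ∀ X : PS (List A), (∀ l, l ∈ X) → X ∈ u := fun X e =>
    hF X ⟨[], by simp, fun l _ _ => e l⟩
  have ex : ∀ X, X ∈ u → ∃ l, l ∈ X := fun X e => by_contra fun k => u4 X e fun l r => k ⟨l, r⟩
  obtain ⟨ν, hν⟩ := chs (R := fun (a : A) (c : Q) =>
      (∀ r, (sb fun l => r ≤ v l a) ∈ u → r ≤ c) ∧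
      ∀ y, (∀ r, (sb fun l => r ≤ v l a) ∈ u → r ≤ y) → c ≤ y) fun a =>
    (exists_lub (fun r => (sb fun l => r ≤ v l a) ∈ u) ⟨0, all _ fun l => (fa l).nonneg a⟩
      ⟨1, fun r e => (ex _ e).elim fun l g => le_trans g ((fa l).le_one (S.lib ne) a)⟩).imp
      fun _ k => ⟨k.1, k.2⟩
  have lub : ∀ a, NL.Lub (fun r => (sb fun l => r ≤ v l a) ∈ u) (ν a) := fun a =>
    ⟨(hν a).1, (hν a).2⟩
  have cst : ∀ a x, (sb fun l => v l a = x) ∈ u → ν a = x := fun a x e =>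
    NL.lub_eq (lub a) fun r => ⟨fun g => (ex _ ((u1 _ _).2 ⟨e, g⟩)).elim fun l w =>
      le_of_le_of_eq w.2 w.1, fun g => u3 _ _ (fun l w => le_of_le_of_eq g (Eq.symm w)) e⟩
  refine ⟨ν, ⟨fun a => (lub a).ub 0 (all _ fun l => (fa l).nonneg a), fun a b c e d => ?_,
    fun a e => cst a 1 (all _ fun l => (fa l).one a e)⟩, fun i j c h1 h2 hij e => cst c h
      (hF _ ⟨[i, j], by simp [h1, h2], fun l w r =>
        (hv l).2.2.2 i j c w (r i (by simp)) (r j (by simp)) hij e⟩)⟩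
  exact NL.lub_add (lub a) (lub b) (lub c) (fun r s w g => u3 _ _ (fun l x => le_trans w x) g)
    (fun r s g g' => by
      refine u3 _ _ ?_ ((u1 _ _).2 ⟨g, g'⟩)
      exact fun l x => NL.add_le_of_eq ((fa l).add a b c e d) x.1 x.2)
    fun r s g g' => (u2 _).1 (by
      refine u3 _ _ ?_ ((u1 _ _).2 ⟨(u2 _).2 g, (u2 _).2 g'⟩)
      exact fun l x => NL.not_add_le_of_eq ((fa l).add a b c e d) x.1 x.2)

variable (ne : Nonempty A)
include ne

theorem cover_two (U V : PS P) (a : A) (hU : S.Opn U) (hV : S.Opn V)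
    (h : ∀ p, S.el p a → p ∈ U ∨ p ∈ V) : ∃ b c, (∀ p, S.el p b → p ∈ U) ∧
      (∀ p, S.el p c → p ∈ V) ∧ ∀ p, S.el p a → S.el p b ∨ S.el p c := by
  obtain ⟨o, ho⟩ := (S.lib ne).bot
  refine cover (S := S) (fun d => ∃ b c, (∀ p, S.el p b → p ∈ U) ∧ (∀ p, S.el p c → p ∈ V) ∧
      ∀ p, S.el p d → S.el p b ∨ S.el p c)
    (fun d hd => ⟨o, o, fun p e => (ho p e).elim, fun p e => (ho p e).elim,
      fun p e => (hd p e).elim⟩) ?_ a fun p e => ?_
  · rintro x y d ⟨b, c, h1, h2, h3⟩ ⟨b', c', g1, g2, g3⟩ hd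
    obtain ⟨b2, hb⟩ := (S.lib ne).sup b b'
    obtain ⟨c2, hc⟩ := (S.lib ne).sup c c'
    exact ⟨b2, c2, fun p e => ((hb p).1 e).elim (h1 p) (g1 p),
      fun p e => ((hc p).1 e).elim (h2 p) (g2 p), fun p e => (hd p e).elim
        (fun r => (h3 p r).imp (fun w => (hb p).2 (Or.inl w)) fun w => (hc p).2 (Or.inl w))
        fun r => (g3 p r).imp (fun w => (hb p).2 (Or.inr w)) fun w => (hc p).2 (Or.inr w)⟩
  · rcases h p e with r | r
    · obtain ⟨b, h1, h2⟩ := hU p r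
      exact ⟨b, h1, b, o, h2, fun p e => (ho p e).elim, fun _ => Or.inl⟩
    · obtain ⟨b, h1, h2⟩ := hV p r
      exact ⟨b, h1, o, b, fun p e => (ho p e).elim, h2, fun _ => Or.inr⟩

omit ne in
theorem cover_seq (V : Fn ℕ (PS P)) (hV : ∀ n, S.Opn (V n)) (hs : ∀ n, V n ⊆ V (n + 1)) (a : A)
    (h : ∀ p, S.el p a → ∃ n, p ∈ V n) : ∃ n, ∀ p, S.el p a → p ∈ V n := by
  have mono : Monotone V := monotone_nat_of_le_succ hs
  refine cover (S := S) (fun d => ∃ n, ∀ p, S.el p d → p ∈ V n)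
    (fun d hd => ⟨0, fun p e => (hd p e).elim⟩) ?_ a fun p e => ?_
  · rintro x y d ⟨n, hn⟩ ⟨k, hk⟩ hd
    exact ⟨max n k, fun p e => (hd p e).elim (fun w => mono (le_max_left _ _) (hn p w))
      fun w => mono (le_max_right _ _) (hk p w)⟩
  · obtain ⟨n, hn⟩ := h p e
    obtain ⟨b, h1, h2⟩ := hV n p hn
    exact ⟨b, h1, n, h2⟩

theorem exists_outer {ν : Fn A Q} (f : NL.FA S.el ν) :
    ∃ lam μ : Fn (PS P) Q, NL.Out S.el (fun (U : PS P) p => p ∈ U) ν lam μ := by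
  obtain ⟨o, ho⟩ := (S.lib ne).bot
  obtain ⟨t, ht⟩ := (S.lib ne).top
  obtain ⟨lam, l1⟩ := chs (R := fun (U : PS P) (c : Q) =>
      (∀ r, (∃ a, (∀ p, S.el p a → p ∈ U) ∧ ν a = r) → r ≤ c) ∧
      ∀ y, (∀ r, (∃ a, (∀ p, S.el p a → p ∈ U) ∧ ν a = r) → r ≤ y) → c ≤ y) fun U =>
    (exists_lub (fun r => ∃ a, (∀ p, S.el p a → p ∈ U) ∧ ν a = r)
      ⟨ν o, o, fun p e => (ho p e).elim, rfl⟩
      ⟨1, fun _ ⟨a, _, e⟩ => e ▸ f.le_one (S.lib ne) a⟩).imp fun _ k => ⟨k.1, k.2⟩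
  obtain ⟨μ, m1⟩ := chs (R := fun (T : PS P) (c : Q) =>
      (∀ r, (∃ U, S.Opn U ∧ (∀ p, p ∈ T → p ∈ U) ∧ lam U = r) → c ≤ r) ∧
      ∀ y, (∀ r, (∃ U, S.Opn U ∧ (∀ p, p ∈ T → p ∈ U) ∧ lam U = r) → y ≤ r) → y ≤ c) fun T => by
    obtain ⟨c, h1, h2⟩ := exists_lub
      (fun y => ∀ r, (∃ U, S.Opn U ∧ (∀ p, p ∈ T → p ∈ U) ∧ lam U = r) → y ≤ r)
      ⟨ν o, fun _ ⟨U, _, _, e⟩ => e ▸ (l1 U).1 _ ⟨o, fun p e => (ho p e).elim, rfl⟩⟩
      ⟨lam univ, fun y e => e _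
        ⟨univ, fun p _ => ⟨t, ht p, fun _ _ => trivial⟩, fun _ _ => trivial, rfl⟩⟩
    exact ⟨c, fun r hr => h2 r fun y hy => hy r hr, h1⟩
  exact ⟨lam, μ, fun U => ⟨(l1 U).1, (l1 U).2⟩, fun T => ⟨(m1 T).1, (m1 T).2⟩, cover_two ne⟩

theorem outer_cont {ν : Fn A Q} (f : NL.FA S.el ν) {lam μ : Fn (PS P) Q}
    (o : NL.Out S.el (fun (U : PS P) p => p ∈ U) ν lam μ) (B : Fn ℕ (PS P))
    (hB : ∀ n, B n ⊆ B (n + 1)) (T : PS P) (hT : ∀ p, p ∈ T → ∃ n, p ∈ B n) (r : Q)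
    (hr : ∀ n, μ (B n) ≤ r) : μ T ≤ r := by
  refine NL.cont (S.lib ne) f o (S := B) hr fun ε hε => ?_
  obtain ⟨V0, h0⟩ := NL.start (S.lib ne) f o (S := B 0) hε
  obtain ⟨V, -, hV⟩ := exists_seq (fun _ (V W : PS P) => ∀ p, p ∈ V → p ∈ W)
    (fun n V => S.Opn V ∧ (∀ p, p ∈ B n → p ∈ V) ∧ lam V < μ (B n) + ε) V0 h0 fun n V g => by
      obtain ⟨W, h1, h2⟩ := NL.step (S.lib ne) f o (S := B n) (T := B (n + 1)) (fun p e => hB n e)
        g.1 g.2.1 g.2.2
      exact ⟨W, h2, h1⟩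
  refine ⟨iU V, fun p ⟨n, e⟩ => ?_, fun p e => (hT p e).imp fun n w => (hV n).1.2.1 p w,
    fun a ha => ?_⟩
  · obtain ⟨b, h1, h2⟩ := (hV n).1.1 p e
    exact ⟨b, h1, fun q w => ⟨n, h2 q w⟩⟩
  · obtain ⟨n, hn⟩ := cover_seq V (fun n => (hV n).1.1) (fun n p e => (hV n).2 p e) a ha
    exact ⟨n, V n, hn, (hV n).1.2.2⟩

/-- an uncountable independent family gives a Radon measure of uncountable type -/
theorem exists_radon (ht : ¬ S.Tame) : ∃ (M : PS (PS P)) (μ : Fn (PS P) Q), Rad S M μ := by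
  have s := S.lib ne
  obtain ⟨I, hi, hI⟩ : ∃ I : PS A, S.Ind I ∧ ¬ Cnt (· ∈ I) :=
    by_contra fun g => ht fun I e => by_contra fun r => g ⟨I, e, r⟩
  obtain ⟨h, hh⟩ := NL.exists_half (R := Q)
  obtain ⟨ν, f, n3⟩ := exists_charge' ne hh hi
  obtain ⟨lam, μ, o⟩ := exists_outer ne f
  let pt : Fn ℕ (PS P) → Fn ℕ (PS P) := fun B => lm fun n => sb fun p => ∃ k, k < n ∧ p ∈ B k
  have p0 : ∀ B p, p ∉ pt B 0 := fun B p ⟨k, e, _⟩ => absurd e (by omega)
  have p1 : ∀ B n p, p ∈ pt B (n + 1) ↔ p ∈ pt B n ∨ p ∈ B n := fun B n p =>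
    ⟨fun ⟨k, h1, h2⟩ => (Nat.lt_succ_iff_lt_or_eq.1 h1).imp (fun g => ⟨k, g, h2⟩)
      fun g : k = n => g ▸ h2,
      fun e => e.elim (fun ⟨k, h1, h2⟩ => ⟨k, by omega, h2⟩) fun e => ⟨n, by omega, e⟩⟩
  have part : ∀ B : Fn ℕ (PS P), (∀ n, μ (B n) + μ (B n)ᶜ ≤ 1) → ∀ n,
      μ (pt B n) + μ (pt B n)ᶜ ≤ 1 := fun B hB n => by
    induction n with
    | zero => exact NL.ms_opn s f o fun p e => (p0 B p e).elim
    | succ n ih => exact NL.ms_un s f o ih (hB n) (p1 B n)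
  have cont : ∀ (B : Fn ℕ (PS P)) (r : Q), (∀ n, μ (pt B n) ≤ r) → μ (iU B) ≤ r := fun B r =>
    outer_cont ne f o (pt B) (fun n p e => (p1 B n p).2 (Or.inl e)) (iU B)
      (fun p e => e.elim fun n e => ⟨n + 1, (p1 B n p).2 (Or.inr e)⟩) r
  refine ⟨sb fun T => μ T + μ Tᶜ ≤ 1, μ, fun U hU => NL.ms_opn s f o hU,
    fun T e => NL.ms_co s f o e, fun B hB => ?_, NL.mu_nonneg s f o,
    NL.mu_empty s f o fun _ e => e, fun T W e => NL.mu_mono s f o fun _ k => e k,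
    fun B hB hd b => ?_, fun T e b hb => ?_, ?_⟩
  · exact NL.ms_lim s f o (S := pt B) (T := iU B) (part B hB)
      (fun _ _ ⟨k, _, e⟩ => ⟨k, e⟩) (cont B)
  · have key : ∀ n, ∑ i ∈ Finset.range n, μ (B i) = μ (pt B n) := fun n => by
      induction n with
      | zero => exact (NL.mu_empty s f o (p0 B)).symm
      | succ n ih =>
        rw [Finset.sum_range_succ, ih]
        exact (NL.mu_add s f o (part B hB n) (hB n) (p1 B n)
          fun p ⟨k, e, w⟩ v => e.ne (hd k n p w v)).symm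
    refine ⟨fun e n => le_trans ?_ e, fun e => cont B b fun n => key n ▸ e n⟩
    rw [key]
    exact NL.mu_mono s f o fun _ ⟨k, _, e⟩ => ⟨k, e⟩
  · refine NL.le_of_inner fun ε hε => ?_
    obtain ⟨U, h1, h2, h3⟩ := NL.inner s f o (S := T) e hε
    exact ⟨_, hb U h1 fun p => h2 p, h3⟩
  · obtain ⟨q, q0, hq⟩ := NL.far s f o hh
    refine ⟨q, q0, fun D ⟨k, hk⟩ => by_contra fun g => hI ?_⟩
    obtain ⟨d, hd⟩ := chs (R := fun a F => F ∈ D ∧ μ ((S.bs a \ F) ∪ (F \ S.bs a)) < q) fun a =>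
      by_contra fun r => g ⟨a, fun t ht => not_lt.1 fun w => r ⟨t, ht, w⟩⟩
    refine ⟨k.comp d, fun a b ha hb e => by_contra fun hab => ?_⟩
    have e' : d a = d b := hk _ _ (hd a).1 (hd b).1 e
    obtain ⟨c, hc⟩ := s.sup (S.inf a (S.cpl b)) (S.inf b (S.cpl a))
    simp only [S.el_inf, S.el_cpl] at hc
    refine hq c _ _ (n3 a b c ha hb hab fun p => (hc p).trans (by tauto)) (fun p r => ?_)
      (hd a).2 (hd b).2
    have := (hc p).1 r
    rw [← e']
    simp only [mem_union, mem_diff, Sp.bs, mem_sb]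
    tauto

end Pool.Agent.P.MP_0d6be8_lc.NKW
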