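import Pool.Agent.P.MP_0d6be8_lc.NKW.GDef

set_option autoImplicit false
set_option linter.unusedSectionVars false
set_option synthInstance.maxSize 4000

/-! The typed Nikodym property from the coded one. -/

noncomputable section

open Pool.Agent.Lib.PosetForcing (App IsFun IsFunOn IsSucc)
open Pool.Agent.P.MP_5f3b23_lc.Zf (mm om op app_iff isPair_iff op_inj)
open Pool.Agent.P.MP_af1204_lc.Inn Filter

namespace Pool.Agent.P.MP_0d6be8_lc.NKW

variable [Md] [Std]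

theorem gnik_succ {n : ℕ} {y : MM} : IsSucc mm y (enc n) ↔ y = enc (n + 1) :=
  ⟨fun h => zext fun z => (h z).trans MP_5f3b23_lc.Zf.mem_suc.symm,
    fun h _ => h ▸ MP_5f3b23_lc.Zf.mem_suc⟩

variable {A P : Type} [MT A] [MT P] {S : Sp A P} {le : A → A → Prop} {sup : A → A → A}
  {Q : Type} [MT Q] [Field Q] [LinearOrder Q] [IsStrictOrderedRing Q] [RF Q]
  {R add rle o a r : MM}

theorem CR.abs_iff (cr : CR Q R add rle o) {x : Q} {t : MM} :
    NK.IsAbs mm R add rle o (enc x) t ↔ t = enc |x| := by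
  rw [NK.IsAbs, ← cr.car, ← cr.zero]
  refine ⟨fun ⟨h1, h2, h3⟩ => ?_, ?_⟩
  · obtain ⟨y, rfl⟩ := mem_car.1 h1
    rw [cr.le] at h2
    rcases h3 with h3 | h3
    · rw [← enc_inj.1 h3, abs_of_nonneg h2]
    · rw [eq_neg_of_add_eq_zero_left (enc_inj.1 ((cr.add _ _ _).1 h3)).symm, abs_neg,
        abs_of_nonneg h2]
  · rintro rfl
    refine ⟨enc_mem _, (cr.le _ _).2 (abs_nonneg x), ?_⟩
    rcases le_total 0 x with e | e
    · exact Or.inl (by rw [abs_of_nonneg e])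
    · exact Or.inr ((cr.add _ _ _).2 (by rw [abs_of_nonpos e, add_neg_cancel]))

theorem CA.disj_iff (ca : CA le a r) {x y : A} :
    NK.Disj mm a r (enc x) (enc y) ↔ Dj le x y := by
  rw [NK.Disj, ← ca.car]
  refine ⟨fun h u v h1 h2 => (ca.le _ _).1
    (h _ _ (enc_mem u) (enc_mem v) ((ca.le _ _).2 h1) ((ca.le _ _).2 h2)), fun h u v hu hv => ?_⟩
  obtain ⟨u, rfl⟩ := mem_car.1 hu
  obtain ⟨v, rfl⟩ := mem_car.1 hv
  simpa only [ca.le] using h u v

theorem CA.join_eq (ca : CA le a r) (b : NL.BAx le S.inf sup S.cpl) {x y z : A}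
    (h : NK.IsJoin mm a r (enc z) (enc x) (enc y)) : z = sup x y := by
  have k : ∀ t : A, le z t ↔ le x t ∧ le y t := fun t => by
    simpa only [ca.le] using h.2 (enc t) (ca.car ▸ enc_mem t)
  exact b.antisymm _ _ ((k _).2 ((b.sup_le _ _ _).1 (b.refl _)))
    ((b.sup_le _ _ _).2 ((k _).1 (b.refl _)))

theorem CR.var_iff (cr : CR Q R add rle o) (ca : CA le a r) {m : Fn A Q} {c : Q} :
    NK.VarLe mm om R add rle o a r (enc m) (enc c) ↔ Var le m c := by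
  have hv : ∀ (d : Fn ℕ A) (n : ℕ) (t : MM), (∃ a x, App mm (enc d) (enc n) a ∧
      App mm (enc m) a x ∧ NK.IsAbs mm R add rle o x t) ↔ t = enc |m (d n)| := fun d n t => by
    simp only [app_enc', exists_and_left, exists_eq_left, cr.abs_iff]
  refine ⟨fun h d hd n => ?_, fun h d s hd hj hs n y hy => ?_⟩
  · let s : Fn ℕ Q := lm fun n => ∑ i ∈ Finset.range n, |m (d i)|
    refine (cr.le _ _).1 (h (enc d) (enc s) ?_ (fun i j x y h1 h2 e => ?_) ⟨?_, fun k _ hk => ?_,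
      fun k k' x y z h1 h2 h3 h4 => ?_⟩ (enc n) _ (app_enc'.2 rfl))
    · rw [← car_nat, ← ca.car]; exact isFun_iff.2 ⟨d, rfl⟩
    · obtain ⟨i, rfl, rfl⟩ := app_enc.1 h1
      obtain ⟨j, rfl, rfl⟩ := app_enc.1 h2
      exact ca.disj_iff.2 (hd i j fun k => e (by rw [k]))
    · rw [← car_nat, ← cr.car]; exact isFun_iff.2 ⟨s, rfl⟩
    · rw [MP_5f3b23_lc.Zf.eq_emp hk, ← cr.zero]
      exact (app_enc' (x := (0 : ℕ))).2 rfl
    · obtain ⟨k, rfl, rfl⟩ := app_enc.1 h2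
      obtain rfl := gnik_succ.1 h1
      rw [(hv d k x).1 h3, app_enc'.1 h4, cr.add]
      exact congrArg enc (Finset.sum_range_succ _ _)
  · rw [← car_nat, ← ca.car] at hd
    obtain ⟨d, rfl⟩ := isFun_iff.1 hd
    obtain ⟨h1, h2, h3⟩ := hs
    rw [← car_nat, ← cr.car] at h1
    obtain ⟨s, rfl⟩ := isFun_iff.1 h1
    obtain ⟨n, rfl, rfl⟩ := app_enc.1 hy
    have e : ∀ n, s n = ∑ i ∈ Finset.range n, |m (d i)| := fun n => by
      induction n with
      | zero =>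
        have := app_enc'.1 (h2 (enc (0 : ℕ)) (car_nat ▸ enc_mem _) MP_5f3b23_lc.Zf.not_mem_emp)
        exact enc_inj.1 (this.symm.trans cr.zero.symm)
      | succ n ih =>
        rw [Finset.sum_range_succ, ← ih]
        exact enc_inj.1 ((cr.add _ _ _).1 (h3 _ _ _ _ _ (gnik_succ.2 rfl) (app_enc'.2 rfl)
          ((hv d n _).2 rfl) (app_enc'.2 rfl)))
    rw [cr.le, e]
    exact h d (fun i j k => ca.disj_iff.1 (hj _ _ _ _ (app_enc'.2 rfl) (app_enc'.2 rfl)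
      fun g => k (enc_inj.1 g))) n

theorem nik_of {R add rle o a r : MM} (cr : CR Q R add rle o) (ca : CA le a r)
    (b : NL.BAx le S.inf sup S.cpl) (h : NK.Nikodym mm om R add rle o a r) : Nik le sup Q := by
  intro m h1 h2
  have h0 := isFunOn_enc m (V := NK.IsCharge mm om R add rle o a r) fun n => ⟨by
      rw [← ca.car, ← cr.car]; exact isFun_iff.2 ⟨_, rfl⟩, fun x y z u v t _ _ g1 g2 g3 g4 g5 => by
      obtain ⟨x, rfl, rfl⟩ := app_enc.1 g3
      obtain ⟨y, rfl, rfl⟩ := app_enc.1 g4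
      obtain ⟨z, rfl, rfl⟩ := app_enc.1 g5
      rw [cr.add, ca.join_eq b g2, (h1 n).1 x y (ca.disj_iff.1 g1)],
      let ⟨c, hc⟩ := (h1 n).2; ⟨enc c, cr.car ▸ enc_mem c, (cr.var_iff ca).2 hc⟩⟩
  rw [car_nat] at h0
  obtain ⟨c, hc, k⟩ := h (enc m) h0 fun x hx => by
    rw [← ca.car] at hx
    obtain ⟨x, rfl⟩ := mem_car.1 hx
    obtain ⟨c, hc⟩ := h2 x
    refine ⟨enc c, cr.car ▸ enc_mem c, fun n f y t g1 g2 g3 => ?_⟩
    obtain ⟨n, rfl, rfl⟩ := app_enc.1 g1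
    obtain rfl := app_enc'.1 g2
    rw [cr.abs_iff.1 g3, cr.le]
    exact hc n
  rw [← cr.car] at hc
  obtain ⟨c, rfl⟩ := mem_car.1 hc
  exact ⟨c, fun n => (cr.var_iff ca).1 (k _ _ (app_enc'.2 rfl))⟩

end Pool.Agent.P.MP_0d6be8_lc.NKW
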