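import Pool.Agent.P.MP_0d6be8_lc.NKW.GM1

set_option autoImplicit false
set_option linter.unusedSectionVars false
set_option synthInstance.maxSize 4000

/-! From the typed Radon measure to its code. -/

noncomputable section

open Pool.Agent.Lib.PosetForcing (App IsFun IsFunOn LeCard IsSucc)
open Pool.Agent.P.MP_5f3b23_lc.Zf (mm om op app_iff isPair_iff op_inj mem_suc)
open Pool.Agent.P.MP_af1204_lc.Inn Filter

namespace Pool.Agent.P.MP_0d6be8_lc.NKW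

variable [Md] [Std]

section code
variable {X Y : Type} [MT X] [MT Y]

theorem rl_car (T : PS X) : car T = enc T :=
  zext fun _ => mem_car.trans (Iff.trans ⟨fun ⟨t, e⟩ => ⟨t.1, t.2, e⟩,
    fun ⟨t, h, e⟩ => ⟨⟨t, h⟩, e⟩⟩ mem_enc.symm)

theorem rl_fin (n : ℕ) : car (Fin n) = num n :=
  zext fun _ => mem_car.trans (Iff.trans ⟨fun ⟨t, e⟩ => ⟨t.1, t.2, e⟩,
    fun ⟨t, h, e⟩ => ⟨⟨t, h⟩, e⟩⟩ mem_num.symm)

theorem rl_leCard : LeCard mm (car X) (car Y) ↔ ∃ f : Fn X Y, Function.Injective f := by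
  refine ⟨fun ⟨j, h1, h2⟩ => ?_, fun ⟨f, hf⟩ => ⟨enc f, isFun_iff.2 ⟨f, rfl⟩, fun x x' y k k' => ?_⟩⟩
  · obtain ⟨e, rfl⟩ := isFun_iff.1 h1
    exact ⟨e, fun m n k => enc_inj.1 (h2 _ _ _ (app_enc'.2 rfl) (app_enc'.2 (by rw [k])))⟩
  · obtain ⟨t, rfl, rfl⟩ := app_enc.1 k
    obtain ⟨t', rfl, e⟩ := app_enc.1 k'
    rw [hf (enc_inj.1 e)]

theorem rl_seq {f : MM} {T : PS Y} (h : IsFun mm f om (enc T)) :
    ∃ B : Fn ℕ Y, enc B = f ∧ ∀ n, B n ∈ T := by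
  rw [← car_nat, ← rl_car] at h
  obtain ⟨B, rfl⟩ := isFun_iff.1 h
  exact ⟨lm fun n => (B n).1, zext fun p => Fn.mem_code.trans Fn.mem_code.symm, fun n => (B n).2⟩

theorem rl_fam {a : MM} (h : ∀ B, B ∈ a → ∀ y, y ∈ B → y ∈ car X) :
    ∃ T : PS (PS X), enc T = a := sub_iff.1 fun B hB => mem_car.2 (sub_iff.1 (h B hB))

theorem rl_eq {B : PS X} {C : MM} (h1 : ∀ y, y ∈ C → y ∈ car X) (h2 : ∀ x, enc x ∈ C ↔ x ∈ B) :
    C = enc B := by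
  obtain ⟨t, rfl⟩ := sub_iff.1 h1
  exact congrArg enc (PS.ext fun x => enc_mem_enc.symm.trans (h2 x))

theorem rl_sub (B : PS X) (y : MM) (h : y ∈ enc B) : y ∈ car X :=
  let ⟨x, _, e⟩ := mem_enc.1 h; e ▸ enc_mem x

theorem rl_iU {B : Fn ℕ (PS X)} {C : MM}
    (h : ∀ u, mm u C ↔ ∃ n D, App mm (enc B) n D ∧ mm u D) : C = enc (iU B) := by
  refine rl_eq (fun y hy => ?_) fun x => (h _).trans ⟨fun ⟨n, D, h1, h2⟩ => ?_,
    fun ⟨n, k⟩ => ⟨_, _, app_enc'.2 rfl, enc_mem_enc.2 k⟩⟩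
  · obtain ⟨n, D, h1, h2⟩ := (h y).1 hy
    obtain ⟨n, -, rfl⟩ := app_enc.1 h1
    exact rl_sub _ y h2
  · obtain ⟨n, -, rfl⟩ := app_enc.1 h1
    exact ⟨n, enc_mem_enc.1 h2⟩

theorem rl_compl (B : PS X) (u : MM) : mm u (enc Bᶜ) ↔ mm u (car X) ∧ ¬ mm u (enc B) :=
  ⟨fun k => ⟨rl_sub _ u k, let ⟨_, h, e⟩ := mem_enc.1 k; fun k' => h (enc_mem_enc.1 (e ▸ k'))⟩,
    fun k => let ⟨_, e⟩ := mem_car.1 k.1
      e ▸ enc_mem_enc.2 fun k' => k.2 (e ▸ enc_mem_enc.2 k')⟩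

end code

variable {A P : Type} [MT A] [MT P] {S : Sp A P}

theorem rl_opn {X : MM} (cp : CP S X) {U : PS P} : NK.IsOpenIn mm X (enc U) ↔ S.Opn U := by
  obtain ⟨rfl, el⟩ := cp
  refine ⟨fun h p hp => ?_, fun h => ⟨rl_sub U, fun u hu => ?_⟩⟩
  · obtain ⟨a, h1, h2⟩ := h.2 _ (enc_mem_enc.2 hp)
    obtain ⟨x, h3, rfl⟩ := (el p a).1 h1
    exact ⟨x, h3, fun q hq => enc_mem_enc.1 (h2 _ (enc_mem q) ((el q _).2 ⟨x, hq, rfl⟩))⟩
  · obtain ⟨p, hp, rfl⟩ := mem_enc.1 hu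
    obtain ⟨x, h1, h2⟩ := h p hp
    refine ⟨enc x, (el p _).2 ⟨x, h1, rfl⟩, fun v hv k => ?_⟩
    obtain ⟨q, rfl⟩ := mem_car.1 hv
    obtain ⟨y, h3, e⟩ := (el q _).1 k
    exact enc_mem_enc.2 (h2 q (enc_inj.1 e ▸ h3))

theorem rl_compact {X : MM} (cp : CP S X) (ne : Nonempty A) {U : PS P} (hU : S.Opn U) :
    NK.IsCompactIn mm om X (enc Uᶜ) := by
  refine ⟨cp.car ▸ rl_sub _, fun C h1 h2 => ?_⟩
  obtain ⟨C, rfl⟩ := rl_fam (X := P) fun B hB => cp.car ▸ (h1 B hB).1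
  obtain ⟨l, l1, l2⟩ := finite_subcover ne hU C
    (fun O hO => (rl_opn cp).1 (h1 _ (enc_mem_enc.2 hO))) fun p hp => by
      obtain ⟨O, g1, g2⟩ := h2 _ ((enc_mem_enc (B := Uᶜ)).2 hp)
      obtain ⟨O, g3, rfl⟩ := mem_enc.1 g1
      exact ⟨O, g3, enc_mem_enc.1 g2⟩
  let F : PS (PS P) := sb fun O => O ∈ l
  have : Finite F := l.finite_toSet.to_subtype
  choose g hg using fun O : F => List.mem_iff_get.1 (show O.1 ∈ l from O.2)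
  refine ⟨enc F, num l.length, fun y hy => ?_, num_mem_om _, ?_, fun u hu => ?_⟩
  · obtain ⟨O, g1, rfl⟩ := mem_enc.1 hy
    exact enc_mem_enc.2 (l1 O g1)
  · rw [← rl_car, ← rl_fin]
    exact rl_leCard.2 ⟨⟨g, DD.finite g⟩, fun s t e =>
      Subtype.ext ((hg s).symm.trans ((congrArg l.get e).trans (hg t)))⟩
  · obtain ⟨p, hp, rfl⟩ := mem_enc.1 hu
    obtain ⟨O, g1, g2⟩ := l2 p hp
    exact ⟨enc O, enc_mem_enc.2 g1, enc_mem_enc.2 g2⟩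

variable {Q : Type} [MT Q] [Field Q] [LinearOrder Q] [IsStrictOrderedRing Q] [RF Q]

theorem radon_of {R add rle o X Sg : MM} (cr : CR Q R add rle o) (cp : CP S X) (ne : Nonempty A)
    (hS : NK.IsBorel mm om X Sg) {M : PS (PS P)} {μ : Fn (PS P) Q} (h : Rad S M μ) :
    ∃ m, NK.IsRadon mm om R add rle o X Sg m ∧ ¬ NK.CountableType mm om R rle o Sg m := by
  obtain ⟨rfl, cadd, cle, rfl⟩ := cr
  obtain ⟨T, rfl⟩ := rl_fam (X := P) fun B hB => cp.car ▸ hS.1.1 B hB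
  have hM : ∀ B ∈ T, B ∈ M := fun B hB => by
    refine enc_mem_enc.1 (hS.2 (enc M) ⟨fun B e => ?_, fun O e => ?_, fun B C e e' => ?_,
      fun f C e e' => ?_⟩ _ (enc_mem_enc.2 hB))
    · obtain ⟨B, -, rfl⟩ := mem_enc.1 e
      exact cp.car ▸ rl_sub B
    · obtain ⟨O, rfl⟩ := sub_iff.1 (cp.car ▸ e.1 : ∀ y, y ∈ O → y ∈ car P)
      exact enc_mem_enc.2 (h.opn O ((rl_opn cp).1 e))
    · obtain ⟨B, k, rfl⟩ := mem_enc.1 e
      obtain rfl : C = enc Bᶜ := zext fun u => (e' u).trans (cp.car ▸ (rl_compl B u).symm)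
      exact enc_mem_enc.2 (h.co B k)
    · obtain ⟨B, rfl, k⟩ := rl_seq e
      exact rl_iU e' ▸ enc_mem_enc.2 (h.un B k)
  have ho : ∀ U, S.Opn U → U ∈ T := fun U hU => enc_mem_enc.1 (hS.1.2.1 _ ((rl_opn cp).2 hU))
  let m : Fn T Q := lm fun B => μ B.1
  have val : ∀ B x, App mm (enc m) B x ↔ ∃ t ∈ T, enc t = B ∧ enc (μ t) = x := fun B x =>
    app_enc.trans ⟨fun ⟨t, e⟩ => ⟨t.1, t.2, e⟩, fun ⟨t, k, e⟩ => ⟨⟨t, k⟩, e⟩⟩
  have val' : ∀ (B : PS P) x, App mm (enc m) (enc B) x → x = enc (μ B) := fun B x k =>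
    let ⟨_, _, e1, e2⟩ := (val _ _).1 k; enc_inj.1 e1 ▸ e2.symm
  refine ⟨enc m, ⟨rl_car T ▸ isFun_iff.2 ⟨m, rfl⟩, fun B x e => ?_, fun B hB e => ?_,
    fun f s C x h1 h2 h3 h4 h5 => ?_, fun B x e => ?_⟩, fun ⟨D, d1, d2, d3⟩ => ?_⟩
  · obtain ⟨t, -, -, rfl⟩ := (val B x).1 e
    exact (cle _ _).2 (h.nonneg t)
  · obtain ⟨t, k, rfl⟩ := mem_enc.1 hB
    obtain rfl : t = ∅ := PS.ext fun p => ⟨fun g => e _ (enc_mem_enc.2 g), False.elim⟩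
    exact (val _ _).2 ⟨∅, k, rfl, congrArg enc h.empty⟩
  · obtain ⟨B, rfl, k⟩ := rl_seq h1
    obtain ⟨G, rfl⟩ := isFun_iff.1 (car_nat ▸ h3.1 : IsFun mm s (car ℕ) (car Q))
    have e1 : ∀ n, G n = ∑ i ∈ Finset.range n, μ (B i) := fun n => by
      induction n with
      | zero => exact (enc_inj.1 ((app_enc' (x := 0)).1
          (h3.2.1 _ (num_mem_om 0) fun x g => by simpa using mem_num.1 g))).symm
      | succ n ih =>
        rw [Finset.sum_range_succ, ← ih]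
        exact enc_inj.1 ((cadd _ _ _).1 (h3.2.2 (num n) (num (n + 1)) _ _ _ (fun _ => mem_suc)
          ((app_enc' (x := n)).2 rfl) ⟨_, (app_enc' (x := n)).2 rfl,
            (val _ _).2 ⟨B n, k n, rfl, rfl⟩⟩ ((app_enc' (x := n + 1)).2 rfl)))
    obtain rfl := rl_iU h4
    obtain rfl := val' _ _ h5
    refine ⟨enc_mem _, fun b hb => ?_⟩
    obtain ⟨b, rfl⟩ := mem_car.1 hb
    rw [cle, h.sum B (fun n => hM _ (k n)) fun i j p g g' => enc_inj.1 (h2 _ _ _ _ _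
      (app_enc'.2 rfl) (app_enc'.2 rfl) (enc_mem_enc.2 g) (enc_mem_enc.2 g'))]
    refine ⟨fun g y ⟨n, g'⟩ => ?_, fun g n => e1 n ▸ (cle _ _).1 (g _ ⟨_, app_enc'.2 rfl⟩)⟩
    obtain ⟨n, -, rfl⟩ := app_enc.1 g'
    exact (cle _ _).2 (e1 n ▸ g n)
  · obtain ⟨B, hB, rfl, rfl⟩ := (val B x).1 e
    refine ⟨enc_mem _, fun b hb => ?_⟩
    obtain ⟨b, rfl⟩ := mem_car.1 hb
    rw [cle]
    refine ⟨fun g y ⟨K, _, k2, k3⟩ => ?_, fun g => h.inner B (hM B hB) b fun U hU hUB =>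
      (cle _ _).1 (g _ ⟨enc Uᶜ, rl_compact cp ne hU, fun u hu => ?_, (val _ _).2 ⟨Uᶜ,
        enc_mem_enc.1 (hS.1.2.2.1 _ _ (enc_mem_enc.2 (ho U hU)) (cp.car ▸ rl_compl U)), rfl, rfl⟩⟩)⟩
    · obtain ⟨K, -, rfl, rfl⟩ := (val K y).1 k3
      exact (cle _ _).2 ((h.mono K B fun p hp => enc_mem_enc.1 (k2 _ (enc_mem_enc.2 hp))).trans g)
    · obtain ⟨p, hp, rfl⟩ := mem_enc.1 hu
      exact enc_mem_enc.2 (hUB hp)
  · classical
    obtain ⟨q, q1, q2⟩ := h.far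
    obtain ⟨D, rfl⟩ := sub_iff.1 fun y hy => rl_sub T y (d1 y hy)
    rw [← rl_car, ← car_nat] at d2
    obtain ⟨f, hf⟩ := rl_leCard.1 d2
    obtain ⟨a, ha⟩ := q2 D ⟨lm fun B => if k : B ∈ D then f ⟨B, k⟩ else 0, fun B C k k' e => by
      simp only [lm_apply, dif_pos k, dif_pos k'] at e
      exact congrArg Subtype.val (hf e)⟩
    obtain ⟨F, V, x, f1, f2, f3, f4⟩ := d3 (enc (S.bs a)) (enc q)
      (enc_mem_enc.2 (ho _ fun p hp => ⟨a, hp, fun _ k => k⟩)) (enc_mem q)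
      fun k => absurd ((cle _ _).1 k) (not_le.2 q1)
    obtain ⟨F, k, rfl⟩ := mem_enc.1 f1
    obtain rfl : V = enc ((S.bs a \ F) ∪ (F \ S.bs a)) := rl_eq
      (fun y hy => ((f2 y).1 hy).elim (fun g => rl_sub _ y g.1) fun g => rl_sub _ y g.1)
      fun p => (f2 _).trans (or_congr (and_congr enc_mem_enc (not_congr enc_mem_enc))
        (and_congr enc_mem_enc (not_congr enc_mem_enc)))
    obtain rfl := val' _ _ f3
    exact f4 ((cle _ _).2 (ha F k))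

end Pool.Agent.P.MP_0d6be8_lc.NKW
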