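import Pool.Agent.P.MP_0d6be8_lc.NKW.GDef

set_option autoImplicit false
set_option linter.unusedSectionVars false
set_option synthInstance.maxSize 4000

/-! The typed algebra and its points. -/

noncomputable section

open Pool.Agent.P.MP_5f3b23_lc.Zf (mm)
open Pool.Agent.Lib.PosetForcing (App)
open Pool.Agent.P.MP_af1204_lc.Inn

namespace Pool.Agent.P.MP_0d6be8_lc.NKW

variable [Md] [Std]

theorem exists_ba {a r : MM} (h : NK.IsBoolean mm a r) :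
    ∃ (inf : Fn (El a) (Fn (El a) (El a))) (sup : El a → El a → El a) (cpl : Fn (El a) (El a)),
      NL.BAx (fun x y : El a => App mm r (enc x) (enc y)) (fun x y => inf x y) sup cpl := by
  obtain ⟨⟨a0, h0⟩, ⟨o1, o2, o3⟩, lat, dis, cp⟩ := h
  obtain ⟨inf, hi⟩ := chs2 (R := fun x y c : El a => ∀ z : El a, App mm r (enc z) (enc c) ↔
      App mm r (enc z) (enc x) ∧ App mm r (enc z) (enc y)) fun x y =>
    let ⟨c, hc⟩ := (lat x.1 y.1 x.2 y.2).1; ⟨⟨c, hc.1⟩, fun z => hc.2 z.1 z.2⟩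
  have h2 : ∀ x y : El a, ∃ c : El a, NK.IsJoin mm a r c.1 x.1 y.1 := fun x y =>
    let ⟨c, hc⟩ := (lat x.1 y.1 x.2 y.2).2; ⟨⟨c, hc.1⟩, hc⟩
  choose sup hs using h2
  obtain ⟨cpl, hc⟩ := chs (R := fun x c : El a => (∀ y z : El a, App mm r (enc y) (enc x) →
      App mm r (enc y) (enc c) → App mm r (enc y) (enc z)) ∧ ∀ y z : El a,
      App mm r (enc x) (enc y) → App mm r (enc c) (enc y) → App mm r (enc z) (enc y)) fun x =>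
    let ⟨c, hc⟩ := cp x.1 x.2
    ⟨⟨c, hc.1⟩, fun y z => hc.2.1 y.1 z.1 y.2 z.2, fun y z => hc.2.2 y.1 z.1 y.2 z.2⟩
  have hi' : ∀ x y : El a, NK.IsMeet mm a r (inf x y).1 x.1 y.1 := fun x y =>
    ⟨(inf x y).2, fun z hz => hi x y ⟨z, hz⟩⟩
  exact ⟨inf, sup, cpl, ⟨⟨a0, h0⟩⟩, fun x => o1 x.1 x.2,
    fun x y g g' => Subtype.ext (o2 _ _ x.2 y.2 g g'), fun x y z => o3 x.1 y.1 z.1 x.2 y.2 z.2,
    hi, fun x y z => (hs x y).2 z.1 z.2,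
    fun x y z t g g' => ((dis x.1 y.1 z.1 _ _ _ _ x.2 y.2 z.2 (hs y z) (hi' x (sup y z)) (hi' x y)
      (hi' x z)).2 t.1 t.2).2 ⟨g, g'⟩, fun x => (hc x).1, fun x => (hc x).2⟩

theorem exists_space {a r X : MM} (h : NK.IsBoolean mm a r) (hX : NK.IsStone mm a r X) :
    ∃ (S : Sp (El a) (El X)) (sup : El a → El a → El a),
      NL.BAx (fun x y : El a => App mm r (enc x) (enc y)) S.inf sup S.cpl ∧ CP S X := by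
  obtain ⟨inf, sup, cpl, b⟩ := exists_ba h
  refine ⟨⟨fun x y => inf x y, cpl, fun p x => enc x ∈ enc p, inferInstance, inferInstance,
    inferInstance, fun p x y => ?_, fun p x => ?_, fun p q e => ?_, fun q h1 h2 => ?_⟩, sup, b,
    car_El X, fun p y => ⟨fun g => ⟨⟨y, ((hX p.1).1 p.2).1 y g⟩, g, rfl⟩,
      fun g => g.elim fun _ k => k.2 ▸ k.1⟩⟩
  · obtain ⟨-, u2, u3, -⟩ := (hX p.1).1 p.2
    exact ⟨fun g => ⟨u2 _ _ g x.2 (b.inf_l x y), u2 _ _ g y.2 (b.inf_r x y)⟩,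
      fun g => u3 _ _ _ g.1 g.2 ⟨(inf x y).2, fun z hz => b.le_inf x y ⟨z, hz⟩⟩⟩
  · have := ((hX p.1).1 p.2).2.2.2 x.1 (cpl x).1 x.2 ⟨(cpl x).2,
      fun y z hy hz => b.cpl_bot x ⟨y, hy⟩ ⟨z, hz⟩, fun y z hy hz => b.cpl_top x ⟨y, hy⟩ ⟨z, hz⟩⟩
    exact ⟨fun g g' => this.1 g' g, fun g => by_contra fun g' => g (this.2 g')⟩
  · exact Subtype.ext (zext fun x => ⟨fun g => (e ⟨x, ((hX p.1).1 p.2).1 x g⟩).1 g,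
      fun g => (e ⟨x, ((hX q.1).1 q.2).1 x g⟩).2 g⟩)
  · have u1 : ∀ y, y ∈ enc q → y ∈ a := fun y hy => let ⟨t, _, k⟩ := mem_enc.1 hy; k ▸ t.2
    have u2 : ∀ x : El a, x.1 ∈ enc q ↔ x ∈ q := fun x => enc_mem_enc (x := x)
    have mono : ∀ x y : El a, App mm r (enc x) (enc y) → x ∈ q → y ∈ q := fun x y e g =>
      ((h1 x y).1 (by rwa [show inf x y = x from b.inf_eq e])).2
    refine ⟨⟨enc q, (hX _).2 ⟨u1, fun x y hx hy e => (u2 ⟨y, hy⟩).2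
      (mono ⟨x, u1 x hx⟩ _ e ((u2 ⟨x, u1 x hx⟩).1 hx)), fun x y c hx hy e => ?_,
      fun x c hx e => ⟨fun g g' => ?_, fun g => by_contra fun g' => g ?_⟩⟩⟩, u2⟩
    · exact (u2 ⟨c, e.1⟩).2 (mono (inf ⟨x, u1 x hx⟩ ⟨y, u1 y hy⟩) _
        ((e.2 _ (inf _ _).2).2 ⟨b.inf_l ⟨x, u1 x hx⟩ ⟨y, u1 y hy⟩, b.inf_r ⟨x, u1 x hx⟩ ⟨y, u1 y hy⟩⟩)
        ((h1 _ _).2 ⟨(u2 ⟨x, u1 x hx⟩).1 hx, (u2 ⟨y, u1 y hy⟩).1 hy⟩))
    · exact (h2 ⟨x, hx⟩).1 (mono (inf ⟨x, hx⟩ ⟨c, e.1⟩) _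
        (e.2.1 _ _ (inf _ _).2 (cpl _).2 (b.inf_l ⟨x, hx⟩ ⟨c, e.1⟩) (b.inf_r ⟨x, hx⟩ ⟨c, e.1⟩))
        ((h1 _ _).2 ⟨(u2 ⟨x, hx⟩).1 g, (u2 ⟨c, e.1⟩).1 g'⟩)) ((u2 ⟨x, hx⟩).1 g)
    · have s1 := (b.sup_le ⟨x, hx⟩ ⟨c, e.1⟩ _).1 (b.refl _)
      refine (u2 ⟨c, e.1⟩).2 (mono (cpl ⟨x, hx⟩) _ (b.trans _ _ _ ((b.le_inf _ _ _).2 ⟨b.refl _,
        e.2.2 _ _ (sup ⟨x, hx⟩ ⟨c, e.1⟩).2 (cpl ⟨x, hx⟩).2 s1.1 s1.2⟩) (b.distrib _ _ _ _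
          (b.cpl_bot ⟨x, hx⟩ _ _ (b.inf_r _ _) (b.inf_l _ _)) (b.inf_r _ _)))
        ((h2 _).2 fun k => g' ((u2 ⟨x, hx⟩).2 k)))

end Pool.Agent.P.MP_0d6be8_lc.NKW
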