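import Pool.Agent.P.MP_0d6be8_lc.NKW.GDef

set_option autoImplicit false
set_option linter.unusedSectionVars false
set_option synthInstance.maxSize 4000

/-! The typed field of a complete ordered field of the model. -/

noncomputable section

open Pool.Agent.P.MP_5f3b23_lc.Zf (mm)
open Pool.Agent.Lib.PosetForcing (App)
open Pool.Agent.P.MP_af1204_lc.Inn

namespace Pool.Agent.P.MP_0d6be8_lc.NKW

variable [Md] [Std]

theorem exists_op {R f : MM} (h : NK.IsOp mm f R) : ∃ g : El R → El R → El R,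
    ∀ x y z, NK.App2 mm f x.1 y.1 z ↔ z = (g x y).1 := by
  have h1 : ∀ x y : El R, ∃ z : El R, NK.App2 mm f x.1 y.1 z.1 := fun x y =>
    let ⟨z, h1, h2⟩ := h.1 x.1 y.1 x.2 y.2; ⟨⟨z, h1⟩, h2⟩
  choose g hg using h1
  exact ⟨g, fun x y z => ⟨fun e => h.2 _ _ _ _ e (hg x y), fun e => e ▸ hg x y⟩⟩

theorem exists_reals {R add mul rle o : MM} (h : NK.IsReals mm R add mul rle o) :
    ∃ (_ : Field (El R)) (_ : LinearOrder (El R)) (_ : IsStrictOrderedRing (El R)) (_ : RF (El R)),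
      CR (El R) R add rle o := by
  obtain ⟨e, ⟨a1, a2, a3, a4, a5⟩, ⟨m1, m2, m3, m4, m5⟩, ne, neg, inv, dis, ⟨o1, o2, o3⟩, tot,
    ale, mnn, sup⟩ := h
  obtain ⟨ad, had⟩ := exists_op a1
  obtain ⟨mu, hmu⟩ := exists_op m1
  have A : ∀ x y, NK.App2 mm add x.1 y.1 (ad x y).1 := fun x y => (had x y _).2 rfl
  have M : ∀ x y, NK.App2 mm mul x.1 y.1 (mu x y).1 := fun x y => (hmu x y _).2 rfl
  have ax : NL.OFld ad mu ⟨o, a2⟩ ⟨e, m2⟩ fun x y : El R => App mm rle x.1 y.1 := by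
    refine ⟨fun a b c => ?_, fun a => ?_, fun a => ?_,
      fun a b c => ?_, fun a b => ?_, fun a => ?_, fun a ha => ?_, fun a b c => ?_,
      fun g => ne (congrArg Subtype.val g), fun a => o1 a.1 a.2,
      fun a b c => o3 a.1 b.1 c.1 a.2 b.2 c.2, fun a b g g' => Subtype.ext (o2 _ _ a.2 b.2 g g'),
      fun a b => tot a.1 b.1 a.2 b.2,
      fun a b c g => ale a.1 b.1 c.1 _ _ a.2 b.2 c.2 g (A a c) (A b c),
      fun a b g g' => mnn a.1 b.1 _ a.2 b.2 g g' (M a b)⟩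
    · exact Subtype.ext ((had a (ad b c) _).1
        (a5 a.1 b.1 c.1 _ _ _ a.2 b.2 c.2 (A a b) (A (ad a b) c) (A b c)))
    · exact (Subtype.ext ((had ⟨o, a2⟩ a _).1 (a4 _ _ _ a.2 a2 (a3 a.1 a.2)))).symm
    · obtain ⟨y, h1, h2⟩ := neg a.1 a.2
      exact ⟨⟨y, h1⟩, (Subtype.ext ((had ⟨y, h1⟩ a _).1 (a4 _ _ _ a.2 h1 h2))).symm⟩
    · exact Subtype.ext ((hmu a (mu b c) _).1
        (m5 a.1 b.1 c.1 _ _ _ a.2 b.2 c.2 (M a b) (M (mu a b) c) (M b c)))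
    · exact Subtype.ext ((hmu b a _).1 (m4 _ _ _ a.2 b.2 (M a b)))
    · exact (Subtype.ext ((hmu ⟨e, m2⟩ a _).1 (m4 _ _ _ a.2 m2 (m3 a.1 a.2)))).symm
    · obtain ⟨y, h1, h2⟩ := inv a.1 a.2 fun g => ha (Subtype.ext g)
      exact ⟨⟨y, h1⟩, (Subtype.ext ((hmu a ⟨y, h1⟩ _).1 h2)).symm⟩
    · exact Subtype.ext ((had (mu a b) (mu a c) _).1 (dis a.1 b.1 c.1 _ _ _ _ a.2 b.2 c.2 (A b c)
        (M a (ad b c)) (M a b) (M a c)))
  let _ := ax.field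
  let _ := ax.order
  have od : OD (El R) := ⟨(inferInstance : DP fun p : Cx fun _ : Cw (El R) => El R =>
    App mm rle (enc p.1.1) (enc p.2))⟩
  refine ⟨ax.field, ax.order, ax.strict, @RF.mk _ _ _ _ _ od ⟨?_⟩ ⟨?_⟩ fun G hG hb => ?_,
    car_El R, had, fun _ _ => Iff.rfl, rfl⟩
  · exact (inferInstance : DP fun p : Cx fun _ : (Cx fun _ : El R => El R) => El R =>
      NK.App2 mm add (enc p.1.1) (enc p.1.2) (enc p.2)).congr fun p =>
        ((had _ _ _).trans (eq_comm.trans Subtype.ext_iff.symm)).symm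
  · exact (inferInstance : DP fun p : Cx fun _ : (Cx fun _ : El R => El R) => El R =>
      NK.App2 mm mul (enc p.1.1) (enc p.1.2) (enc p.2)).congr fun p =>
        ((hmu _ _ _).trans (eq_comm.trans Subtype.ext_iff.symm)).symm
  · obtain ⟨x, hx⟩ := hG
    obtain ⟨b, hb⟩ := hb
    obtain ⟨c, c1, c2⟩ := sup (enc G) (fun y hy => let ⟨t, _, k⟩ := mem_enc.1 hy; k ▸ t.2)
      ⟨_, enc_mem_enc.2 hx⟩ ⟨b.1, b.2, fun y hy => let ⟨t, ht, k⟩ := mem_enc.1 hy; k ▸ hb t ht⟩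
    exact ⟨⟨c, c1⟩, fun b => (c2 b.1 b.2).trans ⟨fun g y hy => g y.1 (enc_mem_enc.2 hy),
      fun g y hy => let ⟨t, ht, k⟩ := mem_enc.1 hy; k ▸ g t ht⟩⟩

end Pool.Agent.P.MP_0d6be8_lc.NKW
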