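import Pool.Agent.P.MP_0d6be8_lc.NKW.Trans
import Pool.Agent.P.MP_0d6be8_lc.NKW.GM2
import Pool.Agent.P.MP_0d6be8_lc.NKW.GNik
import Pool.Agent.P.MP_0d6be8_lc.NKW.GRLink
import Pool.Agent.P.MP_0d6be8_lc.NKW.GSpc
import Pool.Agent.P.MP_0d6be8_lc.NKW.GStr

set_option autoImplicit false
set_option linter.unusedSectionVars false
set_option synthInstance.maxSize 4000

/-! The model of MA. -/

open Pool.Agent.Lib.PosetForcing
open Pool.Agent.P.MP_5f3b23_lc.Zf (mm om)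
open Pool.Agent.P.MP_af1204_lc.Inn

namespace Pool.Agent.P.MP_0d6be8_lc.NKW

theorem seq_of_leCard [Md] [Std] {a : MM} (h : LeCard mm om a) :
    ∃ e : Fn ℕ (El a), Function.Injective e := by
  obtain ⟨j, h1, h2⟩ := h
  rw [← car_nat, ← car_El a] at h1
  obtain ⟨e, rfl⟩ := isFun_iff.1 h1
  exact ⟨e, fun m n k => enc_inj.1 (h2 _ _ _ (app_enc'.2 rfl) (app_enc'.2 (by rw [k])))⟩

theorem goal_of_core [Md] [Std] (core : ∀ (A P : Type) [MT A] [MT P] (S : Sp A P), S.P2 →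
    ∀ y : Fn ℕ P, Function.Injective y → ¬ S.Tame) : NK.Goal mm (om : MM) := by
  intro R add mul rle o hR a r hB hI hN X Sg hX hS
  obtain ⟨_, _, _, _, cr⟩ := exists_reals hR
  obtain ⟨S, sup, b, cp⟩ := exists_space hB hX
  obtain ⟨e, he⟩ := seq_of_leCard hI
  obtain ⟨y, hy⟩ := exists_points b e he
  obtain ⟨M, μ, h⟩ := exists_radon (Q := El R) b.ne (core _ _ S
    (p2_of_nik b (nik_of cr ⟨car_El a, fun _ _ => Iff.rfl⟩ b hN)) y hy)
  exact radon_of cr cp b.ne hS h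

theorem final : ∃ (M : Type) (mem : M → M → Prop), IsZFC mem ∧ ∃ w c, IsOmega mem w ∧
    IsPow mem c w ∧ MP_93aff1_lc.MA mem w c ∧ NK.Goal mem w :=
  final_of goal_of_core

end Pool.Agent.P.MP_0d6be8_lc.NKW
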