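import Pool.Agent.P.MP_0d6be8_lc.NKW.Core1
import Pool.Agent.P.MP_0d6be8_lc.NKLib
import Pool.Agent.P.MP_0d6be8_lc.NKStmt

set_option autoImplicit false
set_option linter.unusedSectionVars false
set_option synthInstance.maxSize 4000

/-! Typed reals, charges, the Nikodym property, Radon measures, and their codes. -/

noncomputable section

open Pool.Agent.Lib.PosetForcing (App IsFun IsFunOn)
open Pool.Agent.P.MP_5f3b23_lc.Zf (mm om op app_iff isPair_iff op_inj)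
open Pool.Agent.P.MP_af1204_lc.Inn Filter

namespace Pool.Agent.P.MP_0d6be8_lc.NKW

variable [Md] [Std]

/-- a complete ordered field of the model -/
class RF (Q : Type) [MT Q] [Field Q] [LinearOrder Q] : Prop extends OD Q where
  add : DP3 fun a b c : Q => a + b = c
  mul : DP3 fun a b c : Q => a * b = c
  cpl : ∀ G : PS Q, (∃ x, x ∈ G) → (∃ b, ∀ x ∈ G, x ≤ b) → ∃ c, ∀ b, c ≤ b ↔ ∀ x ∈ G, x ≤ b

section rf
variable {Q : Type} [MT Q] [Field Q] [LinearOrder Q] [IsStrictOrderedRing Q] [h : RF Q]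
  {Γ : Type} [MC Γ] (a b : Γ → Q) [DD a] [DD b]

instance dd_radd : DD fun g => a g + b g :=
  have : DP fun p : Cx fun _ : Γ => Q => a p.1 + b p.1 = p.2 :=
    h.add.out.comp fun p : Cx fun _ : Γ => Q => ⟨⟨a p.1, b p.1⟩, p.2⟩
  DD.of_spec (fun g t => a g + b g = t) fun _ _ => eq_comm

instance dd_rmul : DD fun g => a g * b g :=
  have : DP fun p : Cx fun _ : Γ => Q => a p.1 * b p.1 = p.2 :=
    h.mul.out.comp fun p : Cx fun _ : Γ => Q => ⟨⟨a p.1, b p.1⟩, p.2⟩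
  DD.of_spec (fun g t => a g * b g = t) fun _ _ => eq_comm

instance dd_rneg : DD fun g => - a g :=
  DD.of_spec (fun g t => t + a g = 0) fun _ _ => add_eq_zero_iff_eq_neg

instance dd_rsub : DD fun g => a g - b g :=
  DD.of_spec (fun g t => t + b g = a g) fun _ _ => eq_sub_iff_add_eq.symm

instance dd_rinv : DD fun g => (a g)⁻¹ :=
  DD.of_spec (fun g t => (a g = 0 ∧ t = 0) ∨ a g * t = 1) fun g t => by
    by_cases e : a g = 0
    · simp [e]
    · simp only [e, false_and, false_or]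
      exact ⟨fun k => eq_inv_of_mul_eq_one_right k, fun k => k ▸ mul_inv_cancel₀ e⟩

instance dd_rdiv : DD fun g => a g / b g :=
  (inferInstance : DD fun g => a g * (b g)⁻¹).congr fun _ => div_eq_mul_inv _ _

instance dd_rabs : DD fun g => |a g| := (inferInstance : DD fun g => max (a g) (- a g))

instance dd_rsum (n : Γ → ℕ) [DD n] (f : Γ → ℕ → Q)
    [hf : DD fun p : Cx fun _ : Γ => ℕ => f p.1 p.2] :
    DD fun g => ∑ i ∈ Finset.range (n g), f g i :=
  have : DD fun p : Cx fun _ : (Cx fun _ : Γ => ℕ) => Q => f p.1.1 p.1.2 := hf.comp Cx.fst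
  (inferInstance : DD fun g =>
    Nat.rec (motive := fun _ => Q) 0 (fun k x => x + f g k) (n g)).congr fun g => by
      induction n g with
      | zero => rfl
      | succ n ih => rw [Finset.sum_range_succ, ih]

instance dd_rcast (n : Γ → ℕ) [DD n] : DD fun g => (n g : Q) :=
  (inferInstance : DD fun g => ∑ _i ∈ Finset.range (n g), (1 : Q)).congr fun g => by simp

instance dd_rpow (n : Γ → ℕ) [DD n] : DD fun g => a g ^ n g :=
  (inferInstance : DD fun g =>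
    Nat.rec (motive := fun _ => Q) 1 (fun _ x => x * a g) (n g)).congr fun g => by
      induction n g with
      | zero => exact pow_zero _
      | succ n ih => rw [pow_succ, ih]

theorem exists_lub (G : Q → Prop) [DP G] (h0 : ∃ x, G x) (h1 : ∃ b, ∀ x, G x → x ≤ b) :
    ∃ c, NL.Lub G c :=
  let ⟨c, hc⟩ := h.cpl (sb G) h0 h1
  ⟨c, (hc c).1 le_rfl, fun y => (hc y).2⟩

end rf

section nik
variable {A : Type} [MT A] (le : A → A → Prop) (sup : A → A → A)

/-- disjoint elements -/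
def Dj (a b : A) : Prop := ∀ x y, le x a → le x b → le x y

variable {Q : Type} [MT Q] [Field Q] [LinearOrder Q]

/-- the variation is at most `c` -/
def Var (m : A → Q) (c : Q) : Prop :=
  ∀ d : Fn ℕ A, (∀ i j, i ≠ j → Dj le (d i) (d j)) → ∀ n, ∑ i ∈ Finset.range n, |m (d i)| ≤ c

/-- finitely additive and of bounded variation -/
def Chg (m : A → Q) : Prop := (∀ a b, Dj le a b → m (sup a b) = m a + m b) ∧ ∃ c, Var le m c

variable (Q) in
/-- the Nikodym property -/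
def Nik : Prop :=
  ∀ m : Fn ℕ (Fn A Q), (∀ n, Chg le sup (m n)) → (∀ a, ∃ c, ∀ n, |m n a| ≤ c) →
    ∃ c, ∀ n, Var le (m n) c

end nik

section rad
variable {A P : Type} [MT A] [MT P] (S : Sp A P)

/-- open sets of points -/
def Sp.Opn (U : PS P) : Prop := ∀ p, p ∈ U → ∃ a, S.el p a ∧ ∀ q, S.el q a → q ∈ U

instance dp_Opn {Γ : Type} [MC Γ] (U : Γ → PS P) [DD U] : DP fun g => S.Opn (U g) := by
  unfold Sp.Opn; infer_instance

/-- the basic set of an element -/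
def Sp.bs (a : A) : PS P := sb fun p => S.el p a

instance dd_bs {Γ : Type} [MC Γ] (a : Γ → A) [DD a] : DD fun g => S.bs (a g) := by
  unfold Sp.bs; infer_instance

theorem Sp.lib (ne : Nonempty A) : NL.Sp S.inf S.cpl S.el (fun (U : PS P) p => p ∈ U)
    (fun U V => U ∪ V) (fun U V => U ∩ V) (fun U => Uᶜ) S.bs :=
  ⟨ne, S.el_inf, S.el_cpl, fun _ _ _ => Iff.rfl, fun _ _ _ => Iff.rfl, fun _ _ => Iff.rfl,
    fun _ _ => Iff.rfl⟩

variable {Q : Type} [MT Q] [Field Q] [LinearOrder Q]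

/-- `μ` is a Radon measure of uncountable type on the σ-algebra `M` -/
structure Rad (M : PS (PS P)) (μ : Fn (PS P) Q) : Prop where
  opn : ∀ U, S.Opn U → U ∈ M
  co : ∀ B ∈ M, Bᶜ ∈ M
  un : ∀ B : Fn ℕ (PS P), (∀ n, B n ∈ M) → iU B ∈ M
  nonneg : ∀ B, 0 ≤ μ B
  empty : μ ∅ = 0
  mono : ∀ B C, B ⊆ C → μ B ≤ μ C
  sum : ∀ B : Fn ℕ (PS P), (∀ n, B n ∈ M) → (∀ i j p, p ∈ B i → p ∈ B j → i = j) →
    ∀ b, μ (iU B) ≤ b ↔ ∀ n, ∑ i ∈ Finset.range n, μ (B i) ≤ b
  inner : ∀ B ∈ M, ∀ b, (∀ U, S.Opn U → Uᶜ ⊆ B → μ Uᶜ ≤ b) → μ B ≤ b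
  far : ∃ q, 0 < q ∧ ∀ D : PS (PS P), Cnt (· ∈ D) →
    ∃ a, ∀ F ∈ D, q ≤ μ ((S.bs a \ F) ∪ (F \ S.bs a))

end rad

/-! ### codes -/

/-- `Q` is coded by the field `(R, add, le, o)` -/
structure CR (Q : Type) [MT Q] [Field Q] [LinearOrder Q] (R add rle o : MM) : Prop where
  car : car Q = R
  add : ∀ (x y : Q) (z : MM), NK.App2 mm add (enc x) (enc y) z ↔ z = enc (x + y)
  le : ∀ x y : Q, App mm rle (enc x) (enc y) ↔ x ≤ y
  zero : enc (0 : Q) = o

/-- the order `le` on `A` is coded by `(a, r)` -/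
structure CA {A : Type} [MT A] (le : A → A → Prop) (a r : MM) : Prop where
  car : car A = a
  le : ∀ x y : A, App mm r (enc x) (enc y) ↔ le x y

/-- the points of `S` are coded by the elements of `X` -/
structure CP {A P : Type} [MT A] [MT P] (S : Sp A P) (X : MM) : Prop where
  car : car P = X
  el : ∀ (p : P) (y : MM), y ∈ enc p ↔ ∃ x : A, S.el p x ∧ enc x = y

section code
variable {X Y : Type} [MT X] [MT Y]

theorem app_enc {f : Fn X Y} {x y : MM} : App mm (enc f) x y ↔ ∃ t, enc t = x ∧ enc (f t) = y :=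
  app_iff.trans (Fn.mem_code.trans (exists_congr fun _ =>
    ⟨op_inj, fun h => by rw [h.1, h.2]⟩))

theorem app_enc' {f : Fn X Y} {x : X} {y : MM} : App mm (enc f) (enc x) y ↔ y = enc (f x) :=
  app_enc.trans ⟨fun ⟨_, h, e⟩ => enc_inj.1 h ▸ e.symm, fun h => ⟨x, rfl, h.symm⟩⟩

theorem isFunOn_enc (f : Fn X Y) {V : MM → Prop} (h : ∀ x, V (enc (f x))) :
    IsFunOn mm (enc f) (car X) V := by
  refine ⟨fun p hp => ?_, fun x hx => ?_, fun x y y' h1 h2 => ?_⟩
  · obtain ⟨x, rfl⟩ := Fn.mem_code.1 hp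
    exact ⟨_, _, isPair_iff.2 rfl, enc_mem x, h x⟩
  · obtain ⟨t, rfl⟩ := mem_car.1 hx
    exact ⟨_, app_enc'.2 rfl⟩
  · obtain ⟨t, rfl, rfl⟩ := app_enc.1 h1
    exact (app_enc'.1 h2).symm

instance dd_op {Γ : Type} [MC Γ] (a b : Γ → MM) [ha : DD a] [hb : DD b] :
    DD fun g => op (a g) (b g) := by
  obtain ⟨A, _, h1⟩ := ha.out
  obtain ⟨B, _, h2⟩ := hb.out
  exact DD.of (fun x => op (A x) (B x)) fun g => by rw [h1, h2]; rfl

instance dp_App {Γ : Type} [MC Γ] (f a b : Γ → MM) [DD f] [DD a] [DD b] :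
    DP fun g => App mm (f g) (a g) (b g) :=
  (inferInstance : DP fun g => op (a g) (b g) ∈ f g).congr fun _ => app_iff

theorem app2_iff {f x y z : MM} : NK.App2 mm f x y z ↔ op (op x y) z ∈ f := by
  simp only [NK.App2, isPair_iff, app_iff, exists_eq_left]

instance dp_App2 {Γ : Type} [MC Γ] (f a b c : Γ → MM) [DD f] [DD a] [DD b] [DD c] :
    DP fun g => NK.App2 mm (f g) (a g) (b g) (c g) :=
  (inferInstance : DP fun g => op (op (a g) (b g)) (c g) ∈ f g).congr fun _ => app2_iff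

theorem isFun_iff {f : MM} : IsFun mm f (car X) (car Y) ↔ ∃ t : Fn X Y, enc t = f := by
  refine ⟨fun h => ?_, fun ⟨t, e⟩ => e ▸ isFunOn_enc t fun x => enc_mem _⟩
  obtain ⟨t, ht⟩ := chs (R := fun (x : X) (y : Y) => App mm f (enc x) (enc y)) fun x => by
    obtain ⟨y, hy⟩ := h.2.1 _ (enc_mem x)
    obtain ⟨x', y', e, -, k⟩ := h.1 _ (app_iff.1 hy)
    obtain ⟨t, rfl⟩ := mem_car.1 k
    obtain ⟨-, rfl⟩ := op_inj (isPair_iff.1 e)
    exact ⟨t, hy⟩
  refine ⟨t, zext fun p => Fn.mem_code.trans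
    ⟨fun ⟨x, e⟩ => e ▸ app_iff.1 (ht x), fun hp => ?_⟩⟩
  obtain ⟨x, y, e, k, -⟩ := h.1 _ hp
  obtain ⟨x, rfl⟩ := mem_car.1 k
  obtain rfl := isPair_iff.1 e
  exact ⟨x, by rw [h.2.2 _ _ _ (ht x) (app_iff.2 hp)]⟩

theorem sub_iff {a : MM} : (∀ y, y ∈ a → y ∈ car X) ↔ ∃ t : PS X, enc t = a :=
  MP_5f3b23_lc.Zf.mem_pow.symm.trans (ps_car a)

theorem mem_enc {B : PS X} {y : MM} : y ∈ enc B ↔ ∃ x, x ∈ B ∧ enc x = y := PS.mem_code

theorem enc_mem_enc {B : PS X} {x : X} : enc x ∈ enc B ↔ x ∈ B := PS.enc_mem_code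

end code

end Pool.Agent.P.MP_0d6be8_lc.NKW
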