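import Pool.Agent.P.MP_0d6be8_lc.NKW.GDef

set_option autoImplicit false
set_option linter.unusedSectionVars false
set_option synthInstance.maxSize 4000

/-! Ultrafilters, compactness of the space of points, two-point measures. -/

noncomputable section

open Pool.Agent.P.MP_af1204_lc.Inn Filter

namespace Pool.Agent.P.MP_0d6be8_lc.NKW

variable [Md] [Std]

/-- what the ultrafilter lemma needs of a Boolean algebra; `z` are the null elements -/
structure PB {B : Type} (le : B → B → Prop) (inf : B → B → B) (cpl : B → B) (z : B → Prop) :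
    Prop where
  refl : ∀ a, le a a
  trans : ∀ a b c, le a b → le b c → le a c
  inf_l : ∀ a b, le (inf a b) a
  inf_r : ∀ a b, le (inf a b) b
  le_inf : ∀ a b c, le c a → le c b → le c (inf a b)
  z_mono : ∀ a b, le a b → z b → z a
  z_cpl : ∀ a, z (inf a (cpl a))
  z_split : ∀ a c, z (inf c a) → z (inf c (cpl a)) → z c

theorem ultra_ext {B : Type} [MT B] {le : B → B → Prop} {inf : B → B → B} {cpl : B → B}
    {z : B → Prop} [DP2 (B := fun _ => B) le] [DP z] (h : PB le inf cpl z) (F : B → Prop) [DP F]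
    (hF : ∀ l : List B, (∀ a ∈ l, F a) → ∃ c, ¬ z c ∧ ∀ a ∈ l, le c a) :
    ∃ q : PS B, (∀ a, F a → a ∈ q) ∧ (∀ a b, inf a b ∈ q ↔ a ∈ q ∧ b ∈ q) ∧
      (∀ a, cpl a ∈ q ↔ a ∉ q) ∧ (∀ a b, le a b → a ∈ q → b ∈ q) ∧ ∀ a, a ∈ q → ¬ z a := by
  obtain ⟨u, h1, h2, h3⟩ := exists_max (fun l : List B => ∃ c, ¬ z c ∧ ∀ a ∈ l, le c a) F hF
  have key : ∀ x, (∀ l : List B, (∀ a ∈ l, a ∈ u) →
      ∃ c, ¬ z c ∧ le c x ∧ ∀ a ∈ l, le c a) → x ∈ u := fun x hx => by
    classical
    refine h3 x fun l hl => ?_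
    obtain ⟨c, c1, c2, c3⟩ := hx (l.filter (· ∈ u)) (by simp)
    refine ⟨c, c1, fun a ha => ?_⟩
    by_cases e : a ∈ u
    · exact c3 a (by simp [ha, e])
    · exact (hl a ha).resolve_right e ▸ c2
  have up : ∀ a b, le a b → a ∈ u → b ∈ u := fun a b e ha => key b fun l hl => by
    obtain ⟨c, c1, c2⟩ := h2 (a :: l) (by simpa [ha] using hl)
    exact ⟨c, c1, h.trans _ _ _ (c2 a (by simp)) e, fun w hw => c2 w (by simp [hw])⟩
  refine ⟨u, h1, fun a b => ⟨fun e => ⟨up _ _ (h.inf_l _ _) e, up _ _ (h.inf_r _ _) e⟩,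
    fun e => key _ fun l hl => ?_⟩, fun a => ⟨fun e e' => ?_, fun e => key _ fun l hl => ?_⟩, up,
    fun a ha hz => ?_⟩
  · obtain ⟨c, c1, c2⟩ := h2 (a :: b :: l) (by simpa [e.1, e.2] using hl)
    exact ⟨c, c1, h.le_inf _ _ _ (c2 a (by simp)) (c2 b (by simp)), fun w hw => c2 w (by simp [hw])⟩
  · obtain ⟨c, c1, c2⟩ := h2 [a, cpl a] (by simp [e, e'])
    exact c1 (h.z_mono _ _ (h.le_inf _ _ _ (c2 a (by simp)) (c2 (cpl a) (by simp))) (h.z_cpl a))
  · by_contra hc
    refine e (key _ fun l' hl' => ?_)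
    obtain ⟨c, c1, c2⟩ := h2 (l ++ l') fun a ha => (List.mem_append.1 ha).elim (hl a) (hl' a)
    refine ⟨inf c a, fun k => c1 (h.z_split a c k (by_contra fun k' => hc
      ⟨_, k', h.inf_r _ _, fun w hw => h.trans _ _ _ (h.inf_l _ _)
        (c2 w (List.mem_append_left _ hw))⟩)), h.inf_r _ _, fun w hw =>
      h.trans _ _ _ (h.inf_l _ _) (c2 w (List.mem_append_right _ hw))⟩
  · obtain ⟨c, c1, c2⟩ := h2 [a] (by simpa)
    exact c1 (h.z_mono _ _ (c2 a (by simp)) hz)

theorem pb_set (J : Type) [MT J] : PB (B := PS J) (fun X Y => ∀ j, j ∈ X → j ∈ Y)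
    (fun X Y => X ∩ Y) (fun X => Xᶜ) (fun X => ∀ j, j ∉ X) where
  refl := fun _ _ h => h
  trans := fun _ _ _ h h' j e => h' j (h j e)
  inf_l := fun _ _ _ h => h.1
  inf_r := fun _ _ _ h => h.2
  le_inf := fun _ _ _ h h' j e => ⟨h j e, h' j e⟩
  z_mono := fun _ _ h h' j e => h' j (h j e)
  z_cpl := fun _ _ h => h.2 h.1
  z_split := fun _ _ h h' j e => h' j ⟨e, fun e' => h j ⟨e, e'⟩⟩

variable {A P : Type} [MT A] [MT P]

theorem pb_ba {le : A → A → Prop} {inf sup : A → A → A} {cpl : A → A}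
    (b : NL.BAx le inf sup cpl) : PB le inf cpl fun a => ∀ y, le a y where
  refl := b.refl
  trans := b.trans
  inf_l := b.inf_l
  inf_r := b.inf_r
  le_inf := fun _ _ _ h h' => (b.le_inf _ _ _).2 ⟨h, h'⟩
  z_mono := fun _ _ h h' y => b.trans _ _ _ h (h' y)
  z_cpl := fun a y => b.cpl_bot a _ y (b.inf_l _ _) (b.inf_r _ _)
  z_split := fun _ _ h h' y => b.split (h y) (h' y)

variable {S : Sp A P} {le : A → A → Prop} {sup : A → A → A}

theorem le_of_el [DP2 (B := fun _ => A) le] (b : NL.BAx le S.inf sup S.cpl) {x y : A}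
    (h : ∀ p, S.el p x → S.el p y) : le x y := by
  by_contra hn
  obtain ⟨q, q0, q1, q2, -, -⟩ := ultra_ext (pb_ba b) (fun a => a = S.inf x (S.cpl y))
    fun l hl => ⟨_, fun e => hn (b.split (b.inf_r x y) (e y)), fun a ha => hl a ha ▸ b.refl a⟩
  obtain ⟨p, hp⟩ := S.full q q1 q2
  obtain ⟨h1, h2⟩ := (S.el_inf _ _ _).1 ((hp _).2 (q0 _ rfl))
  exact (S.el_cpl _ _).1 h2 (h p h1)

/-- an infinite algebra has infinitely many points -/
theorem exists_points [DP2 (B := fun _ => A) le] (b : NL.BAx le S.inf sup S.cpl) (e : Fn ℕ A)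
    (he : Function.Injective e) : ∃ y : Fn ℕ P, Function.Injective y := by
  have : Infinite P := by
    by_contra k
    rw [not_infinite_iff_finite] at k
    exact Finite.not_infinite (Finite.of_injective (fun n => {p | S.el p (e n)})
      fun i j h => he (b.antisymm _ _ (le_of_el b fun p => (Set.ext_iff.1 h p).1)
        (le_of_el b fun p => (Set.ext_iff.1 h p).2))) inferInstance
  obtain ⟨nw, hnw⟩ := chs (R := fun (l : List P) q => q ∉ l) fun l =>
    l.finite_toSet.exists_notMem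
  let L : Fn ℕ (List P) := lm fun n =>
    Nat.rec (motive := fun _ => List P) [] (fun _ r => nw r :: r) n
  have hm : ∀ j i, i < j → nw (L i) ∈ L j := fun j => by
    induction j with
    | zero => exact fun i h => absurd h (by omega)
    | succ j ih =>
      intro i h
      show _ ∈ nw (L j) :: L j
      rcases Nat.lt_succ_iff_lt_or_eq.1 h with g | g
      · exact List.mem_cons_of_mem _ (ih i g)
      · rw [g]; exact List.mem_cons_self
  refine ⟨lm fun n => nw (L n), fun i j h => ?_⟩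
  have h' : nw (L i) = nw (L j) := h
  rcases lt_trichotomy i j with g | g | g
  exacts [absurd (h' ▸ hm j i g) (hnw _), g, absurd (h'.symm ▸ hm i j g) (hnw _)]

theorem Sp.pb_el (S : Sp A P) :
    PB (fun a b => ∀ p, S.el p a → S.el p b) S.inf S.cpl fun a => ∀ p, ¬ S.el p a where
  refl := fun _ _ h => h
  trans := fun _ _ _ h h' p e => h' p (h p e)
  inf_l := fun _ _ _ h => ((S.el_inf _ _ _).1 h).1
  inf_r := fun _ _ _ h => ((S.el_inf _ _ _).1 h).2
  le_inf := fun _ _ _ h h' p e => (S.el_inf _ _ _).2 ⟨h p e, h' p e⟩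
  z_mono := fun _ _ h h' p e => h' p (h p e)
  z_cpl := fun _ _ h => (S.el_cpl _ _).1 ((S.el_inf _ _ _).1 h).2 ((S.el_inf _ _ _).1 h).1
  z_split := fun _ _ h h' p e => h' p ((S.el_inf _ _ _).2
    ⟨e, (S.el_cpl _ _).2 fun e' => h p ((S.el_inf _ _ _).2 ⟨e, e'⟩)⟩)

/-- compactness: an ideal that contains a neighbourhood of every point of `a` contains `a` -/
theorem cover (G : A → Prop) [DP G] (h0 : ∀ a, (∀ p, ¬ S.el p a) → G a)
    (h1 : ∀ a b c, G a → G b → (∀ p, S.el p c → S.el p a ∨ S.el p b) → G c) (a : A)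
    (h : ∀ p, S.el p a → ∃ b, S.el p b ∧ G b) : G a := by
  by_contra hn
  have hi : ∀ p b, S.el p (S.inf a (S.cpl b)) ↔ S.el p a ∧ ¬ S.el p b := fun p b =>
    (S.el_inf _ _ _).trans (and_congr Iff.rfl (S.el_cpl _ _))
  have g0 : G (S.inf a (S.cpl a)) := h0 _ fun p e => ((hi p a).1 e).2 ((hi p a).1 e).1
  obtain ⟨q, q0, q1, q2, -, -⟩ := ultra_ext S.pb_el (fun x => ∃ b, G b ∧ x = S.inf a (S.cpl b))
    fun l hl => by
      obtain ⟨b, hb, k⟩ : ∃ b, G b ∧ ∀ x ∈ l, ∀ p, S.el p (S.inf a (S.cpl b)) → S.el p x := by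
        induction l with
        | nil => exact ⟨_, g0, by simp⟩
        | cons x l ih =>
          obtain ⟨b, hb, k⟩ := ih fun y hy => hl y (by simp [hy])
          obtain ⟨c, hc, rfl⟩ := hl x (by simp)
          obtain ⟨d, hd⟩ := (S.lib ⟨a⟩).sup b c
          refine ⟨d, h1 b c d hb hc fun p => (hd p).1, fun y hy p e => ?_⟩
          rw [hi, hd, not_or] at e
          rcases List.mem_cons.1 hy with rfl | hy
          exacts [(hi _ _).2 ⟨e.1, e.2.2⟩, k y hy p ((hi _ _).2 ⟨e.1, e.2.1⟩)]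
      exact ⟨_, fun hz => hn (h1 b b a hb hb fun p e =>
        Or.inl (by_contra fun g => hz p ((hi p b).2 ⟨e, g⟩))), k⟩
  obtain ⟨p, hp⟩ := S.full q q1 q2
  obtain ⟨b, hb, hG⟩ := h p ((hi p _).1 ((hp _).2 (q0 _ ⟨_, g0, rfl⟩))).1
  exact ((hi p b).1 ((hp _).2 (q0 _ ⟨b, hG, rfl⟩))).2 hb

/-- closed sets of points are compact -/
theorem finite_subcover (ne : Nonempty A) {U : PS P} (hU : S.Opn U) (C : PS (PS P))
    (hC : ∀ O ∈ C, S.Opn O) (h : ∀ p, p ∉ U → ∃ O ∈ C, p ∈ O) :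
    ∃ l : List (PS P), (∀ O ∈ l, O ∈ C) ∧ ∀ p, p ∉ U → ∃ O ∈ l, p ∈ O := by
  obtain ⟨a, ha⟩ := (S.lib ne).top
  obtain ⟨l, hl, k⟩ := cover (S := S) (fun d => ∃ l : List (PS P), (∀ O ∈ l, O ∈ C) ∧
      ∀ p, S.el p d → p ∉ U → ∃ O ∈ l, p ∈ O)
    (fun d hd => ⟨[], by simp, fun p e => (hd p e).elim⟩)
    (fun b c d ⟨l, l0, hl⟩ ⟨m, m0, hm⟩ hd => ⟨l ++ m,
      fun O e => (List.mem_append.1 e).elim (l0 O) (m0 O), fun p e g => (hd p e).elim
      (fun r => (hl p r g).imp fun t ht => ⟨List.mem_append_left _ ht.1, ht.2⟩)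
      fun r => (hm p r g).imp fun t ht => ⟨List.mem_append_right _ ht.1, ht.2⟩⟩) a fun p _ => by
      by_cases g : p ∈ U
      · obtain ⟨b, h1, h2⟩ := hU p g
        exact ⟨b, h1, [], by simp, fun q e g' => (g' (h2 q e)).elim⟩
      · obtain ⟨t, ht, ht'⟩ := h p g
        obtain ⟨b, h1, h2⟩ := hC t ht p ht'
        exact ⟨b, h1, [t], by simpa, fun q e _ => ⟨t, by simp, h2 q e⟩⟩
  exact ⟨l, hl, fun p => k p (ha p)⟩

variable {Q : Type} [MT Q] [Field Q] [LinearOrder Q] [IsStrictOrderedRing Q] [RF Q]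

open Classical in
/-- the indicator -/
def ind (Q : Type) [Field Q] (p : Prop) : Q := if p then 1 else 0

theorem ind_pos {p : Prop} (h : p) : ind Q p = 1 := if_pos h

theorem ind_neg {p : Prop} (h : ¬ p) : ind Q p = 0 := if_neg h

theorem ind_nonneg (p : Prop) : 0 ≤ ind Q p := by
  by_cases h : p <;> simp [ind, h]

instance dd_ind {Γ : Type} [MC Γ] (c : Γ → Prop) [DP c] : DD fun g => ind Q (c g) := by
  unfold ind; infer_instance

theorem not_bdd : ¬ ∃ b : Q, ∀ n : ℕ, (n : Q) ≤ b := fun ⟨b, hb⟩ => by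
  obtain ⟨x, h1, h2⟩ := exists_lub (fun r : Q => ∃ n : ℕ, (n : Q) = r) ⟨_, 0, rfl⟩
    ⟨b, fun _ ⟨n, e⟩ => e ▸ hb n⟩
  exact NL.unb ⟨h1, h2⟩ fun r ⟨n, e⟩ => ⟨n + 1, by rw [Nat.cast_succ, e]⟩

theorem sum_ind_le (p : ℕ → Prop) (h : ∀ i j, p i → p j → i = j) (n : ℕ) :
    ∑ i ∈ Finset.range n, ind Q (p i) ≤ 1 := by
  classical
  have : ∑ i ∈ Finset.range n, ind Q (p i) = ((Finset.range n).filter p).card := by
    rw [← Finset.sum_boole]
    exact Finset.sum_congr rfl fun i _ => by unfold ind; congr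
  rw [this, Nat.cast_le_one]
  exact Finset.card_le_one.2 fun i hi j hj =>
    h i j (Finset.mem_filter.1 hi).2 (Finset.mem_filter.1 hj).2

theorem p2_of_nik (b : NL.BAx le S.inf sup S.cpl) (h : Nik le sup Q) : S.P2 := by
  intro y z hyz
  by_contra hn
  have fin : ∀ a, ∀ᶠ n in atTop, S.el (y n) a → S.el (z n) a := fun a =>
    (not_frequently.1 fun k => hn ⟨a, k⟩).mono fun n k k' => by_contra fun r => k ⟨k', r⟩
  have bd : ∀ (n : ℕ) (u v : Prop), |(n : Q) * (ind Q u - ind Q v)| ≤ n * (ind Q u + ind Q v) :=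
    fun n u v => by
      rw [abs_mul, Nat.abs_cast]
      refine mul_le_mul_of_nonneg_left ((abs_sub _ _).trans_eq ?_) n.cast_nonneg
      rw [abs_of_nonneg (ind_nonneg u), abs_of_nonneg (ind_nonneg v)]
  obtain ⟨C, hC⟩ := h
    (lm fun n => lm fun a => (n : Q) * (ind Q (S.el (y n) a) - ind Q (S.el (z n) a)))
    (fun n => ⟨fun a c d => by
      have k : ∀ p, ind Q (S.el p (sup a c)) = ind Q (S.el p a) + ind Q (S.el p c) := fun p => by
        have h1 := b.el_sup S.el_inf S.el_cpl p a c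
        have h2 := b.el_disj S.el_inf S.el_cpl (p := p) d
        by_cases S.el p a <;> by_cases S.el p c <;> simp_all [ind]
      simp only [lm_apply, k]
      ring, n * 2, fun d hd k => by
      refine (Finset.sum_le_sum fun i _ => bd n _ _).trans ?_
      rw [← Finset.mul_sum, Finset.sum_add_distrib]
      refine mul_le_mul_of_nonneg_left ?_ n.cast_nonneg
      have h0 : ∀ p i j, S.el p (d i) → S.el p (d j) → i = j := fun p i j u v =>
        by_contra fun e => b.el_disj S.el_inf S.el_cpl (hd i j e) u v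
      have h1 := sum_ind_le (Q := Q) (fun i => S.el (y n) (d i)) (h0 _) k
      have h2 := sum_ind_le (Q := Q) (fun i => S.el (z n) (d i)) (h0 _) k
      linarith⟩) fun a => by
      obtain ⟨k, hk⟩ := eventually_atTop.1 ((fin a).and (fin (S.cpl a)))
      refine ⟨k * 2, fun n => ?_⟩
      rcases le_total k n with g | g
      · have e : S.el (y n) a ↔ S.el (z n) a := ⟨(hk n g).1, fun w => by_contra fun v =>
          (S.el_cpl _ _).1 ((hk n g).2 ((S.el_cpl _ _).2 v)) w⟩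
        simp only [lm_apply, e, sub_self, mul_zero, abs_zero]
        positivity
      · refine (bd n _ _).trans (mul_le_mul (Nat.cast_le.2 g) ?_
          (add_nonneg (ind_nonneg _) (ind_nonneg _)) k.cast_nonneg)
        by_cases S.el (y n) a <;> by_cases S.el (z n) a <;> simp [ind, *] <;> norm_num
  refine not_bdd ⟨C, fun n => ?_⟩
  obtain ⟨a, h1, h2⟩ := Sp.sep (S := S) (hyz n)
  have h3 := (pb_ba b).z_cpl a
  simpa [ind_pos h1, ind_neg h2] using hC n
    (lm fun i => if i = 0 then a else S.inf a (S.cpl a)) (fun i j e x w u v => by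
      by_cases g : i = 0
      · have g' : ¬ j = 0 := fun k => e (g.trans k.symm)
        exact b.trans _ _ _ (by simpa [g'] using v) (h3 w)
      · exact b.trans _ _ _ (by simpa [g] using u) (h3 w)) 1

end Pool.Agent.P.MP_0d6be8_lc.NKW
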