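import Pool.Agent.P.MP_0d6be8_lc.NKW.Core4
import Pool.Agent.P.MP_0d6be8_lc.FDefs

set_option autoImplicit false
set_option linter.unusedSectionVars false
set_option synthInstance.maxSize 4000

/-! From the first-order principles to their typed form. -/

noncomputable section

open Pool.Agent.Lib.PosetForcing (App)
open Pool.Agent.P.MP_5f3b23_lc.Zf (om op mm app_iff isPair_iff op_inj)
open Pool.Agent.P.MP_af1204_lc.Inn Filter

namespace Pool.Agent.P.MP_0d6be8_lc.NKW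

variable [Md] [Std]

theorem all_om {p : MM → Prop} : (∀ n, mm n (om : MM) → p n) ↔ ∀ n, p (num n) :=
  ⟨fun h n => h _ (num_mem_om n), fun h x hx => let ⟨n, e⟩ := Std.std x hx; e ▸ h n⟩

theorem ex_om {p : MM → Prop} : (∃ n, mm n (om : MM) ∧ p n) ↔ ∃ n, p (num n) :=
  ⟨fun ⟨x, hx, h⟩ => let ⟨n, e⟩ := Std.std x hx; ⟨n, e ▸ h⟩, fun ⟨n, h⟩ => ⟨_, num_mem_om n, h⟩⟩

theorem infP_iff {A : MM → Prop} : InfP mm om A ↔ ∃ᶠ n in atTop, A (num n) := by
  simp only [InfP, all_om, ex_om, frequently_atTop]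
  simp only [mm, num_mem_num, not_lt]

theorem subP_iff {A B : MM → Prop} :
    SubP mm om A B ↔ ∀ᶠ n in atTop, A (num n) → B (num n) := by
  simp only [SubP, all_om, ex_om, eventually_atTop]
  simp only [mm, num_mem_num, not_lt]

theorem app2_op {f a b d : MM} : App2 mm f a b d ↔ op (op a b) d ∈ f := by
  simp only [App2, isPair_iff, app_iff, exists_eq_left]

theorem app3_op {f a b c d : MM} : App3 mm f a b c d ↔ op (op (op a b) c) d ∈ f := by
  simp only [App3, isPair_iff, app2_op, exists_eq_left]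

/-- a family of sets of numbers as a relation of the model -/
def rel {Y : Type} [MT Y] (U : Fn Y (PS ℕ)) : MM := (sb fun p : Y × ℕ => p.2 ∈ U p.1).code

theorem mem_rel {Y : Type} [MT Y] {U : Fn Y (PS ℕ)} {y : Y} {m : ℕ} :
    op (enc y) (num m) ∈ rel U ↔ m ∈ U y := PS.enc_mem_code (x := (y, m))

/-- the graph of a function -/
theorem app_code {Y Z : Type} [MT Y] [MT Z] {f : Fn Y Z} {y : Y} {b : MM} :
    App mm f.code (enc y) b ↔ enc (f y) = b :=
  app_iff.trans (Fn.mem_code.trans ⟨fun ⟨_, e⟩ => MC.inj _ _ (op_inj e).1 ▸ (op_inj e).2,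
    fun e => ⟨y, e ▸ rfl⟩⟩)

/-- a set of the model as a set of numbers -/
def nums (e : MM) : PS ℕ := sb fun m => enc m ∈ e

theorem nums_code (e : PS ℕ) : nums e.code = e := PS.ext fun _ => PS.enc_mem_code

theorem dec_iff {A : MM → Prop} {Y : PS ℕ} (h : ∀ m, A (num m) ↔ m ∈ Y) {e : MM} :
    Dec mm om A e ↔ Dc Y (nums e) := by
  simp only [Dec, subP_iff, h]; rfl

theorem exists_pr {K X : MM} (h : Princ mm om K X) :
    ∃ (_ : IsOd K) (X' : Fn (El K) (PS ℕ)), Pr X' := by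
  obtain ⟨h1, h2, h3, h4, h5, h6⟩ := h
  have i : IsOd K := ⟨fun x hx y hy => h1.1 x y hx hy, fun x y hx hy z hz => h1.2.1 x y z hx hy hz⟩
  let X' : Fn (El K) (PS ℕ) := lm fun x => sb fun m => enc (x, m) ∈ X
  have hX : ∀ (x : El K) m, App mm X x.v (num m) ↔ m ∈ X' x := fun _ _ => app_iff
  have lo : ∀ {g : El K} {a : MM}, a ∈ g.v → a ∈ K := fun {g a} k => h1.1 _ _ g.mem k
  have bd : ∀ g : El K, Bdd mm om g.v → BdB g := fun g hg s hs => by
    obtain ⟨d, k1, k2⟩ := hg s.code (all_om.2 fun n => ⟨_, hs n, (app_code (y := n)).2 rfl⟩)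
    refine ⟨El.mk d (lo k1), k1, fun n => ?_⟩
    obtain ⟨a, k3, k4⟩ := k2 _ (num_mem_om n)
    have e := (app_code (y := n)).1 k4
    subst e; exact k3
  refine ⟨i, X', fun Y => ?_, fun s => ?_, fun g s => ?_, fun g B b1 b2 => ?_,
    fun U Z F u1 u2 u3 => ?_⟩
  · obtain ⟨x, k1, k2⟩ := h4 Y.code
    exact ⟨El.mk x k1, PS.ext fun m => (hX _ m).symm.trans
      ((k2 _ (num_mem_om m)).trans (PS.enc_mem_code (x := m)))⟩
  · obtain ⟨d, k1, k2⟩ := h2 s.code (all_om.2 fun n => ⟨_, (s n).mem, (app_code (y := n)).2 rfl⟩)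
    refine ⟨El.mk d k1, fun n => ?_⟩
    obtain ⟨a, k3, k4⟩ := k2 _ (num_mem_om n)
    have e := (app_code (y := n)).1 k4
    subst e; exact k3
  · obtain ⟨d, k1, k2⟩ := h3 g.v g.mem s.code fun n hn =>
      ⟨_, (s (El.mk n (lo hn))).mem, (app_code (y := El.mk n (lo hn))).2 rfl⟩
    refine ⟨El.mk d k1, fun a ha => ?_⟩
    obtain ⟨b, k3, k4⟩ := k2 _ ha
    have e := (app_code (y := a)).1 k4
    subst e; exact k3
  · have e : ∀ (b : El K) n m, App2 mm (rel B) b.v (num n) (num m) ↔ m ∈ B (b, n) :=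
      fun b n m => app2_op.trans (mem_rel (y := (b, n)))
    obtain ⟨z, z1, z2⟩ := h5 (rel B) g.v g.mem (fun b n hb hn => by
        obtain ⟨n, rfl⟩ := Std.std n hn
        exact infP_iff.2 (Frequently.mono (b1 (El.mk b (lo hb)) n hb)
          fun m => (e (El.mk b (lo hb)) n m).2))
      fun b n b' n' hb hn hb' hn' => by
        obtain ⟨n, rfl⟩ := Std.std n hn
        obtain ⟨n', rfl⟩ := Std.std n' hn'
        obtain ⟨c, k, c1, c2, c3⟩ := b2 (El.mk b (lo hb)) n (El.mk b' (lo hb')) n' hb hb'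
        exact ⟨c.v, num k, c1, num_mem_om k,
          subP_iff.2 (c2.mono fun m x y => (e _ n m).2 (x ((e c k m).1 y))),
          subP_iff.2 (c3.mono fun m x y => (e _ n' m).2 (x ((e c k m).1 y)))⟩
    exact ⟨nums z, infP_iff.1 z1, fun b n hb =>
      (subP_iff.1 (z2 b.v _ hb (num_mem_om n))).mono fun m x y => (e b n m).1 (x y)⟩
  · have eU : ∀ (j x : El K) m, App2 mm (rel U) j.v x.v (num m) ↔ m ∈ U (j, x) :=
      fun j x m => app2_op.trans (mem_rel (y := (j, x)))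
    have eZ : ∀ (j x : El K) k m, App3 mm (rel Z) j.v x.v (num k) (num m) ↔ m ∈ Z ((j, x), k) :=
      fun j x k m => app3_op.trans (mem_rel (y := ((j, x), k)))
    obtain ⟨g, g0, ⟨a, g1⟩, g2, g3, g4⟩ := h6 (rel U) (rel Z) F.code
      ⟨fun j x y hj hx hy => subP_iff.2 ((u1 (El.mk j hj) (El.mk x hx) (El.mk y (h1.1 _ _ hx hy))
          hy).mono fun m k k' => (eU _ _ m).2 (k ((eU _ _ m).1 k'))),
        fun j e hj => let ⟨x, hx⟩ := u2 (El.mk j hj) (nums e)
          ⟨x.v, x.mem, (dec_iff (eU (El.mk j hj) x)).2 hx⟩,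
        fun j x k hj hx hk => by
          obtain ⟨k, rfl⟩ := Std.std k hk
          obtain ⟨k1, k2⟩ := u3 (El.mk j hj) (El.mk x hx) k
          exact ⟨infP_iff.2 (Frequently.mono k1 fun m => (eZ (El.mk j hj) (El.mk x hx) k m).2),
            subP_iff.2 (k2.mono fun m x y => (eU _ _ m).2 (x ((eZ _ _ k m).1 y)))⟩⟩
      fun a ha => ⟨_, (F (El.mk a ha)).mem, (app_code (y := El.mk a ha)).2 rfl⟩
    have lo' : ∀ {a : MM}, a ∈ g → a ∈ K := fun k => h1.1 _ _ g0 k
    refine ⟨El.mk g g0, ⟨El.mk a (lo' g1), g1⟩, fun a ha => ?_, bd _ g3, fun j hj e he => ?_⟩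
    · obtain ⟨b, k1, k2⟩ := g2 a.v ha
      have e := (app_code (y := a)).1 k2
      subst e; exact k1
    · obtain ⟨d, d1, d2⟩ := g4 j.v e.code hj fun x hx =>
        let ⟨k, hk⟩ := he (El.mk x hx)
        ⟨num k, num_mem_om k, (dec_iff (eZ j (El.mk x hx) k)).2 ((nums_code e).symm ▸ hk)⟩
      have key : ∀ (B : MM → Prop) (e' : PS ℕ), (∀ m, m ∈ e' → B (num m)) →
          NoneIn mm om g X (App2 mm (rel U) j.v d) B →
          No X' (El.mk g g0) (U (j, El.mk d (lo' d1))) e' := by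
        rintro B e' hB hn _ ⟨y1, ξ, y2, rfl⟩ y3 y4
        exact hn ξ.v y2 (infP_iff.2 (Frequently.mono y1 fun m => (hX ξ m).2))
          (subP_iff.2 (y3.mono fun m x y => (eU _ _ m).2 (x ((hX ξ m).1 y))))
          (subP_iff.2 (y4.mono fun m x y => hB m (x ((hX ξ m).1 y))))
      exact ⟨El.mk d (lo' d1), d1, d2.imp (key _ _ fun m => (PS.enc_mem_code (x := m)).2)
        (key _ _ fun m k k' => k ((PS.enc_mem_code (x := m)).1 k'))⟩

theorem core_of_princ {K X : MM} (h : Princ mm om K X) (A P : Type) [MT A] [MT P] (S : Sp A P)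
    (h2 : S.P2) (y : Fn ℕ P) (hy : Function.Injective y) : ¬ S.Tame :=
  let ⟨_, _, k⟩ := exists_pr h; not_tame k h2 y hy

end Pool.Agent.P.MP_0d6be8_lc.NKW
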