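import Pool.Agent.P.MP_0d6be8_lc.NKW.Omega
import Pool.Agent.P.MP_0d6be8_lc.NKW.PrLink
import Pool.Agent.P.MP_0d6be8_lc.FMain
import Pool.Agent.P.MP_0d6be8_lc.NKStmt

set_option autoImplicit false
set_option synthInstance.maxSize 40000

/-! The forced principles hold in a countable model with standard natural numbers. -/

open Pool.Agent.Lib.PosetForcing Pool.Agent.P.MP_5f3b23_lc.Zf
open Pool.Agent.P.MP_af1204_lc.Inn (Md MT Fn num num_succ)
open Pool.Agent.P.MP_93aff1_lc (MA IsPoset IsCCC IsDense IsFilter Compat)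

namespace Pool.Agent.P.MP_0d6be8_lc.NKW

universe v

instance ud_isPow (i j : ℕ) : UD.{v} fun _ mem v => IsPow mem (v i) (v j) := by
  unfold IsPow; infer_instance

instance ud_ma (i j : ℕ) : UD.{v} fun _ mem v => MA mem (v i) (v j) := by
  unfold MA IsPoset IsCCC IsDense IsFilter Compat Ne; infer_instance

instance ud_app2 (i j k l : ℕ) : UD.{v} fun _ mem v => App2 mem (v i) (v j) (v k) (v l) := by
  unfold App2; infer_instance

instance ud_app3 (i j k l n : ℕ) :
    UD.{v} fun _ mem v => App3 mem (v i) (v j) (v k) (v l) (v n) := by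
  unfold App3; infer_instance

instance ud_isOrd (i : ℕ) : UD.{v} fun _ mem v => IsOrd mem (v i) := by
  unfold IsOrd; infer_instance

instance ud_bdd (i j : ℕ) : UD.{v} fun _ mem v => Bdd mem (v i) (v j) := by
  unfold Bdd; infer_instance

instance ud_onto (i j k : ℕ) : UD.{v} fun _ mem v => Onto mem (v i) (v j) (v k) := by
  unfold Onto; infer_instance

instance ud_pi (i j : ℕ) : UD.{v} fun _ mem v => PI mem (v i) (v j) := by
  unfold PI InfP SubP; infer_instance

instance ud_towers (i j k l : ℕ) :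
    UD.{v} fun _ mem v => Towers mem (v i) (v j) (v k) (v l) := by
  unfold Towers Dec InfP SubP; infer_instance

instance ud_luz (i j k l n r : ℕ) :
    UD.{v} fun _ mem v => Luz mem (v i) (v j) (v k) (v l) (v n) (v r) := by
  unfold Luz NoneIn Dec InfP SubP; infer_instance

instance ud_princ (i j k : ℕ) : UD.{v} fun _ mem v => Princ mem (v i) (v j) (v k) := by
  unfold Princ PL; infer_instance

section maps
variable {S : Type v} {N : Type} (m : S → S → Prop) (e : N ≃ S)

theorem app_map (f x y : N) :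
    App m (e f) (e x) (e y) ↔ App (fun a b => m (e a) (e b)) f x y := by
  simp only [App, IsPair, IsUPair, e.surjective.forall, e.surjective.exists, e.apply_eq_iff_eq]

theorem isPair_map (f x y : N) :
    IsPair m (e f) (e x) (e y) ↔ IsPair (fun a b => m (e a) (e b)) f x y := by
  simp only [IsPair, IsUPair, e.surjective.forall, e.apply_eq_iff_eq]

theorem leCard_map (x y : N) :
    LeCard m (e x) (e y) ↔ LeCard (fun a b => m (e a) (e b)) x y := by
  simp only [LeCard, IsInj, IsFun, IsFunOn, e.surjective.forall, e.surjective.exists,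
    e.apply_eq_iff_eq, app_map, isPair_map]

theorem isOmega_map (x : N) : IsOmega m (e x) ↔ IsOmega (fun a b => m (e a) (e b)) x := by
  simp only [IsOmega, IsInductive, IsSucc, e.surjective.forall, e.surjective.exists,
    e.apply_eq_iff_eq]

theorem isPow_map (x y : N) : IsPow m (e x) (e y) ↔ IsPow (fun a b => m (e a) (e b)) x y := by
  simp only [IsPow, IsSub, e.surjective.forall]

theorem ma_map (x y : N) : MA m (e x) (e y) ↔ MA (fun a b => m (e a) (e b)) x y := by
  simp only [MA, IsPoset, IsCCC, IsDense, IsFilter, Compat, IsSub, Ne, e.surjective.forall,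
    e.surjective.exists, e.apply_eq_iff_eq, app_map, leCard_map]

theorem princ_map (x y z : N) :
    Princ m (e x) (e y) (e z) ↔ Princ (fun a b => m (e a) (e b)) x y z := by
  simp only [Princ, IsOrd, Bdd, Onto, PI, PL, Towers, Luz, NoneIn, Dec, InfP, SubP, App3, App2,
    e.surjective.forall, e.surjective.exists, e.apply_eq_iff_eq, app_map, isPair_map]

end maps

theorem exists_model : ∃ (N : Type) (m : N → N → Prop) (w c K X : N), IsZFC m ∧ IsOmega m w ∧
    IsPow m c w ∧ MA m w c ∧ Princ m w K X ∧ ∀ T : N → Prop, (∀ e, (∀ x, ¬ m x e) → T e) →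
      (∀ x y, IsSucc m y x → T x → T y) → ∀ x, m x w → T x := by
  obtain ⟨K, X, h⟩ := forcing_side
  obtain ⟨U, S, m, v, N, e, h1, h2, h3⟩ := exists_omega_model
    fun i => Nat.casesOn i omegaName fun i => Nat.casesOn i (powName omegaName)
      fun i => Nat.casesOn i K fun _ => X
  have k1 := h2 (fun _ mem v => IsOmega mem (v 0)) (isOmega_omega U)
  have k2 := h2 (fun _ mem v => IsPow mem (v 1) (v 0)) (isPow_powName _ U)
  have k3 := h2 (fun _ mem v => MA mem (v 0) (v 1)) (h U).1
  have k4 := h2 (fun _ mem v => Princ mem (v 0) (v 2) (v 3)) (h U).2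
  obtain ⟨w, hw⟩ := e.surjective (v 0)
  obtain ⟨c, hc⟩ := e.surjective (v 1)
  obtain ⟨k, hk⟩ := e.surjective (v 2)
  obtain ⟨x, hx⟩ := e.surjective (v 3)
  simp only [← hw, ← hc, ← hk, ← hx] at k1 k2 k3 k4
  refine ⟨N, _, w, c, k, x, zfc_map m e h1, (isOmega_map m e w).1 k1, (isPow_map m e c w).1 k2,
    (ma_map m e w c).1 k3, (princ_map m e w k x).1 k4, fun T t0 t1 y hy => ?_⟩
  have := h3 (fun s => T (e.symm s)) (fun s hs => t0 _ fun z => hs _ ∘ fun q => by simpa using q)
    (fun a b hs => t1 _ _ fun z => by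
      simpa only [e.apply_symm_apply, e.eq_symm_apply] using hs (e z)) _ k1 _ hy
  simpa using this

theorem final_of (goal : ∀ [Md] [Std], (∀ (A P : Type) [MT A] [MT P] (S : Sp A P), S.P2 →
      ∀ y : Fn ℕ P, Function.Injective y → ¬ S.Tame) → NK.Goal mm (om : Md.MM)) :
    ∃ (M : Type) (mem : M → M → Prop), IsZFC mem ∧ ∃ w c, IsOmega mem w ∧ IsPow mem c w ∧
      MA mem w c ∧ NK.Goal mem w := by
  obtain ⟨N, m, w, c, K, X, h1, h2, h3, h4, h5, h6⟩ := exists_model
  let z : Zm N := { mem := fun a x => m x a, zfc := h1 }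
  let md : Md := ⟨N⟩
  obtain rfl : w = om := isOmega_iff.1 h2
  have st : Std := ⟨h6 (fun x => ∃ n, num n = x) (fun e he => ⟨0, (eq_emp he).symm⟩)
    fun x y hs ⟨n, hn⟩ => ⟨n + 1, zfc.ext _ _ fun z => by
      rw [num_succ, hn]; exact mem_suc.trans (hs z).symm⟩⟩
  exact ⟨N, m, h1, _, c, h2, h3, h4, goal (core_of_princ h5)⟩

end Pool.Agent.P.MP_0d6be8_lc.NKW
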